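import Pool.Agent.OddZeta.Defs

/-!
`tail s 0` is the value of the Riemann zeta function.
Seat: helper7.
-/

namespace Pool.Agent.OddZeta

theorem riemannZeta_eq_tail (s : ℕ) (hs : 1 < s) : riemannZeta s = ((tail s 0 : ℝ) : ℂ) := by
  rw [zeta_nat_eq_tsum_of_gt_one hs]
  have hsum : Summable (fun n : ℕ => 1 / (n : ℝ) ^ s) := Real.summable_one_div_nat_pow.2 hs
  have h1 : ∑' n : ℕ, 1 / (n : ℂ) ^ s = ((∑' n : ℕ, 1 / (n : ℝ) ^ s : ℝ) : ℂ) := by
    push_cast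
    rfl
  rw [h1]
  congr 1
  rw [hsum.tsum_eq_zero_add]
  unfold tail
  have h0 : (1 : ℝ) / ((0 : ℕ) : ℝ) ^ s = 0 := by
    rw [Nat.cast_zero, zero_pow (by omega), div_zero]
  rw [h0, zero_add]
  refine tsum_congr (fun m => ?_)
  push_cast
  rw [add_zero]

end Pool.Agent.OddZeta
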