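import Pool.Agent.OddZeta.Defs

/-!
The exponent `V` at the prime `p = n` (module E).
Seat: helper7.
-/

open Finset

namespace Pool.Agent.OddZeta

theorem sum_ind (n l : ℕ) (s : Finset ℕ) :
    ∑ h ∈ s, (if l ∈ blk n h then (1 : ℤ) else 0) = (#{h ∈ s | l ∈ blk n h} : ℤ) := by
  rw [Finset.card_filter]
  push_cast
  rfl

theorem Nl_self_div {p : ℕ} (hp : 0 < p) (h : ℕ) : Nl p h / p = 83 - 2 * h := by
  unfold Nl
  exact Nat.mul_div_cancel _ hp

theorem cnt_self_not_dvd {p l h : ℕ} (hp : 0 < p) (hl : ¬ p ∣ l) (hh : h ≤ 41) :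
    ((Nl p h / p : ℕ) : ℤ) - cnt p l p h = if l ∈ blk p h then 1 else 0 := by
  have hpz : (p : ℤ) ≠ 0 := by exact_mod_cast hp.ne'
  have h1 : fA p l p h = (l : ℤ) / p - h := by
    unfold fA
    rw [Int.sub_mul_ediv_right _ _ hpz]
  have h2 : fB p l p h = (83 - h : ℤ) + (-(l : ℤ)) / p := by
    unfold fB
    have : (83 - h : ℤ) * p - l = (-(l : ℤ)) + (83 - h : ℤ) * p := by ring
    rw [this, Int.add_mul_ediv_right _ _ hpz, add_comm]
  have h3 : (-(l : ℤ)) / p = - ((l : ℤ) / p) - 1 := by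
    have h4 : ¬ (p : ℤ) ∣ (l : ℤ) := by exact_mod_cast hl
    have h5 : 0 < (l : ℤ) % p := by
      rcases (Int.emod_nonneg (l : ℤ) hpz).lt_or_eq with h | h
      · exact h
      · exact absurd (Int.dvd_of_emod_eq_zero h.symm) h4
    have h6 := Int.emod_lt_of_pos (l : ℤ) (b := (p : ℤ)) (by exact_mod_cast hp)
    have h7 := Int.mul_ediv_add_emod (l : ℤ) p
    have h8 : -(l : ℤ) = ((p : ℤ) - (l : ℤ) % p) + (-((l : ℤ) / p) - 1) * p := by
      linear_combination h7
    rw [h8, Int.add_mul_ediv_right _ _ hpz, Int.ediv_eq_zero_of_lt (by omega) (by omega)]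
    ring
  unfold cnt
  rw [h1, h2, h3, Nl_self_div hp]
  push_cast [Nat.cast_sub (show 2 * h ≤ 83 by omega)]
  split_ifs <;> ring

theorem cnt_self_dvd {p j h : ℕ} (hp : 0 < p) (hh : h ≤ 41) :
    ((Nl p h / p : ℕ) : ℤ) - cnt p (p * j) p h = (if p * j ∈ blk p h then 1 else 0) - 1 := by
  have hpz : (p : ℤ) ≠ 0 := by exact_mod_cast hp.ne'
  have h1 : fA p (p * j) p h = (j : ℤ) - h := by
    unfold fA
    have : (((p * j : ℕ) : ℤ) - (h : ℤ) * p) = ((j : ℤ) - h) * p := by push_cast; ring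
    rw [this, Int.mul_ediv_cancel _ hpz]
  have h2 : fB p (p * j) p h = (83 - h : ℤ) - j := by
    unfold fB
    have : (83 - h : ℤ) * p - ((p * j : ℕ) : ℤ) = ((83 - h : ℤ) - j) * p := by push_cast; ring
    rw [this, Int.mul_ediv_cancel _ hpz]
  unfold cnt
  rw [h1, h2, Nl_self_div hp]
  push_cast [Nat.cast_sub (show 2 * h ≤ 83 by omega)]
  split_ifs <;> ring

theorem Pset_le {h : ℕ} (hh : h ∈ Pset) : h ≤ 41 := by
  unfold Pset at hh; rw [Finset.mem_Icc] at hh; omega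

theorem Mset_le {h : ℕ} (hh : h ∈ Mset) : h ≤ 41 := by
  unfold Mset at hh; simp at hh; omega

theorem V_self_not_dvd {p l : ℕ} (hp : 0 < p) (hl : ¬ p ∣ l) : V p l p = ord p l := by
  unfold V ord
  rw [Finset.sum_congr rfl (fun h hh => cnt_self_not_dvd hp hl (Pset_le hh)),
    Finset.sum_congr rfl (fun h hh => cnt_self_not_dvd hp hl (Mset_le hh)), sum_ind, sum_ind]

theorem V_self_dvd {p j : ℕ} (hp : 0 < p) : V p (p * j) p = ord p (p * j) - 8 := by
  unfold V ord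
  rw [Finset.sum_congr rfl (fun h hh => cnt_self_dvd hp (Pset_le hh)),
    Finset.sum_congr rfl (fun h hh => cnt_self_dvd hp (Mset_le hh)), Finset.sum_sub_distrib,
    Finset.sum_sub_distrib, sum_ind, sum_ind]
  have e1 : Pset.card = 11 := by decide
  have e2 : Mset.card = 3 := by decide
  rw [Finset.sum_const, Finset.sum_const, e1, e2]
  norm_num
  ring

end Pool.Agent.OddZeta
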