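import Mathlib

/-!
Definitions for: at least one of zeta(5), zeta(7), zeta(9) is irrational.
Seat: helper7.  Blueprint: /team-store/OddZeta_BLUEPRINT.md
-/

open Finset

namespace Pool.Agent.OddZeta

/-- the pole blocks are `[h n, (83 - h) n]` for `h ∈ Pset` -/
def Pset : Finset ℕ := Finset.Icc 25 35

/-- the zero blocks are `[h n, (83 - h) n]` for `h ∈ Mset` -/
def Mset : Finset ℕ := {0, 3, 6}

/-- length of the block of `h` -/
def Nl (n h : ℕ) : ℕ := (83 - 2 * h) * n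

/-- the block of `h`, a set of integers `m` (the factors `t + m`) -/
def blk (n h : ℕ) : Finset ℕ := Finset.Icc (h * n) ((83 - h) * n)

/-- normalising constant -/
def K (n : ℕ) : ℚ := (∏ h ∈ Pset, ((Nl n h).factorial : ℚ)) / ∏ h ∈ Mset, ((Nl n h).factorial : ℚ)

/-- pole order of `R n` at `-l` (net) -/
def ord (n l : ℕ) : ℤ := (#{h ∈ Pset | l ∈ blk n h} : ℤ) - (#{h ∈ Mset | l ∈ blk n h} : ℤ)

/-- product over the block of `h`, without `m = l`, of `(m - l) + X` -/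
noncomputable def B (n h l : ℕ) : PowerSeries ℚ :=
  ∏ m ∈ (blk n h).erase l, (PowerSeries.C ((m : ℚ) - (l : ℚ)) + PowerSeries.X)

/-- `F n l` is the power series of `ε ^ ord * R n (-l + ε)` -/
noncomputable def F (n l : ℕ) : PowerSeries ℚ :=
  PowerSeries.C (K n) * (PowerSeries.C (83 * (n : ℚ) - 2 * (l : ℚ)) + 2 * PowerSeries.X) *
    (∏ h ∈ Mset, B n h l) * (∏ h ∈ Pset, B n h l)⁻¹

/-- partial fraction coefficient of `1 / (t + l) ^ i` in `R n t` -/
noncomputable def a (n l i : ℕ) : ℚ :=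
  if (i : ℤ) ≤ ord n l then PowerSeries.coeff (ord n l - i).toNat (F n l) else 0

/-- the rational function, as a function of a complex variable -/
noncomputable def R (n : ℕ) (t : ℂ) : ℂ :=
  (K n : ℂ) * (2 * t + 83 * n) * (∏ h ∈ Mset, ∏ m ∈ blk n h, (t + m)) /
    ∏ h ∈ Pset, ∏ m ∈ blk n h, (t + m)

/-- the range of the poles -/
def poles (n : ℕ) : Finset ℕ := Finset.Icc (28 * n) (55 * n)

/-- `∑_{m > M} 1 / m ^ s` -/
noncomputable def tail (s M : ℕ) : ℝ := ∑' m : ℕ, 1 / ((m : ℝ) + M + 1) ^ s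

/-- harmonic number `∑_{m = 1}^{M} 1 / m ^ s` -/
def Hs (s M : ℕ) : ℚ := ∑ m ∈ Finset.Icc 1 M, 1 / (m : ℚ) ^ s

/-- the analytic sum: `S n = ∑_{t > -25 n} R''(t) / 2` -/
noncomputable def S (n : ℕ) : ℝ :=
  ∑ l ∈ poles n, ∑ i ∈ Finset.Icc 1 8, ((a n l i * ((i + 1).choose 2 : ℚ) : ℚ) : ℝ) * tail (i + 2) (l - 25 * n)

/-- coefficient of `ζ(j)` -/
noncomputable def rho (n j : ℕ) : ℚ := ∑ l ∈ poles n, a n l (j - 2) * ((j - 1).choose 2 : ℚ)

/-- local contribution to the constant term -/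
noncomputable def T (n l : ℕ) : ℚ :=
  - ∑ i ∈ Finset.Icc 1 8, a n l i * ((i + 1).choose 2 : ℚ) * Hs (i + 2) (l - 25 * n)

/-- constant term -/
noncomputable def rho0 (n : ℕ) : ℚ := ∑ l ∈ poles n, T n l

/-- the linear form, as a rational number, when `ζ(5), ζ(7), ζ(9)` are replaced by rationals -/
noncomputable def Slin (n : ℕ) (z5 z7 z9 : ℚ) : ℚ := rho0 n + rho n 5 * z5 + rho n 7 * z7 + rho n 9 * z9

/-! ### arithmetic data for one prime `p` -/

/-- `⌊(l - h n)/p⌋` -/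
def fA (n l p h : ℕ) : ℤ := ((l : ℤ) - h * n) / p

/-- `⌊((83 - h) n - l)/p⌋` -/
def fB (n l p h : ℕ) : ℤ := ((83 - h : ℤ) * n - l) / p

/-- number of `m` in the block of `h`, `m ≠ l`, with `p ∣ m - l` -/
def cnt (n l p h : ℕ) : ℤ := fA n l p h + fB n l p h + if l ∈ blk n h then 0 else 1

/-- the valuation exponent `V` at `l` (for `p ^ 2 > 83 n`) -/
def V (n l p : ℕ) : ℤ :=
  (∑ h ∈ Pset, (((Nl n h / p : ℕ) : ℤ) - cnt n l p h)) - ∑ h ∈ Mset, (((Nl n h / p : ℕ) : ℤ) - cnt n l p h)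

/-- `E0` -/
def E0 (n p : ℕ) : ℤ := (∑ h ∈ Pset, ((Nl n h / p : ℕ) : ℤ)) - ∑ h ∈ Mset, ((Nl n h / p : ℕ) : ℤ)

/-- `l` is self-paired: `⌊(l-hn)/p⌋ - ⌊((83-h)n-l)/p⌋` does not depend on `h` -/
def selfP (n l p : ℕ) : Prop :=
  ∀ h ∈ Pset ∪ Mset, fA n l p h - fB n l p h = fA n l p 0 - fB n l p 0

instance (n l p : ℕ) : Decidable (selfP n l p) := by unfold selfP; infer_instance

/-- no pole-type factor at `l` is divisible by `p` -/
def noP (n l p : ℕ) : Prop := ∀ h ∈ Pset, cnt n l p h ≤ 0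

instance (n l p : ℕ) : Decidable (noP n l p) := by unfold noP; infer_instance

/-- local exponent bound -/
def bnd (n l p : ℕ) : ℤ :=
  if p ≤ l - 25 * n then ord n l - V n l p + 2 - (if selfP n l p then 1 else 0)
  else if noP n l p then min (ord n l - V n l p - 1) (- E0 n p)
  else ord n l - V n l p - 1

end Pool.Agent.OddZeta
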