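import Mathlib
import Pool.Agent.OddZeta.Defs

set_option autoImplicit false
set_option linter.unusedSectionVars false

/-!
# Gauss type bounds for power series over the rationals (Module C, helper75)
-/

open Finset

namespace Pool.Agent.OddZeta

open PowerSeries

variable {p : ℕ} [hp : Fact p.Prime]

/-- Gauss type bound: the `m`-th coefficient has `p`-adic norm at most `A * r ^ m`. -/
def GB (p : ℕ) (F : PowerSeries ℚ) (A r : ℚ) : Prop :=
  ∀ m, padicNorm p (coeff m F) ≤ A * r ^ m

omit hp in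
lemma GB.nonneg {F : PowerSeries ℚ} {A r : ℚ} (hF : GB p F A r) : 0 ≤ A := by
  have := (padicNorm.nonneg (coeff 0 F)).trans (hF 0)
  simpa using this

lemma GB.mul {F G : PowerSeries ℚ} {A B r : ℚ} (hF : GB p F A r) (hG : GB p G B r) :
    GB p (F * G) (A * B) r := by
  intro m
  rw [coeff_mul]
  have hnn : 0 ≤ A * r ^ m := (padicNorm.nonneg _).trans (hF m)
  apply padicNorm.sum_le'
  · rintro ⟨i, j⟩ hij
    rw [HasAntidiagonal.mem_antidiagonal] at hij
    rw [padicNorm.mul]
    calc padicNorm p (coeff i F) * padicNorm p (coeff j G)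
        ≤ (A * r ^ i) * (B * r ^ j) :=
          mul_le_mul (hF i) (hG j) (padicNorm.nonneg _) ((padicNorm.nonneg _).trans (hF i))
      _ = A * B * r ^ m := by
          rw [← hij]
          simp only
          ring
  · have := mul_nonneg hnn hG.nonneg
    linarith [this, mul_right_comm A (r ^ m) B]

lemma GB.one {r : ℚ} (hr : 0 ≤ r) : GB p (1 : PowerSeries ℚ) 1 r := by
  intro m
  rw [coeff_one]
  split_ifs with h
  · subst h; simp
  · simp only [padicNorm.zero]; positivity

lemma GB.prod {ι : Type*} (s : Finset ι) (f : ι → PowerSeries ℚ) (A : ι → ℚ) {r : ℚ} (hr : 0 ≤ r)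
    (h : ∀ i ∈ s, GB p (f i) (A i) r) : GB p (∏ i ∈ s, f i) (∏ i ∈ s, A i) r := by
  classical
  induction s using Finset.induction_on with
  | empty => simpa using GB.one hr
  | insert a s ha ih =>
    rw [Finset.prod_insert ha, Finset.prod_insert ha]
    exact (h a (Finset.mem_insert_self _ _)).mul
      (ih (fun i hi => h i (Finset.mem_insert_of_mem hi)))

lemma GB.C (x : ℚ) {r : ℚ} (hr : 0 ≤ r) : GB p (PowerSeries.C x) (padicNorm p x) r := by
  intro m
  rw [coeff_C]
  split_ifs with h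
  · subst h; simp
  · simp only [padicNorm.zero]
    have := padicNorm.nonneg (p := p) x
    positivity

omit hp in
lemma GB.mono {F : PowerSeries ℚ} {A B r : ℚ} (hr : 0 ≤ r) (hF : GB p F A r) (hAB : A ≤ B) :
    GB p F B r := fun m => (hF m).trans (mul_le_mul_of_nonneg_right hAB (by positivity))

lemma GB.add {F G : PowerSeries ℚ} {A r : ℚ} (hF : GB p F A r) (hG : GB p G A r) :
    GB p (F + G) A r := by
  intro m
  rw [map_add]
  exact padicNorm.nonarchimedean.trans (max_le (hF m) (hG m))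

lemma GB.neg {F : PowerSeries ℚ} {A r : ℚ} (hF : GB p F A r) : GB p (-F) A r := by
  intro m
  rw [map_neg, padicNorm.neg]
  exact hF m

/-- linear factors with integer coefficients -/
lemma GB.lin (x k : ℚ) {A r : ℚ} (hr : 0 ≤ r) (hx : padicNorm p x ≤ A) (hk : padicNorm p k ≤ A * r) :
    GB p (PowerSeries.C x + PowerSeries.C k * X) A r := by
  have hA : 0 ≤ A := (padicNorm.nonneg x).trans hx
  intro m
  rw [map_add, coeff_C, coeff_C_mul, coeff_X]
  rcases m with _ | _ | m
  · simpa using hx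
  · simpa using hk
  · have : m + 1 + 1 ≠ 1 := by omega
    simp only [Nat.add_eq_zero_iff, one_ne_zero, and_false, if_false, this, mul_zero, add_zero,
      padicNorm.zero]
    positivity

lemma GB.linX (x : ℚ) {A r : ℚ} (hr : 0 ≤ r) (hx : padicNorm p x ≤ A) (hk : 1 ≤ A * r) :
    GB p (PowerSeries.C x + X) A r := by
  have := GB.lin (p := p) x 1 hr hx (by rw [padicNorm.one]; exact hk)
  simpa using this

omit hp in
lemma lin_inv (x : ℚ) (hx : x ≠ 0) :
    (PowerSeries.C x + X : PowerSeries ℚ)⁻¹ = PowerSeries.mk fun m => (-1) ^ m * (x ^ (m + 1))⁻¹ := by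
  rw [PowerSeries.inv_eq_iff_mul_eq_one (by simpa using hx)]
  ext m
  rw [mul_comm, add_mul, map_add, coeff_C_mul, coeff_mk, coeff_one]
  rcases m with _ | m
  · simp [hx]
  · rw [coeff_succ_X_mul, coeff_mk, if_neg (by omega)]
    field_simp
    ring

lemma GB.linInv (x : ℚ) {r : ℚ} (hx0 : x ≠ 0) (hk : 1 ≤ padicNorm p x * r) :
    GB p ((PowerSeries.C x + X : PowerSeries ℚ)⁻¹) (padicNorm p x)⁻¹ r := by
  have hpos : 0 < padicNorm p x := lt_of_le_of_ne (padicNorm.nonneg x) (padicNorm.nonzero hx0).symm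
  have hinv : (padicNorm p x)⁻¹ ≤ r := by
    rw [inv_le_iff_one_le_mul₀ hpos, mul_comm]
    exact hk
  intro m
  rw [lin_inv x hx0, coeff_mk, padicNorm.mul]
  have h1 : padicNorm p ((-1 : ℚ) ^ m) = 1 := by
    rcases neg_one_pow_eq_or ℚ m with h | h <;> rw [h]
    · simp
    · rw [padicNorm.neg, padicNorm.one]
  have h2 : padicNorm p ((x ^ (m + 1))⁻¹) = ((padicNorm p x)⁻¹) ^ (m + 1) := by
    have h3 : ∀ k : ℕ, padicNorm p (x ^ k) = (padicNorm p x) ^ k := by
      intro k
      induction k with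
      | zero => simp
      | succ k ih => rw [pow_succ, padicNorm.mul, ih, pow_succ]
    rw [inv_eq_one_div, padicNorm.div, padicNorm.one, h3, one_div, inv_pow]
  rw [h1, h2, one_mul, pow_succ, mul_comm]
  apply mul_le_mul_of_nonneg_left _ (by positivity)
  exact pow_le_pow_left₀ (by positivity) hinv m

omit hp in
lemma prod_inv_ps {ι : Type*} (s : Finset ι) (f : ι → PowerSeries ℚ) :
    (∏ i ∈ s, f i)⁻¹ = ∏ i ∈ s, (f i)⁻¹ := by
  classical
  induction s using Finset.induction_on with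
  | empty => simp
  | insert a s ha ih =>
    rw [Finset.prod_insert ha, Finset.prod_insert ha, PowerSeries.mul_inv_rev, ih, mul_comm]

/-! ### Congruences -/

/-- `G` and `H` are bounded by `A` and congruent modulo `p` at this level. -/
def Cg (p : ℕ) (G H : PowerSeries ℚ) (A : ℚ) : Prop :=
  GB p G A p ∧ GB p H A p ∧ GB p (G - H) (A / p) p

lemma Cg.mul {G H G' H' : PowerSeries ℚ} {A A' : ℚ} (h : Cg p G H A) (h' : Cg p G' H' A') :
    Cg p (G * G') (H * H') (A * A') := by
  refine ⟨h.1.mul h'.1, h.2.1.mul h'.2.1, ?_⟩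
  have e : G * G' - H * H' = (G - H) * G' + H * (G' - H') := by ring
  rw [e]
  apply GB.add
  · have := h.2.2.mul h'.1
    rwa [div_mul_eq_mul_div] at this
  · have := h.2.1.mul h'.2.2
    rwa [← mul_div_assoc] at this

lemma Cg.refl {G : PowerSeries ℚ} {A : ℚ} (h : GB p G A p) : Cg p G G A := by
  refine ⟨h, h, ?_⟩
  rw [sub_self]
  intro m
  rw [map_zero, padicNorm.zero]
  have := h.nonneg
  positivity

lemma Cg.symm {G H : PowerSeries ℚ} {A : ℚ} (h : Cg p G H A) : Cg p H G A := by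
  refine ⟨h.2.1, h.1, ?_⟩
  have := h.2.2.neg
  rwa [neg_sub] at this

lemma Cg.prod {ι : Type*} (s : Finset ι) (f g : ι → PowerSeries ℚ) (A : ι → ℚ)
    (h : ∀ i ∈ s, Cg p (f i) (g i) (A i)) : Cg p (∏ i ∈ s, f i) (∏ i ∈ s, g i) (∏ i ∈ s, A i) := by
  classical
  induction s using Finset.induction_on with
  | empty => simpa using Cg.refl (GB.one (by positivity))
  | insert a s ha ih =>
    rw [Finset.prod_insert ha, Finset.prod_insert ha, Finset.prod_insert ha]
    exact (h a (Finset.mem_insert_self _ _)).mul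
      (ih (fun i hi => h i (Finset.mem_insert_of_mem hi)))

lemma Cg.inv {G H : PowerSeries ℚ} (h : Cg p G H 1) (hG0 : constantCoeff G ≠ 0)
    (hH0 : constantCoeff H ≠ 0)
    (hG : GB p G⁻¹ 1 p) (hH : GB p H⁻¹ 1 p) : Cg p G⁻¹ H⁻¹ 1 := by
  refine ⟨hG, hH, ?_⟩
  have e : G⁻¹ - H⁻¹ = -((G - H) * (G⁻¹ * H⁻¹)) := by
    have h1 : G * G⁻¹ = 1 := PowerSeries.mul_inv_cancel G hG0
    have h2 : H * H⁻¹ = 1 := PowerSeries.mul_inv_cancel H hH0
    linear_combination H⁻¹ * h1 - G⁻¹ * h2
  rw [e]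
  have := (h.2.2.mul (hG.mul hH)).neg
  simpa using this

end Pool.Agent.OddZeta
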