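import Mathlib
import Pool.Agent.OddZeta.Defs
import Pool.Agent.OddZeta.PadicBasic

set_option autoImplicit false
set_option linter.unusedSectionVars false

/-!
# Valuations of the blocks (Module C, helper75)
-/

open Finset

namespace Pool.Agent.OddZeta

open PowerSeries

variable {p : ℕ} [hp : Fact p.Prime]

lemma prod_zpow_base {ι : Type*} (s : Finset ι) (e : ι → ℤ) (x : ℚ) (hx : x ≠ 0) :
    ∏ i ∈ s, x ^ (e i) = x ^ (∑ i ∈ s, e i) := by
  classical
  induction s using Finset.induction_on with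
  | empty => simp
  | insert a s ha ih =>
    rw [Finset.prod_insert ha, Finset.sum_insert ha, ih, zpow_add₀ hx]

lemma pq_pos : (0 : ℚ) < p := by exact_mod_cast hp.out.pos

lemma pz_pos : (0 : ℤ) < p := by exact_mod_cast hp.out.pos

lemma one_le_pq : (1 : ℚ) ≤ p := by exact_mod_cast hp.out.one_le

/-- norm of a nonzero integer smaller than `p ^ 2` -/
lemma norm_int (z : ℤ) (hz : z ≠ 0) (hlt : |z| < (p : ℤ) ^ 2) :
    padicNorm p (z : ℚ) = if (p : ℤ) ∣ z then (p : ℚ)⁻¹ else 1 := by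
  split_ifs with h
  · obtain ⟨k, rfl⟩ := h
    have hk : ¬ (p : ℤ) ∣ k := by
      rintro ⟨j, rfl⟩
      have hj : j ≠ 0 := by rintro rfl; simp at hz
      have h1 : (1 : ℤ) ≤ |j| := Int.one_le_abs hj
      rw [← mul_assoc, abs_mul, ← sq, abs_of_nonneg (by positivity : (0 : ℤ) ≤ (p : ℤ) ^ 2)] at hlt
      have h2 : (0 : ℤ) < (p : ℤ) ^ 2 := by have := pz_pos (p := p); positivity
      nlinarith
    push_cast
    rw [padicNorm.mul, padicNorm.padicNorm_p_of_prime, (padicNorm.int_eq_one_iff k).2 hk, mul_one]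
  · exact (padicNorm.int_eq_one_iff z).2 h

lemma mem_blk_iff (n h m : ℕ) (hh : h ≤ 83) :
    m ∈ blk n h ↔ (h : ℤ) * n ≤ m ∧ (m : ℤ) ≤ (83 - h : ℤ) * n := by
  unfold blk
  rw [Finset.mem_Icc]
  have h1 : (((83 - h) * n : ℕ) : ℤ) = (83 - h : ℤ) * n := by
    push_cast [Nat.cast_sub hh]
    ring
  rw [← h1]
  constructor
  · rintro ⟨h2, h3⟩
    exact ⟨by exact_mod_cast h2, by exact_mod_cast h3⟩
  · rintro ⟨h2, h3⟩
    exact ⟨by exact_mod_cast h2, by exact_mod_cast h3⟩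

lemma neg_fA_le_iff (n l h : ℕ) (j : ℤ) :
    -fA n l p h ≤ j ↔ (h : ℤ) * n ≤ l + p * j := by
  unfold fA
  rw [neg_le, Int.le_ediv_iff_mul_le pz_pos]
  constructor <;> intro h1 <;> linarith

lemma le_fB_iff (n l h : ℕ) (j : ℤ) :
    j ≤ fB n l p h ↔ (l : ℤ) + p * j ≤ (83 - h : ℤ) * n := by
  unfold fB
  rw [Int.le_ediv_iff_mul_le pz_pos]
  constructor <;> intro h1 <;> linarith

lemma mem_blk_iff_f (n l h : ℕ) (hh : h ≤ 83) :
    l ∈ blk n h ↔ 0 ≤ fA n l p h ∧ 0 ≤ fB n l p h := by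
  rw [mem_blk_iff n h l hh]
  have h1 := neg_fA_le_iff (p := p) n l h 0
  have h2 := le_fB_iff (p := p) n l h 0
  rw [mul_zero, add_zero] at h1 h2
  rw [← h1, ← h2, neg_nonpos]

lemma fA_add_fB (n l h : ℕ) (hh : h ≤ 41) : -1 ≤ fA n l p h + fB n l p h := by
  have h1 : (l : ℤ) - h * n < (fA n l p h + 1) * p := Int.lt_ediv_add_one_mul_self _ pz_pos
  have h2 : (83 - h : ℤ) * n - l < (fB n l p h + 1) * p := Int.lt_ediv_add_one_mul_self _ pz_pos
  have h3 : (0 : ℤ) ≤ (83 - 2 * h : ℤ) * n := by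
    apply mul_nonneg _ (by positivity)
    have : (h : ℤ) ≤ 41 := by exact_mod_cast hh
    linarith
  have h4 : (0 : ℤ) < (fA n l p h + fB n l p h + 2) * p := by
    have : (83 - 2 * h : ℤ) * n = ((l : ℤ) - h * n) + ((83 - h : ℤ) * n - l) := by ring
    nlinarith
  have h5 : 0 < fA n l p h + fB n l p h + 2 := pos_of_mul_pos_left h4 pz_pos.le
  linarith

/-- reparametrisation of the factors divisible by `p` -/
lemma prod_div {M : Type*} [CommMonoid M] (n l h : ℕ) (hh : h ≤ 83) (f : ℤ → M) :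
    ∏ m ∈ ((blk n h).erase l).filter (fun m : ℕ => (p : ℤ) ∣ (m : ℤ) - l), f ((m : ℤ) - l)
      = ∏ j ∈ (Finset.Icc (-fA n l p h) (fB n l p h)).erase 0, f (p * j) := by
  have hpz := pz_pos (p := p)
  refine Finset.prod_bij' (fun m _ => ((m : ℤ) - l) / p) (fun j _ => ((l : ℤ) + p * j).toNat)
    ?_ ?_ ?_ ?_ ?_
  · intro m hm
    rw [Finset.mem_filter, Finset.mem_erase, mem_blk_iff n h m hh] at hm
    obtain ⟨⟨hml, hm1, hm2⟩, k, hk⟩ := hm
    have hk' : ((m : ℤ) - l) / p = k := by rw [hk, Int.mul_ediv_cancel_left _ hpz.ne']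
    rw [hk', Finset.mem_erase, Finset.mem_Icc, neg_fA_le_iff, le_fB_iff]
    refine ⟨?_, by linarith, by linarith⟩
    rintro rfl
    apply hml
    have : (m : ℤ) = l := by linarith
    exact_mod_cast this
  · intro j hj
    rw [Finset.mem_erase, Finset.mem_Icc, neg_fA_le_iff, le_fB_iff] at hj
    obtain ⟨hj0, hj1, hj2⟩ := hj
    have hnn : 0 ≤ (l : ℤ) + p * j := le_trans (by positivity) hj1
    rw [Finset.mem_filter, Finset.mem_erase, mem_blk_iff n h _ hh, Int.toNat_of_nonneg hnn]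
    refine ⟨⟨?_, hj1, hj2⟩, ⟨j, by ring⟩⟩
    intro hc
    have h1 : (l : ℤ) + p * j = l := by
      rw [← Int.toNat_of_nonneg hnn]
      exact_mod_cast hc
    have h2 : (p : ℤ) * j = 0 := by linarith
    rcases mul_eq_zero.1 h2 with h3 | h3
    · exact hpz.ne' h3
    · exact hj0 h3
  · intro m hm
    rw [Finset.mem_filter] at hm
    obtain ⟨_, k, hk⟩ := hm
    rw [hk, Int.mul_ediv_cancel_left _ hpz.ne', ← hk]
    have : (l : ℤ) + (m - l) = m := by ring
    rw [this, Int.toNat_natCast]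
  · intro j hj
    rw [Finset.mem_erase, Finset.mem_Icc, neg_fA_le_iff, le_fB_iff] at hj
    obtain ⟨hj0, hj1, hj2⟩ := hj
    have hnn : 0 ≤ (l : ℤ) + p * j := le_trans (by positivity) hj1
    rw [Int.toNat_of_nonneg hnn]
    have : (l : ℤ) + p * j - l = p * j := by ring
    rw [this, Int.mul_ediv_cancel_left _ hpz.ne']
  · intro m hm
    rw [Finset.mem_filter] at hm
    obtain ⟨_, k, hk⟩ := hm
    rw [hk, Int.mul_ediv_cancel_left _ hpz.ne']

lemma card_div (n l h : ℕ) (hh : h ≤ 41) :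
    ((((blk n h).erase l).filter (fun m : ℕ => (p : ℤ) ∣ (m : ℤ) - l)).card : ℤ) = cnt n l p h := by
  have h1 : (((blk n h).erase l).filter (fun m : ℕ => (p : ℤ) ∣ (m : ℤ) - l)).card
      = ((Finset.Icc (-fA n l p h) (fB n l p h)).erase 0).card := by
    have := prod_div (p := p) (M := Multiplicative ℕ) n l h (by omega) (fun _ => Multiplicative.ofAdd 1)
    rw [Finset.prod_const, Finset.prod_const, ← ofAdd_nsmul, ← ofAdd_nsmul] at this
    simpa using Multiplicative.ofAdd.injective this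
  rw [h1]
  have h2 := fA_add_fB (p := p) n l h hh
  unfold cnt
  by_cases hl : l ∈ blk n h
  · rw [if_pos hl]
    rw [mem_blk_iff_f (p := p) n l h (by omega)] at hl
    rw [Finset.card_erase_of_mem (by rw [Finset.mem_Icc]; omega), Int.card_Icc]
    omega
  · rw [if_neg hl]
    rw [mem_blk_iff_f (p := p) n l h (by omega)] at hl
    rw [Finset.erase_eq_of_notMem (by rw [Finset.mem_Icc]; omega), Int.card_Icc]
    omega

/-- all differences in the blocks are small -/
lemma abs_sub_lt (n l h m : ℕ) (hh : h ≤ 83) (hl : l ≤ 83 * n) (hpn : 83 * n < p ^ 2)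
    (hm : m ∈ blk n h) : |(m : ℤ) - l| < (p : ℤ) ^ 2 := by
  rw [mem_blk_iff n h m hh] at hm
  have h1 : ((83 - h : ℤ)) * n ≤ 83 * n := by nlinarith [Int.natCast_nonneg n, Int.natCast_nonneg h]
  have h2 : (l : ℤ) ≤ 83 * n := by exact_mod_cast hl
  have h3 : (83 * n : ℤ) < (p : ℤ) ^ 2 := by exact_mod_cast hpn
  have h4 : (0 : ℤ) ≤ (m : ℤ) := Int.natCast_nonneg m
  have h5 : (0 : ℤ) ≤ (l : ℤ) := Int.natCast_nonneg l
  rw [abs_lt]
  constructor <;> linarith

lemma norm_sub (n l h m : ℕ) (hh : h ≤ 83) (hl : l ≤ 83 * n) (hpn : 83 * n < p ^ 2)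
    (hm : m ∈ (blk n h).erase l) :
    padicNorm p ((m : ℚ) - l) = if (p : ℤ) ∣ (m : ℤ) - l then (p : ℚ)⁻¹ else 1 := by
  rw [Finset.mem_erase] at hm
  have h1 : (m : ℤ) - l ≠ 0 := by
    intro hc
    apply hm.1
    have : (m : ℤ) = l := by linarith
    exact_mod_cast this
  have h2 := norm_int ((m : ℤ) - l) h1 (abs_sub_lt n l h m hh hl hpn hm.2)
  push_cast at h2
  exact h2

lemma prod_norm_sub (n l h : ℕ) (hh : h ≤ 41) (hl : l ≤ 83 * n) (hpn : 83 * n < p ^ 2) :
    ∏ m ∈ (blk n h).erase l, padicNorm p ((m : ℚ) - l) = (p : ℚ) ^ (-cnt n l p h) := by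
  rw [Finset.prod_congr rfl (fun m hm => norm_sub n l h m (by omega) hl hpn hm)]
  rw [Finset.prod_ite, Finset.prod_const, Finset.prod_const_one, mul_one, ← card_div n l h hh,
    inv_pow, zpow_neg, zpow_natCast]

lemma GB_B (n l h : ℕ) (hh : h ≤ 41) (hl : l ≤ 83 * n) (hpn : 83 * n < p ^ 2) :
    GB p (B n h l) ((p : ℚ) ^ (-cnt n l p h)) p := by
  rw [← prod_norm_sub n l h hh hl hpn]
  unfold B
  apply GB.prod _ _ _ (pq_pos (p := p)).le
  intro m hm
  apply GB.linX _ (pq_pos (p := p)).le le_rfl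
  rw [norm_sub n l h m (by omega) hl hpn hm]
  split_ifs
  · rw [inv_mul_cancel₀ (pq_pos (p := p)).ne']
  · rw [one_mul]; exact one_le_pq

lemma GB_Binv (n l h : ℕ) (hh : h ≤ 41) (hl : l ≤ 83 * n) (hpn : 83 * n < p ^ 2) :
    GB p ((B n h l)⁻¹) ((p : ℚ) ^ (cnt n l p h)) p := by
  have e : (p : ℚ) ^ (cnt n l p h) = ∏ m ∈ (blk n h).erase l, (padicNorm p ((m : ℚ) - l))⁻¹ := by
    rw [Finset.prod_inv_distrib, prod_norm_sub n l h hh hl hpn, zpow_neg, inv_inv]
  rw [e]
  unfold B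
  rw [prod_inv_ps]
  apply GB.prod _ _ _ (pq_pos (p := p)).le
  intro m hm
  have hm' := Finset.mem_erase.1 hm
  apply GB.linInv
  · intro hc
    apply hm'.1
    have : (m : ℚ) = l := by linarith
    exact_mod_cast this
  · rw [norm_sub n l h m (by omega) hl hpn hm]
    split_ifs
    · rw [inv_mul_cancel₀ (pq_pos (p := p)).ne']
    · rw [one_mul]; exact one_le_pq

lemma norm_factorial (N : ℕ) (hN : N < p ^ 2) :
    padicNorm p ((N.factorial : ℕ) : ℚ) = (p : ℚ) ^ (-((N / p : ℕ) : ℤ)) := by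
  rw [padicNorm.eq_zpow_of_nonzero (by exact_mod_cast N.factorial_ne_zero), padicValRat.of_nat]
  congr 2
  have h1 : Nat.log p N < 2 := by
    apply Nat.log_lt_of_lt_pow' (by norm_num) hN
  have h2 := padicValNat_factorial (p := p) h1
  rw [h2]
  simp

lemma Nl_lt (n h : ℕ) (hpn : 83 * n < p ^ 2) : Nl n h < p ^ 2 := by
  unfold Nl
  have : (83 - 2 * h) * n ≤ 83 * n := Nat.mul_le_mul_right _ (by omega)
  omega

lemma norm_K (n : ℕ) (hpn : 83 * n < p ^ 2) :
    padicNorm p (K n) = (p : ℚ) ^ (-E0 n p) := by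
  have hprod : ∀ s : Finset ℕ, padicNorm p (∏ h ∈ s, ((Nl n h).factorial : ℚ))
      = (p : ℚ) ^ (-∑ h ∈ s, ((Nl n h / p : ℕ) : ℤ)) := by
    intro s
    rw [← Finset.sum_neg_distrib, ← prod_zpow_base _ _ _ (pq_pos (p := p)).ne']
    classical
    induction s using Finset.induction_on with
    | empty => simp
    | insert a s ha ih =>
      rw [Finset.prod_insert ha, Finset.prod_insert ha, padicNorm.mul, ih,
        norm_factorial _ (Nl_lt n a hpn)]
  unfold K E0
  rw [padicNorm.div, hprod, hprod, ← zpow_sub₀ (pq_pos (p := p)).ne']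
  congr 1
  ring

lemma le_41_P (h : ℕ) (hh : h ∈ Pset) : h ≤ 41 := by
  simp only [Pset, Finset.mem_Icc] at hh; omega

lemma le_41_M (h : ℕ) (hh : h ∈ Mset) : h ≤ 41 := by
  simp only [Mset, Finset.mem_insert, Finset.mem_singleton] at hh; omega

lemma GB_mid (n l : ℕ) {r : ℚ} (hr : 1 ≤ r) :
    GB p (PowerSeries.C (83 * (n : ℚ) - 2 * (l : ℚ)) + 2 * PowerSeries.X) 1 r := by
  have h2 : (2 : PowerSeries ℚ) = PowerSeries.C (2 : ℚ) := (map_ofNat PowerSeries.C 2).symm
  rw [h2]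
  apply GB.lin _ _ (by linarith)
  · have := padicNorm.of_int (p := p) (83 * (n : ℤ) - 2 * (l : ℤ))
    push_cast at this
    exact this
  · rw [one_mul]
    have := padicNorm.of_int (p := p) (2 : ℤ)
    push_cast at this
    linarith

lemma GB_F (n l : ℕ) (hl : l ≤ 83 * n) (hpn : 83 * n < p ^ 2) :
    GB p (F n l) ((p : ℚ) ^ (-V n l p)) p := by
  have hp0 := pq_pos (p := p)
  have e : (p : ℚ) ^ (-V n l p) = (p : ℚ) ^ (-E0 n p) * 1 * (∏ h ∈ Mset, (p : ℚ) ^ (-cnt n l p h))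
      * (∏ h ∈ Pset, (p : ℚ) ^ (cnt n l p h)) := by
    rw [prod_zpow_base _ _ _ hp0.ne', prod_zpow_base _ _ _ hp0.ne', mul_one, ← zpow_add₀ hp0.ne',
      ← zpow_add₀ hp0.ne']
    congr 1
    unfold V E0
    rw [Finset.sum_sub_distrib, Finset.sum_sub_distrib, Finset.sum_neg_distrib]
    ring
  rw [e]
  unfold F
  rw [prod_inv_ps]
  apply GB.mul
  · apply GB.mul
    · apply GB.mul
      · rw [← norm_K n hpn]
        exact GB.C _ hp0.le
      · exact GB_mid n l one_le_pq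
    · apply GB.prod _ _ _ hp0.le
      intro h hh
      exact GB_B n l h (le_41_M h hh) hl hpn
  · apply GB.prod _ _ _ hp0.le
    intro h hh
    exact GB_Binv n l h (le_41_P h hh) hl hpn

/-- bound for the expansion coefficients -/
lemma norm_a_le (n l i : ℕ) (hl : l ≤ 83 * n) (hpn : 83 * n < p ^ 2) :
    padicNorm p (a n l i) ≤ (p : ℚ) ^ (ord n l - V n l p - i) := by
  have hp0 := pq_pos (p := p)
  unfold a
  split_ifs with h
  · refine (GB_F n l hl hpn _).trans (le_of_eq ?_)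
    rw [← zpow_natCast, ← zpow_add₀ hp0.ne']
    congr 1
    have : (((ord n l - i).toNat : ℕ) : ℤ) = ord n l - i := Int.toNat_of_nonneg (by linarith)
    rw [this]
    ring
  · rw [padicNorm.zero]; positivity

end Pool.Agent.OddZeta
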