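import Mathlib
import Pool.Agent.OddZeta.Defs
import Pool.Agent.OddZeta.PadicBasic
import Pool.Agent.OddZeta.PadicC1

set_option autoImplicit false
set_option linter.unusedSectionVars false

/-!
# Local bounds and the pairing (Module C, helper75)
-/

open Finset

namespace Pool.Agent.OddZeta

open PowerSeries

variable {p : ℕ} [hp : Fact p.Prime]

/-! ### Harmonic numbers -/

lemma norm_pow_q (x : ℚ) (k : ℕ) : padicNorm p (x ^ k) = (padicNorm p x) ^ k := by
  induction k with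
  | zero => simp
  | succ k ih => rw [pow_succ, padicNorm.mul, ih, pow_succ]

lemma norm_inv_pow_le (m s : ℕ) (hm0 : 0 < m) (hm : m < p ^ 2) :
    padicNorm p (1 / (m : ℚ) ^ s) ≤ (p : ℚ) ^ s := by
  have hp0 := pq_pos (p := p)
  rw [padicNorm.div, padicNorm.one, norm_pow_q, one_div]
  have h1 := norm_int (p := p) (m : ℤ) (by exact_mod_cast hm0.ne')
    (by rw [abs_of_nonneg (by positivity)]; exact_mod_cast hm)
  push_cast at h1
  rw [h1]
  split_ifs
  · rw [inv_pow, inv_inv]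
  · rw [one_pow, inv_one]
    exact one_le_pow₀ one_le_pq

lemma norm_inv_pow_eq (m s : ℕ) (hm : ¬ p ∣ m) :
    padicNorm p (1 / (m : ℚ) ^ s) = 1 := by
  rw [padicNorm.div, padicNorm.one, norm_pow_q, (padicNorm.nat_eq_one_iff m).2 hm, one_pow, one_div,
    inv_one]

lemma Hs_le (s M : ℕ) (hM : M < p ^ 2) : padicNorm p (Hs s M) ≤ (p : ℚ) ^ s := by
  have hp0 := pq_pos (p := p)
  unfold Hs
  apply padicNorm.sum_le'
  · intro m hm
    rw [Finset.mem_Icc] at hm
    exact norm_inv_pow_le m s (by omega) (by omega)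
  · positivity

lemma Hs_sub_le (s M M' : ℕ) (hMM : M ≤ M') (h : M / p = M' / p) :
    padicNorm p (Hs s M' - Hs s M) ≤ 1 := by
  have e : Hs s M' - Hs s M = ∑ m ∈ Finset.Ioc M M', 1 / (m : ℚ) ^ s := by
    unfold Hs
    have h1 : Finset.Icc 1 M' = Finset.Icc 1 M ∪ Finset.Ioc M M' := by
      ext x; simp only [Finset.mem_union, Finset.mem_Icc, Finset.mem_Ioc]; omega
    rw [h1, Finset.sum_union (by
      rw [Finset.disjoint_left]; intro x hx hx'
      rw [Finset.mem_Icc] at hx; rw [Finset.mem_Ioc] at hx'; omega)]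
    ring
  rw [e]
  apply padicNorm.sum_le' _ zero_le_one
  intro m hm
  rw [Finset.mem_Ioc] at hm
  apply le_of_eq
  apply norm_inv_pow_eq
  rintro ⟨k, rfl⟩
  have hp0 := hp.out.pos
  have h1 : M / p < k := by
    rw [Nat.div_lt_iff_lt_mul hp0]; rw [mul_comm]; exact hm.1
  have h2 : k ≤ M' / p := by
    rw [Nat.le_div_iff_mul_le hp0]; rw [mul_comm]; exact hm.2
  omega

lemma Hs_sub_le' (s M M' : ℕ) (h : M / p = M' / p) :
    padicNorm p (Hs s M' - Hs s M) ≤ 1 := by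
  rcases le_total M M' with h1 | h1
  · exact Hs_sub_le s M M' h1 h
  · have := Hs_sub_le s M' M h1 h.symm
    rw [← padicNorm.neg, neg_sub]
    exact this

lemma Hs_le_one (s M : ℕ) (hM : M < p) : padicNorm p (Hs s M) ≤ 1 := by
  have := Hs_sub_le' (p := p) s 0 M (by rw [Nat.div_eq_of_lt hM, Nat.zero_div])
  simpa [Hs] using this

/-! ### Local bounds -/

lemma poles_le (n l : ℕ) (hl : l ∈ poles n) : l ≤ 83 * n := by
  unfold poles at hl
  rw [Finset.mem_Icc] at hl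
  omega

lemma GB_B_one (n l h : ℕ) {r : ℚ} (hr : 1 ≤ r) : GB p (B n h l) 1 r := by
  unfold B
  have := GB.prod (p := p) ((blk n h).erase l)
    (fun m : ℕ => PowerSeries.C ((m : ℚ) - (l : ℚ)) + PowerSeries.X) (fun _ => 1)
    (r := r) (by linarith) (fun m _ => GB.linX _ (by linarith) (by
      have := padicNorm.of_int (p := p) ((m : ℤ) - l)
      push_cast at this
      exact this) (by linarith))
  simpa using this

lemma GB_Binv_one (n l h : ℕ) {r : ℚ} (hr : 1 ≤ r)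
    (hu : ∀ m ∈ (blk n h).erase l, ¬ (p : ℤ) ∣ (m : ℤ) - l) : GB p ((B n h l)⁻¹) 1 r := by
  unfold B
  rw [prod_inv_ps]
  have := GB.prod (p := p) ((blk n h).erase l)
    (fun m : ℕ => (PowerSeries.C ((m : ℚ) - (l : ℚ)) + PowerSeries.X)⁻¹) (fun _ => 1)
    (r := r) (by linarith) (fun m hm => by
      have hn : padicNorm p ((m : ℚ) - l) = 1 := by
        have := (padicNorm.int_eq_one_iff (p := p) ((m : ℤ) - l)).2 (hu m hm)
        push_cast at this
        exact this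
      have := GB.linInv (p := p) ((m : ℚ) - l) (r := r) (by
        intro hc
        rw [hc, padicNorm.zero] at hn
        exact zero_ne_one hn) (by rw [hn]; linarith)
      rwa [hn, inv_one] at this)
  simpa using this

lemma GB_F_noP (n l : ℕ) (hpn : 83 * n < p ^ 2)
    (hno : noP n l p) : GB p (F n l) ((p : ℚ) ^ (-E0 n p)) 1 := by
  have e : (p : ℚ) ^ (-E0 n p) = (p : ℚ) ^ (-E0 n p) * 1 * (∏ _h ∈ Mset, (1 : ℚ))
      * (∏ _h ∈ Pset, (1 : ℚ)) := by simp
  rw [e]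
  unfold F
  rw [prod_inv_ps]
  apply GB.mul
  · apply GB.mul
    · apply GB.mul
      · rw [← norm_K n hpn]
        exact GB.C _ zero_le_one
      · exact GB_mid n l le_rfl
    · apply GB.prod _ _ _ zero_le_one
      intro h _
      exact GB_B_one n l h le_rfl
  · apply GB.prod _ _ _ zero_le_one
    intro h hh
    apply GB_Binv_one n l h le_rfl
    have h1 := hno h hh
    have h2 := card_div (p := p) n l h (le_41_P h hh)
    have h3 : (((blk n h).erase l).filter (fun m : ℕ => (p : ℤ) ∣ (m : ℤ) - l)).card = 0 := by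
      have : ((((blk n h).erase l).filter (fun m : ℕ => (p : ℤ) ∣ (m : ℤ) - l)).card : ℤ) ≤ 0 := by
        rw [h2]; exact h1
      have h4 : (0 : ℤ) ≤ ((((blk n h).erase l).filter
        (fun m : ℕ => (p : ℤ) ∣ (m : ℤ) - l)).card : ℤ) := Int.natCast_nonneg _
      exact_mod_cast le_antisymm this h4
    rw [Finset.card_eq_zero, Finset.filter_eq_empty_iff] at h3
    exact fun m hm => h3 hm

lemma norm_a_le_noP (n l i : ℕ) (hpn : 83 * n < p ^ 2) (hno : noP n l p) :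
    padicNorm p (a n l i) ≤ (p : ℚ) ^ (-E0 n p) := by
  have hp0 := pq_pos (p := p)
  unfold a
  split_ifs with h
  · have := GB_F_noP n l hpn hno (ord n l - i).toNat
    rwa [one_pow, mul_one] at this
  · rw [padicNorm.zero]; positivity

lemma norm_term_le (n l i : ℕ) (A B : ℚ) (ha : padicNorm p (a n l i) ≤ A)
    (hH : padicNorm p (Hs (i + 2) (l - 25 * n)) ≤ B) :
    padicNorm p (a n l i * ((i + 1).choose 2 : ℚ) * Hs (i + 2) (l - 25 * n)) ≤ A * B := by
  have hA : 0 ≤ A := (padicNorm.nonneg _).trans ha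
  rw [padicNorm.mul, padicNorm.mul]
  apply mul_le_mul _ hH (padicNorm.nonneg _) hA
  calc padicNorm p (a n l i) * padicNorm p (((i + 1).choose 2 : ℕ) : ℚ)
      ≤ A * 1 := mul_le_mul ha (padicNorm.of_nat _) (padicNorm.nonneg _) hA
    _ = A := mul_one A

lemma zpow_mono_p {a b : ℤ} (h : a ≤ b) : (p : ℚ) ^ a ≤ (p : ℚ) ^ b :=
  zpow_le_zpow_right₀ one_le_pq h

lemma norm_T_le_large (n l : ℕ) (hl : l ≤ 83 * n) (hpn : 83 * n < p ^ 2) :
    padicNorm p (T n l) ≤ (p : ℚ) ^ (ord n l - V n l p + 2) := by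
  have hp0 := pq_pos (p := p)
  unfold T
  rw [padicNorm.neg]
  apply padicNorm.sum_le'
  · intro i hi
    refine (norm_term_le n l i _ _ (norm_a_le n l i hl hpn) (Hs_le (i + 2) _ (by omega))).trans ?_
    rw [← zpow_natCast, ← zpow_add₀ hp0.ne']
    apply zpow_mono_p
    push_cast
    linarith
  · positivity

lemma norm_T_le_small (n l : ℕ) (hl : l ≤ 83 * n) (hpn : 83 * n < p ^ 2) (hs : l - 25 * n < p) :
    padicNorm p (T n l) ≤ (p : ℚ) ^ (ord n l - V n l p - 1) := by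
  have hp0 := pq_pos (p := p)
  unfold T
  rw [padicNorm.neg]
  apply padicNorm.sum_le'
  · intro i hi
    rw [Finset.mem_Icc] at hi
    refine (norm_term_le n l i _ _ (norm_a_le n l i hl hpn) (Hs_le_one (i + 2) _ hs)).trans ?_
    rw [mul_one]
    apply zpow_mono_p
    have : (1 : ℤ) ≤ i := by exact_mod_cast hi.1
    linarith
  · positivity

lemma norm_T_le_noP (n l : ℕ) (hpn : 83 * n < p ^ 2) (hs : l - 25 * n < p)
    (hno : noP n l p) : padicNorm p (T n l) ≤ (p : ℚ) ^ (-E0 n p) := by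
  have hp0 := pq_pos (p := p)
  unfold T
  rw [padicNorm.neg]
  apply padicNorm.sum_le'
  · intro i _
    refine (norm_term_le n l i _ _ (norm_a_le_noP n l i hpn hno) (Hs_le_one (i + 2) _ hs)).trans ?_
    rw [mul_one]
  · positivity

/-! ### The pairing -/

/-- `c` at `l` -/
def cc (n l p : ℕ) : ℤ := fA n l p 0 - fB n l p 0

/-- the partner of `l` -/
def tau (n p l : ℕ) : ℕ := (83 * (n : ℤ) + cc n l p * p - l).toNat

lemma selfP_eq {n l : ℕ} (h : selfP n l p) {k : ℕ} (hk : k ∈ Pset ∪ Mset) :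
    fA n l p k - fB n l p k = cc n l p := h k hk

lemma tau_cast (n l : ℕ) (hl : l ∈ poles n) (h : selfP n l p) :
    ((tau n p l : ℕ) : ℤ) = 83 * (n : ℤ) + cc n l p * p - l := by
  unfold tau
  apply Int.toNat_of_nonneg
  have h28 := selfP_eq h (k := 28) (by decide)
  unfold poles at hl
  rw [Finset.mem_Icc] at hl
  have h1 : fB n l p 28 * p ≤ (83 - 28 : ℤ) * n - l := by
    unfold fB
    push_cast
    exact Int.ediv_mul_le _ pz_pos.ne'
  have h2 : 0 ≤ fA n l p 28 := by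
    unfold fA
    apply Int.ediv_nonneg _ pz_pos.le
    have : (28 * n : ℤ) ≤ l := by exact_mod_cast hl.1
    push_cast
    linarith
  have h3 : 0 ≤ fA n l p 28 * p := mul_nonneg h2 pz_pos.le
  have h4 : fA n l p 28 * p = fB n l p 28 * p + cc n l p * p := by rw [← h28]; ring
  have h5 : (0 : ℤ) ≤ n := Int.natCast_nonneg n
  linarith

lemma f_pair (n l l' h : ℕ) (c : ℤ) (hl' : (l' : ℤ) = 83 * (n : ℤ) + c * p - l)
    (hc : fA n l p h - fB n l p h = c) :
    fA n l' p h = fA n l p h ∧ fB n l' p h = fB n l p h := by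
  have hpz := pz_pos (p := p)
  constructor
  · have e : (l' : ℤ) - h * n = ((83 - h : ℤ) * n - l) + c * p := by rw [hl']; ring
    have : fA n l' p h = fB n l p h + c := by
      unfold fA fB
      rw [e, Int.add_mul_ediv_right _ _ hpz.ne']
    rw [this, ← hc]; ring
  · have e : (83 - h : ℤ) * n - l' = ((l : ℤ) - h * n) + (-c) * p := by rw [hl']; ring
    have : fB n l' p h = fA n l p h + (-c) := by
      unfold fB fA
      rw [e, Int.add_mul_ediv_right _ _ hpz.ne']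
    rw [this, ← hc]; ring

/-- a convenient package: `l'` is the partner of `l` -/
structure Pair (n p l l' : ℕ) : Prop where
  cast : (l' : ℤ) = 83 * (n : ℤ) + cc n l p * p - l
  fA : ∀ h ∈ Pset ∪ Mset, OddZeta.fA n l' p h = OddZeta.fA n l p h
  fB : ∀ h ∈ Pset ∪ Mset, OddZeta.fB n l' p h = OddZeta.fB n l p h
  diff : ∀ h ∈ Pset ∪ Mset, OddZeta.fA n l p h - OddZeta.fB n l p h = cc n l p

lemma pair_tau (n l : ℕ) (hl : l ∈ poles n) (h : selfP n l p) : Pair n p l (tau n p l) :=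
  ⟨tau_cast n l hl h, fun k hk => (f_pair n l _ k _ (tau_cast n l hl h) (selfP_eq h hk)).1,
    fun k hk => (f_pair n l _ k _ (tau_cast n l hl h) (selfP_eq h hk)).2,
    fun _ hk => selfP_eq h hk⟩

lemma le_83 {h : ℕ} (hh : h ∈ Pset ∪ Mset) : h ≤ 41 := by
  rcases Finset.mem_union.1 hh with h1 | h1
  · exact le_41_P h h1
  · exact le_41_M h h1

lemma Pair.blk {n l l' : ℕ} (P : Pair n p l l') {h : ℕ} (hh : h ∈ Pset ∪ Mset) :
    l' ∈ blk n h ↔ l ∈ blk n h := by
  rw [mem_blk_iff_f (p := p) n l' h (by have := le_83 hh; omega),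
    mem_blk_iff_f (p := p) n l h (by have := le_83 hh; omega), P.fA h hh, P.fB h hh]

lemma Pair.ord {n l l' : ℕ} (P : Pair n p l l') : OddZeta.ord n l' = OddZeta.ord n l := by
  unfold OddZeta.ord
  rw [Finset.filter_congr (fun h hh => P.blk (Finset.mem_union_left _ hh)),
    Finset.filter_congr (fun h hh => P.blk (Finset.mem_union_right _ hh))]

lemma Pair.cnt {n l l' : ℕ} (P : Pair n p l l') {h : ℕ} (hh : h ∈ Pset ∪ Mset) :
    OddZeta.cnt n l' p h = OddZeta.cnt n l p h := by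
  unfold OddZeta.cnt
  rw [P.fA h hh, P.fB h hh]
  simp only [P.blk hh]

lemma Pair.V {n l l' : ℕ} (P : Pair n p l l') : OddZeta.V n l' p = OddZeta.V n l p := by
  unfold OddZeta.V
  rw [Finset.sum_congr rfl (fun h hh => by rw [P.cnt (Finset.mem_union_left _ hh)]),
    Finset.sum_congr (s₁ := Mset) rfl (fun h hh => by rw [P.cnt (Finset.mem_union_right _ hh)])]

/-- the nondivisible part -/
def Ub (p n h l : ℕ) : Finset ℕ := ((blk n h).erase l).filter (fun m : ℕ => ¬ (p : ℤ) ∣ (m : ℤ) - l)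

lemma mem_Ub {n h l m : ℕ} : m ∈ Ub p n h l ↔ m ∈ blk n h ∧ ¬ (p : ℤ) ∣ (m : ℤ) - l := by
  unfold Ub
  rw [Finset.mem_filter, Finset.mem_erase]
  constructor
  · rintro ⟨⟨_, h1⟩, h2⟩; exact ⟨h1, h2⟩
  · rintro ⟨h1, h2⟩
    refine ⟨⟨?_, h1⟩, h2⟩
    rintro rfl
    apply h2
    simp

lemma card_Ub (n l h : ℕ) (hh : h ≤ 41) :
    ((Ub p n h l).card : ℤ) = (83 - 2 * h : ℤ) * n - fA n l p h - fB n l p h := by
  have h1 := Finset.card_filter_add_card_filter_not (s := (blk n h).erase l)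
    (fun m : ℕ => (p : ℤ) ∣ (m : ℤ) - l)
  have h2 := card_div (p := p) n l h hh
  have h3 : (((blk n h).erase l).card : ℤ) = (83 - 2 * h : ℤ) * n + (if l ∈ blk n h then 0 else 1) := by
    have h4 : ((blk n h).card : ℤ) = (83 - 2 * h : ℤ) * n + 1 := by
      unfold OddZeta.blk
      rw [Nat.card_Icc]
      have h5 : h * n ≤ (83 - h) * n := Nat.mul_le_mul_right _ (by omega)
      push_cast [Nat.cast_sub (show h * n ≤ (83 - h) * n + 1 by omega), Nat.cast_sub (show h ≤ 83 by omega)]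
      ring
    split_ifs with hl
    · rw [Finset.card_erase_of_mem hl, Nat.cast_sub (Finset.card_pos.2 ⟨l, hl⟩), h4]
      push_cast; ring
    · rw [Finset.erase_eq_of_notMem hl, h4]
  have h6 : (((Finset.filter (fun m : ℕ => (p : ℤ) ∣ (m : ℤ) - l) ((blk n h).erase l)).card : ℤ)
      + ((Ub p n h l).card : ℤ)) = (((blk n h).erase l).card : ℤ) := by
    rw [← h1, Nat.cast_add]
    rfl
  rw [h2, h3] at h6
  unfold OddZeta.cnt at h6
  linarith

lemma B_split (n h l : ℕ) (hh : h ≤ 83) :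
    B n h l = (∏ j ∈ (Finset.Icc (-fA n l p h) (fB n l p h)).erase 0,
        (PowerSeries.C (((p * j : ℤ)) : ℚ) + X))
      * ∏ m ∈ Ub p n h l, (PowerSeries.C ((m : ℚ) - (l : ℚ)) + X) := by
  unfold B
  rw [← Finset.prod_filter_mul_prod_filter_not ((blk n h).erase l)
    (fun m : ℕ => (p : ℤ) ∣ (m : ℤ) - l)]
  rw [← prod_div (p := p) n l h hh (fun z : ℤ => (PowerSeries.C ((z : ℤ) : ℚ) + X : PowerSeries ℚ))]
  congr 1
  refine Finset.prod_congr rfl (fun m _ => ?_)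
  push_cast
  rfl

lemma Ub_prod_pair {n l l' : ℕ} (P : Pair n p l l') {h : ℕ} (hh : h ∈ Pset ∪ Mset)
    (f : ℤ → PowerSeries ℚ) :
    ∏ m ∈ Ub p n h l', f ((m : ℤ) - l') = ∏ m ∈ Ub p n h l, f (-((m : ℤ) - l) - cc n l p * p) := by
  have h83 : h ≤ 83 := by have := le_83 hh; omega
  have hle : ∀ m ∈ OddZeta.blk n h, m ≤ 83 * n := by
    intro m hm
    unfold OddZeta.blk at hm
    rw [Finset.mem_Icc] at hm
    have : (83 - h) * n ≤ 83 * n := Nat.mul_le_mul_right _ (by omega)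
    omega
  have hmap : ∀ l₁ l₂ : ℕ, ∀ c : ℤ, (l₂ : ℤ) = 83 * (n : ℤ) + c * p - l₁ → ∀ m ∈ Ub p n h l₁,
      83 * n - m ∈ Ub p n h l₂ := by
    intro l₁ l₂ c hc m hm
    rw [mem_Ub] at hm ⊢
    have hm83 := hle m hm.1
    rw [mem_blk_iff n h _ h83] at hm ⊢
    push_cast [Nat.cast_sub hm83]
    refine ⟨⟨by linarith [hm.1.1, hm.1.2], by linarith [hm.1.1, hm.1.2]⟩, ?_⟩
    rintro ⟨k, hk⟩
    apply hm.2
    refine ⟨-k - c, ?_⟩
    rw [hc] at hk
    linarith
  have hc' : (l : ℤ) = 83 * (n : ℤ) + cc n l p * p - l' := by have := P.cast; linarith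
  refine Finset.prod_bij' (fun m _ => 83 * n - m) (fun m _ => 83 * n - m) ?_ ?_ ?_ ?_ ?_
  · intro m hm; exact hmap l' l _ hc' m hm
  · intro m hm; exact hmap l l' _ P.cast m hm
  · intro m hm
    have := hle m (mem_Ub.1 hm).1
    omega
  · intro m hm
    have := hle m (mem_Ub.1 hm).1
    omega
  · intro m hm
    have h1 := hle m (mem_Ub.1 hm).1
    congr 1
    push_cast [Nat.cast_sub h1]
    have := P.cast
    linarith

lemma norm_neg_one_C_ne : (PowerSeries.C (-1 : ℚ) : PowerSeries ℚ) * PowerSeries.C (-1) = 1 := by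
  rw [← map_mul]; norm_num

/-- congruence of a nondivisible factor with its partner -/
lemma Cg_factor (x : ℤ) (c : ℤ) :
    Cg p (PowerSeries.C ((-x - c * p : ℤ) : ℚ) + X)
      (PowerSeries.C (-1) * (PowerSeries.C (x : ℚ) + X)) 1 := by
  have hp0 := pq_pos (p := p)
  refine ⟨?_, ?_, ?_⟩
  · apply GB.linX _ hp0.le (padicNorm.of_int _)
    rw [one_mul]; exact one_le_pq
  · have h1 : (PowerSeries.C (-1) * (PowerSeries.C (x : ℚ) + X) : PowerSeries ℚ)
        = PowerSeries.C (((-x : ℤ)) : ℚ) + PowerSeries.C (-1) * X := by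
      push_cast
      rw [mul_add, ← map_mul]
      congr 2
      ring
    rw [h1]
    apply GB.lin _ _ hp0.le (padicNorm.of_int _)
    rw [one_mul, padicNorm.neg, padicNorm.one]; exact one_le_pq
  · have h1 : (PowerSeries.C ((-x - c * p : ℤ) : ℚ) + X)
        - (PowerSeries.C (-1) * (PowerSeries.C (x : ℚ) + X) : PowerSeries ℚ)
        = PowerSeries.C ((((-c) * p : ℤ)) : ℚ) + PowerSeries.C 2 * X := by
      have h2 : (PowerSeries.C ((-x - c * p : ℤ) : ℚ) : PowerSeries ℚ)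
          = PowerSeries.C ((((-c) * p : ℤ)) : ℚ) - PowerSeries.C (x : ℚ) := by
        rw [← map_sub]; congr 1; push_cast; ring
      have h3 : (PowerSeries.C (-1 : ℚ) : PowerSeries ℚ) = -1 := by rw [map_neg, map_one]
      have h4 : (PowerSeries.C (2 : ℚ) : PowerSeries ℚ) = 2 := map_ofNat PowerSeries.C 2
      rw [h2, h3, h4]
      ring
    rw [h1]
    apply GB.lin _ _ hp0.le
    · push_cast
      rw [padicNorm.mul, padicNorm.padicNorm_p_of_prime]
      have := padicNorm.of_int (p := p) (-c)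
      push_cast at this
      calc padicNorm p (-(c : ℚ)) * (p : ℚ)⁻¹ ≤ 1 * (p : ℚ)⁻¹ :=
            mul_le_mul_of_nonneg_right this (by positivity)
        _ = 1 / p := by ring
    · rw [div_mul_cancel₀ _ hp0.ne']
      have := padicNorm.of_int (p := p) 2
      push_cast at this
      exact this

lemma norm_unit (x : ℤ) (hx : ¬ (p : ℤ) ∣ x) : padicNorm p (x : ℚ) = 1 :=
  (padicNorm.int_eq_one_iff x).2 hx

lemma Cg_factor_inv (x : ℤ) (c : ℤ) (hx : ¬ (p : ℤ) ∣ x) :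
    Cg p ((PowerSeries.C ((-x - c * p : ℤ) : ℚ) + X)⁻¹)
      (PowerSeries.C (-1) * (PowerSeries.C (x : ℚ) + X)⁻¹) 1 := by
  have hp1 := one_le_pq (p := p)
  have hx' : ¬ (p : ℤ) ∣ (-x - c * p) := by
    rintro ⟨k, hk⟩
    exact hx ⟨-k - c, by linarith⟩
  have e : (PowerSeries.C (-1) * (PowerSeries.C (x : ℚ) + X) : PowerSeries ℚ)⁻¹
      = PowerSeries.C (-1) * (PowerSeries.C (x : ℚ) + X)⁻¹ := by
    rw [PowerSeries.mul_inv_rev, PowerSeries.C_inv, mul_comm]
    norm_num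
  have h1 := norm_unit x hx
  have h2 := norm_unit _ hx'
  have hx0 : (x : ℚ) ≠ 0 := by
    intro h; rw [h, padicNorm.zero] at h1; exact zero_ne_one h1
  have hx0' : (((-x - c * p : ℤ)) : ℚ) ≠ 0 := by
    intro h; rw [h, padicNorm.zero] at h2; exact zero_ne_one h2
  have g1 : GB p ((PowerSeries.C ((-x - c * p : ℤ) : ℚ) + X)⁻¹) 1 p := by
    have := GB.linInv (p := p) (((-x - c * p : ℤ)) : ℚ) (r := p) hx0' (by rw [h2]; linarith)
    rwa [h2, inv_one] at this
  have g2 : GB p ((PowerSeries.C (x : ℚ) + X)⁻¹) 1 p := by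
    have := GB.linInv (p := p) (x : ℚ) (r := p) hx0 (by rw [h1]; linarith)
    rwa [h1, inv_one] at this
  have g3 : GB p (PowerSeries.C (-1) * (PowerSeries.C (x : ℚ) + X)⁻¹) 1 p := by
    have := (GB.C (p := p) (-1) (r := p) (by linarith)).mul g2
    rwa [padicNorm.neg, padicNorm.one, one_mul] at this
  rw [← e]
  apply Cg.inv (Cg_factor x c)
  · simpa using hx0'
  · simpa using hx0
  · exact g1
  · rw [e]; exact g3

lemma GB_D (n l h : ℕ) (hh : h ≤ 41) (hl : l ≤ 83 * n) (hpn : 83 * n < p ^ 2) :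
    GB p (∏ j ∈ (Finset.Icc (-fA n l p h) (fB n l p h)).erase 0,
        (PowerSeries.C (((p * j : ℤ)) : ℚ) + X)) ((p : ℚ) ^ (-cnt n l p h)) p
    ∧ GB p ((∏ j ∈ (Finset.Icc (-fA n l p h) (fB n l p h)).erase 0,
        (PowerSeries.C (((p * j : ℤ)) : ℚ) + X))⁻¹) ((p : ℚ) ^ (cnt n l p h)) p := by
  have hp0 := pq_pos (p := p)
  rw [← prod_div (p := p) n l h (by omega)
    (fun z : ℤ => (PowerSeries.C ((z : ℤ) : ℚ) + X : PowerSeries ℚ))]
  have hcard := card_div (p := p) n l h hh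
  have hnorm : ∀ m ∈ ((blk n h).erase l).filter (fun m : ℕ => (p : ℤ) ∣ (m : ℤ) - l),
      padicNorm p ((((m : ℤ) - l : ℤ)) : ℚ) = (p : ℚ)⁻¹ := by
    intro m hm
    rw [Finset.mem_filter] at hm
    have := norm_sub n l h m (by omega) hl hpn hm.1
    rw [if_pos hm.2] at this
    push_cast
    exact this
  constructor
  · have e : (p : ℚ) ^ (-cnt n l p h)
        = ∏ _m ∈ ((blk n h).erase l).filter (fun m : ℕ => (p : ℤ) ∣ (m : ℤ) - l), (p : ℚ)⁻¹ := by
      rw [Finset.prod_const, ← hcard, inv_pow, zpow_neg, zpow_natCast]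
    rw [e]
    apply GB.prod _ _ _ hp0.le
    intro m hm
    apply GB.linX _ hp0.le (hnorm m hm).le
    rw [inv_mul_cancel₀ hp0.ne']
  · have e : (p : ℚ) ^ (cnt n l p h)
        = ∏ _m ∈ ((blk n h).erase l).filter (fun m : ℕ => (p : ℤ) ∣ (m : ℤ) - l), (p : ℚ) := by
      rw [Finset.prod_const, ← hcard, zpow_natCast]
    rw [e, prod_inv_ps]
    apply GB.prod _ _ _ hp0.le
    intro m hm
    have h1 := hnorm m hm
    have := GB.linInv (p := p) ((((m : ℤ) - l : ℤ)) : ℚ) (r := p) (by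
      intro hc
      rw [hc, padicNorm.zero] at h1
      have : (0 : ℚ) < (p : ℚ)⁻¹ := by positivity
      linarith) (by rw [h1, inv_mul_cancel₀ hp0.ne'])
    rwa [h1, inv_inv] at this

lemma Cg_B {n l l' : ℕ} (P : Pair n p l l') (hl : l ≤ 83 * n) (hpn : 83 * n < p ^ 2) {h : ℕ}
    (hh : h ∈ Pset ∪ Mset) :
    Cg p (B n h l') (PowerSeries.C (-1) ^ (Ub p n h l).card * B n h l) ((p : ℚ) ^ (-cnt n l p h)) := by
  have h41 := le_83 hh
  rw [B_split (p := p) n h l' (by omega), B_split (p := p) n h l (by omega), P.fA h hh, P.fB h hh]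
  have e1 : ∏ m ∈ Ub p n h l', (PowerSeries.C ((m : ℚ) - (l' : ℚ)) + X : PowerSeries ℚ)
      = ∏ m ∈ Ub p n h l, (PowerSeries.C ((-((m : ℤ) - l) - cc n l p * p : ℤ) : ℚ) + X) := by
    rw [← Ub_prod_pair P hh (fun z : ℤ => (PowerSeries.C ((z : ℤ) : ℚ) + X : PowerSeries ℚ))]
    refine Finset.prod_congr rfl (fun m _ => ?_)
    push_cast
    rfl
  rw [e1]
  have c1 := Cg.refl (GB_D (p := p) n l h h41 hl hpn).1
  have c2 := Cg.prod (p := p) (Ub p n h l)
    (fun m : ℕ => (PowerSeries.C ((-((m : ℤ) - l) - cc n l p * p : ℤ) : ℚ) + X : PowerSeries ℚ))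
    (fun m : ℕ => PowerSeries.C (-1) * (PowerSeries.C ((((m : ℤ) - l : ℤ)) : ℚ) + X)) (fun _ => 1)
    (fun m _ => Cg_factor _ _)
  rw [Finset.prod_const_one] at c2
  have c3 := c1.mul c2
  rw [mul_one] at c3
  have e2 : PowerSeries.C (-1) ^ (Ub p n h l).card * ((∏ j ∈ (Finset.Icc (-fA n l p h) (fB n l p h)).erase 0,
        (PowerSeries.C (((p * j : ℤ)) : ℚ) + X))
      * ∏ m ∈ Ub p n h l, (PowerSeries.C ((m : ℚ) - (l : ℚ)) + X))
      = (∏ j ∈ (Finset.Icc (-fA n l p h) (fB n l p h)).erase 0,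
        (PowerSeries.C (((p * j : ℤ)) : ℚ) + X)) *
        ∏ m ∈ Ub p n h l, (PowerSeries.C (-1) * (PowerSeries.C ((((m : ℤ) - l : ℤ)) : ℚ) + X)) := by
    rw [Finset.prod_mul_distrib, Finset.prod_const]
    push_cast
    ring
  rw [e2]
  exact c3

lemma Cg_Binv {n l l' : ℕ} (P : Pair n p l l') (hl : l ≤ 83 * n) (hpn : 83 * n < p ^ 2) {h : ℕ}
    (hh : h ∈ Pset ∪ Mset) :
    Cg p ((B n h l')⁻¹) (PowerSeries.C (-1) ^ (Ub p n h l).card * (B n h l)⁻¹)
      ((p : ℚ) ^ (cnt n l p h)) := by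
  have h41 := le_83 hh
  rw [B_split (p := p) n h l' (by omega), B_split (p := p) n h l (by omega), P.fA h hh, P.fB h hh]
  have e1 : ∏ m ∈ Ub p n h l', (PowerSeries.C ((m : ℚ) - (l' : ℚ)) + X : PowerSeries ℚ)
      = ∏ m ∈ Ub p n h l, (PowerSeries.C ((-((m : ℤ) - l) - cc n l p * p : ℤ) : ℚ) + X) := by
    rw [← Ub_prod_pair P hh (fun z : ℤ => (PowerSeries.C ((z : ℤ) : ℚ) + X : PowerSeries ℚ))]
    refine Finset.prod_congr rfl (fun m _ => ?_)
    push_cast
    rfl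
  rw [e1, PowerSeries.mul_inv_rev, PowerSeries.mul_inv_rev, prod_inv_ps (Ub p n h l),
    prod_inv_ps (Ub p n h l)]
  have c1 := Cg.refl (GB_D (p := p) n l h h41 hl hpn).2
  have c2 := Cg.prod (p := p) (Ub p n h l)
    (fun m : ℕ => (PowerSeries.C ((-((m : ℤ) - l) - cc n l p * p : ℤ) : ℚ) + X : PowerSeries ℚ)⁻¹)
    (fun m : ℕ => PowerSeries.C (-1) * (PowerSeries.C ((((m : ℤ) - l : ℤ)) : ℚ) + X)⁻¹) (fun _ => 1)
    (fun m hm => Cg_factor_inv _ _ (mem_Ub.1 hm).2)
  rw [Finset.prod_const_one] at c2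
  have c3 := c2.mul c1
  rw [one_mul] at c3
  have e2 : PowerSeries.C (-1) ^ (Ub p n h l).card * (
      (∏ m ∈ Ub p n h l, (PowerSeries.C ((m : ℚ) - (l : ℚ)) + X)⁻¹) *
      (∏ j ∈ (Finset.Icc (-fA n l p h) (fB n l p h)).erase 0,
        (PowerSeries.C (((p * j : ℤ)) : ℚ) + X))⁻¹)
      = (∏ m ∈ Ub p n h l, (PowerSeries.C (-1) * (PowerSeries.C ((((m : ℤ) - l : ℤ)) : ℚ) + X)⁻¹)) *
        (∏ j ∈ (Finset.Icc (-fA n l p h) (fB n l p h)).erase 0,
        (PowerSeries.C (((p * j : ℤ)) : ℚ) + X))⁻¹ := by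
    rw [Finset.prod_mul_distrib, Finset.prod_const]
    push_cast
    ring
  rw [e2]
  exact c3

end Pool.Agent.OddZeta
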