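import Pool.Agent.OddZeta.Nonvan
import Pool.Agent.OddZeta.NvV
import Pool.Agent.OddZeta.PadicC2

/-!
Nonvanishing at the prime `n = p` (module E), final statements.
Seat: helper7.
-/

open Finset

namespace Pool.Agent.OddZeta

theorem T_self_le {p l : ℕ} [hp : Fact p.Prime] (hp83 : 83 < p) (hl : l ∈ poles p) (hpl : ¬ p ∣ l) :
    padicNorm p (T p l) ≤ (p : ℚ) ^ 2 := by
  have hp0 : 0 < p := hp.out.pos
  unfold poles at hl
  rw [Finset.mem_Icc] at hl
  have h1 := norm_T_le_large (p := p) p l (by omega) (by nlinarith)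
  rw [V_self_not_dvd hp0 hpl, sub_self, zero_add] at h1
  exact_mod_cast h1

theorem a_self_le {p l i : ℕ} [hp : Fact p.Prime] (hp83 : 83 < p) (hl : l ∈ poles p) :
    padicNorm p (a p l i) ≤ (p : ℚ) ^ 8 := by
  have hp0 : 0 < p := hp.out.pos
  have hp1 : (1 : ℚ) ≤ p := by exact_mod_cast hp.out.one_lt.le
  unfold poles at hl
  rw [Finset.mem_Icc] at hl
  have h1 := norm_a_le (p := p) p l i (by omega) (by nlinarith)
  refine h1.trans ?_
  have h2 : ord p l - V p l p - (i : ℤ) ≤ ((8 : ℕ) : ℤ) := by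
    by_cases hpl : p ∣ l
    · obtain ⟨j, rfl⟩ := hpl
      rw [V_self_dvd hp0]
      push_cast
      omega
    · rw [V_self_not_dvd hp0 hpl]
      push_cast
      omega
  calc (p : ℚ) ^ (ord p l - V p l p - (i : ℤ)) ≤ (p : ℚ) ^ ((8 : ℕ) : ℤ) :=
        zpow_le_zpow_right₀ hp1 h2
    _ = (p : ℚ) ^ 8 := zpow_natCast _ _

theorem rho_nv : ∃ N : ℕ, ∀ n ≥ N, n.Prime → ∀ j, 5 ≤ j → padicNorm n (rho n j) ≤ (n : ℚ) ^ 8 := by
  refine ⟨84, ?_⟩
  intro p hp hpp j _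
  have : Fact p.Prime := ⟨hpp⟩
  unfold rho
  refine padicNorm.sum_le' ?_ (by positivity)
  intro l hl
  rw [padicNorm.mul]
  have h1 : padicNorm p (((j - 1).choose 2 : ℕ) : ℚ) ≤ 1 := padicNorm.of_nat _
  have h2 := a_self_le (p := p) (l := l) (i := j - 2) (by omega) hl
  calc _ ≤ (p : ℚ) ^ 8 * 1 := mul_le_mul h2 h1 (padicNorm.nonneg _) (by positivity)
    _ = _ := mul_one _

theorem rho0_nv_of (hne : rho0 1 ≠ 0) :
    ∃ N : ℕ, ∀ n ≥ N, n.Prime → padicNorm n (rho0 n) = (n : ℚ) ^ 9 := by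
  refine ⟨84 + (rho0 1).num.natAbs + (rho0 1).den, ?_⟩
  intro p hp hpp
  have : Fact p.Prime := ⟨hpp⟩
  have hp83 : 83 < p := by omega
  have hden := (rho0 1).den_pos
  exact rho0_norm hp83 (by omega) (by omega) hne (fun l hl hpl => T_self_le hp83 hl hpl)

end Pool.Agent.OddZeta
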