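import Mathlib
import Pool.Agent.OddZeta.Defs
import Pool.Agent.OddZeta.PadicBasic
import Pool.Agent.OddZeta.PadicC1
import Pool.Agent.OddZeta.PadicC2

set_option autoImplicit false
set_option linter.unusedSectionVars false

/-!
# The pairing and the bounds C1, C2 (Module C, helper75)
-/

open Finset

namespace Pool.Agent.OddZeta

open PowerSeries

variable {p : ℕ} [hp : Fact p.Prime]

lemma Cneg_pow_even {k : ℕ} (hk : Even k) : (PowerSeries.C (-1 : ℚ) : PowerSeries ℚ) ^ k = 1 := by
  rw [← map_pow, hk.neg_one_pow, map_one]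

/-- total number of nondivisible factors is even -/
lemma even_total {n l l' : ℕ} (P : Pair n p l l') :
    Even (∑ h ∈ Mset, (Ub p n h l).card + ∑ h ∈ Pset, (Ub p n h l).card) := by
  have key : ∀ h ∈ Pset ∪ Mset, ∃ k : ℤ, ((Ub p n h l).card : ℤ) = n + cc n l p + 2 * k := by
    intro h hh
    refine ⟨(41 - h : ℤ) * n - fB n l p h - cc n l p, ?_⟩
    rw [card_Ub (p := p) n l h (le_83 hh)]
    have := P.diff h hh
    linarith
  have keyM : ∀ h ∈ Mset, ∃ k : ℤ, ((Ub p n h l).card : ℤ) = n + cc n l p + 2 * k :=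
    fun h hh => key h (Finset.mem_union_right _ hh)
  have keyP : ∀ h ∈ Pset, ∃ k : ℤ, ((Ub p n h l).card : ℤ) = n + cc n l p + 2 * k :=
    fun h hh => key h (Finset.mem_union_left _ hh)
  have gen : ∀ s : Finset ℕ, (∀ h ∈ s, ∃ k : ℤ, ((Ub p n h l).card : ℤ) = n + cc n l p + 2 * k) →
      ∃ k : ℤ, ((∑ h ∈ s, (Ub p n h l).card : ℕ) : ℤ) = s.card * (n + cc n l p) + 2 * k := by
    intro s
    induction s using Finset.induction_on with
    | empty => intro _; exact ⟨0, by simp⟩
    | insert a s ha ih =>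
      intro hs
      obtain ⟨k, hk⟩ := ih (fun h hh => hs h (Finset.mem_insert_of_mem hh))
      obtain ⟨j, hj⟩ := hs a (Finset.mem_insert_self _ _)
      refine ⟨k + j, ?_⟩
      rw [Finset.sum_insert ha, Finset.card_insert_of_notMem ha]
      push_cast at hk ⊢
      rw [hk, hj]
      ring
  obtain ⟨a, ha⟩ := gen Mset keyM
  obtain ⟨b, hb⟩ := gen Pset keyP
  have hM : Mset.card = 3 := by decide
  have hPc : Pset.card = 11 := by decide
  rw [hM] at ha
  rw [hPc] at hb
  rw [← Int.even_coe_nat]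
  push_cast at ha hb ⊢
  rw [ha, hb]
  refine ⟨7 * (n + cc n l p) + a + b, by ring⟩

lemma Cg_mid {n l l' : ℕ} (P : Pair n p l l') :
    Cg p (PowerSeries.C (83 * (n : ℚ) - 2 * (l' : ℚ)) + 2 * PowerSeries.X)
      (PowerSeries.C (-1) * (PowerSeries.C (83 * (n : ℚ) - 2 * (l : ℚ)) + 2 * PowerSeries.X)) 1 := by
  have hp0 := pq_pos (p := p)
  have hp1 := one_le_pq (p := p)
  refine ⟨GB_mid n l' hp1, ?_, ?_⟩
  · have := (GB.C (p := p) (-1) (r := p) hp0.le).mul (GB_mid n l hp1)
    rwa [padicNorm.neg, padicNorm.one, one_mul] at this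
  · have hc : (l' : ℚ) = 83 * (n : ℚ) + cc n l p * p - l := by
      have := P.cast
      exact_mod_cast this
    have h3 : (PowerSeries.C (-1 : ℚ) : PowerSeries ℚ) = -1 := by rw [map_neg, map_one]
    have h4 : (PowerSeries.C (4 : ℚ) : PowerSeries ℚ) = 4 := map_ofNat PowerSeries.C 4
    have h2 : (PowerSeries.C (83 * (n : ℚ) - 2 * (l' : ℚ)) : PowerSeries ℚ)
        = PowerSeries.C (((-2 * cc n l p * p : ℤ)) : ℚ) - PowerSeries.C (83 * (n : ℚ) - 2 * (l : ℚ)) := by
      rw [← map_sub]; congr 1; rw [hc]; push_cast; ring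
    have h1 : (PowerSeries.C (83 * (n : ℚ) - 2 * (l' : ℚ)) + 2 * PowerSeries.X)
      - (PowerSeries.C (-1) * (PowerSeries.C (83 * (n : ℚ) - 2 * (l : ℚ)) + 2 * PowerSeries.X) :
        PowerSeries ℚ) = PowerSeries.C (((-2 * cc n l p * p : ℤ)) : ℚ) + PowerSeries.C 4 * X := by
      rw [h2, h3, h4]
      ring
    rw [h1]
    apply GB.lin _ _ hp0.le
    · push_cast
      rw [padicNorm.mul, padicNorm.padicNorm_p_of_prime]
      have := padicNorm.of_int (p := p) (-2 * cc n l p)
      push_cast at this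
      calc padicNorm p (-2 * (cc n l p : ℚ)) * (p : ℚ)⁻¹ ≤ 1 * (p : ℚ)⁻¹ :=
            mul_le_mul_of_nonneg_right this (by positivity)
        _ = 1 / p := by ring
    · rw [div_mul_cancel₀ _ hp0.ne']
      have := padicNorm.of_int (p := p) 4
      push_cast at this
      exact this

lemma Cg_F {n l l' : ℕ} (P : Pair n p l l') (hl : l ≤ 83 * n) (hpn : 83 * n < p ^ 2) :
    Cg p (F n l') (PowerSeries.C (-1) * F n l) ((p : ℚ) ^ (-V n l p)) := by
  have hp0 := pq_pos (p := p)
  have e : (p : ℚ) ^ (-V n l p) = (p : ℚ) ^ (-E0 n p) * 1 * (∏ h ∈ Mset, (p : ℚ) ^ (-cnt n l p h))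
      * (∏ h ∈ Pset, (p : ℚ) ^ (cnt n l p h)) := by
    rw [prod_zpow_base _ _ _ hp0.ne', prod_zpow_base _ _ _ hp0.ne', mul_one, ← zpow_add₀ hp0.ne',
      ← zpow_add₀ hp0.ne']
    congr 1
    unfold V E0
    rw [Finset.sum_sub_distrib, Finset.sum_sub_distrib, Finset.sum_neg_distrib]
    ring
  rw [e]
  have cK : Cg p (PowerSeries.C (K n)) (PowerSeries.C (K n)) ((p : ℚ) ^ (-E0 n p)) := by
    apply Cg.refl
    rw [← norm_K n hpn]
    exact GB.C _ hp0.le
  have cM := Cg.prod (p := p) Mset (fun h => B n h l')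
    (fun h => PowerSeries.C (-1) ^ (Ub p n h l).card * B n h l) (fun h => (p : ℚ) ^ (-cnt n l p h))
    (fun h hh => Cg_B P hl hpn (Finset.mem_union_right _ hh))
  have cP := Cg.prod (p := p) Pset (fun h => (B n h l')⁻¹)
    (fun h => PowerSeries.C (-1) ^ (Ub p n h l).card * (B n h l)⁻¹) (fun h => (p : ℚ) ^ (cnt n l p h))
    (fun h hh => Cg_Binv P hl hpn (Finset.mem_union_left _ hh))
  have c := ((cK.mul (Cg_mid P)).mul cM).mul cP
  have e2 : PowerSeries.C (K n) *
      (PowerSeries.C (-1) * (PowerSeries.C (83 * (n : ℚ) - 2 * (l : ℚ)) + 2 * PowerSeries.X)) *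
      (∏ h ∈ Mset, PowerSeries.C (-1) ^ (Ub p n h l).card * B n h l) *
      (∏ h ∈ Pset, PowerSeries.C (-1) ^ (Ub p n h l).card * (B n h l)⁻¹)
      = PowerSeries.C (-1) * F n l := by
    have h1 := Cneg_pow_even (even_total P)
    rw [pow_add, ← Finset.prod_pow_eq_pow_sum, ← Finset.prod_pow_eq_pow_sum] at h1
    rw [Finset.prod_mul_distrib, Finset.prod_mul_distrib]
    unfold F
    rw [prod_inv_ps Pset]
    linear_combination (PowerSeries.C (K n) *
      (PowerSeries.C (-1) * (PowerSeries.C (83 * (n : ℚ) - 2 * (l : ℚ)) + 2 * PowerSeries.X)) *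
      (∏ h ∈ Mset, B n h l) * (∏ h ∈ Pset, (B n h l)⁻¹)) * h1
  rw [e2] at c
  have e3 : F n l' = PowerSeries.C (K n) *
      (PowerSeries.C (83 * (n : ℚ) - 2 * (l' : ℚ)) + 2 * PowerSeries.X) *
      (∏ h ∈ Mset, B n h l') * (∏ h ∈ Pset, (B n h l')⁻¹) := by
    unfold F
    rw [prod_inv_ps Pset]
  rw [e3]
  exact c

lemma norm_a_pair {n l l' : ℕ} (P : Pair n p l l') (i : ℕ) (hl : l ≤ 83 * n) (hpn : 83 * n < p ^ 2) :
    padicNorm p (a n l i + a n l' i) ≤ (p : ℚ) ^ (ord n l - V n l p - i - 1) := by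
  have hp0 := pq_pos (p := p)
  unfold a
  rw [P.ord]
  split_ifs with h
  · have h1 := (Cg_F P hl hpn).2.2 (ord n l - i).toNat
    have h2 : PowerSeries.coeff (ord n l - i).toNat (F n l' - PowerSeries.C (-1) * F n l)
        = PowerSeries.coeff (ord n l - i).toNat (F n l) + PowerSeries.coeff (ord n l - i).toNat (F n l') := by
      rw [map_sub, coeff_C_mul]; ring
    rw [h2] at h1
    refine h1.trans (le_of_eq ?_)
    rw [← zpow_natCast, div_mul_eq_mul_div, ← zpow_add₀ hp0.ne', div_eq_mul_inv, ← zpow_neg_one,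
      ← zpow_add₀ hp0.ne']
    congr 1
    have : (((ord n l - i).toNat : ℕ) : ℤ) = ord n l - i := Int.toNat_of_nonneg (by linarith)
    rw [this]
    ring
  · rw [add_zero, padicNorm.zero]; positivity

lemma sub_div_eq (n l : ℕ) (hl : 25 * n ≤ l) : (((l - 25 * n) / p : ℕ) : ℤ) = fA n l p 25 := by
  unfold fA
  push_cast [Nat.cast_sub hl]
  rfl

lemma norm_T_pair {n l l' : ℕ} (P : Pair n p l l') (hl : l ≤ 83 * n) (hl' : l' ≤ 83 * n)
    (h25 : 25 * n ≤ l) (h25' : 25 * n ≤ l') (hpn : 83 * n < p ^ 2) :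
    padicNorm p (T n l + T n l') ≤ (p : ℚ) ^ (ord n l - V n l p + 1) := by
  have hp0 := pq_pos (p := p)
  have hdiv : (l - 25 * n) / p = (l' - 25 * n) / p := by
    have h1 := sub_div_eq (p := p) n l h25
    have h2 := sub_div_eq (p := p) n l' h25'
    rw [P.fA 25 (by decide), ← h1] at h2
    exact_mod_cast h2.symm
  have e : T n l + T n l' = - ∑ i ∈ Finset.Icc 1 8,
      ((a n l i + a n l' i) * ((i + 1).choose 2 : ℚ) * Hs (i + 2) (l - 25 * n)
        + a n l' i * ((i + 1).choose 2 : ℚ) * (Hs (i + 2) (l' - 25 * n) - Hs (i + 2) (l - 25 * n))) := by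
    unfold T
    rw [← neg_add, ← Finset.sum_add_distrib]
    congr 1
    refine Finset.sum_congr rfl (fun i _ => ?_)
    ring
  rw [e, padicNorm.neg]
  apply padicNorm.sum_le'
  · intro i _
    refine padicNorm.nonarchimedean.trans (max_le ?_ ?_)
    · rw [padicNorm.mul, padicNorm.mul]
      calc padicNorm p (a n l i + a n l' i) * padicNorm p (((i + 1).choose 2 : ℕ) : ℚ)
            * padicNorm p (Hs (i + 2) (l - 25 * n))
          ≤ (p : ℚ) ^ (ord n l - V n l p - i - 1) * 1 * (p : ℚ) ^ (i + 2) := by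
            apply mul_le_mul _ (Hs_le _ _ (by omega)) (padicNorm.nonneg _) (by positivity)
            exact mul_le_mul (norm_a_pair P i hl hpn) (padicNorm.of_nat _) (padicNorm.nonneg _)
              (by positivity)
        _ = (p : ℚ) ^ (ord n l - V n l p + 1) := by
            rw [mul_one, ← zpow_natCast, ← zpow_add₀ hp0.ne']
            congr 1
            push_cast
            ring
    · rw [padicNorm.mul, padicNorm.mul]
      calc padicNorm p (a n l' i) * padicNorm p (((i + 1).choose 2 : ℕ) : ℚ)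
            * padicNorm p (Hs (i + 2) (l' - 25 * n) - Hs (i + 2) (l - 25 * n))
          ≤ (p : ℚ) ^ (ord n l' - V n l' p - i) * 1 * 1 := by
            apply mul_le_mul _ (Hs_sub_le' _ _ _ hdiv) (padicNorm.nonneg _) (by positivity)
            exact mul_le_mul (norm_a_le n l' i hl' hpn) (padicNorm.of_nat _) (padicNorm.nonneg _)
              (by positivity)
        _ ≤ (p : ℚ) ^ (ord n l - V n l p + 1) := by
            rw [mul_one, mul_one, P.ord, P.V]
            apply zpow_mono_p
            have : (0 : ℤ) ≤ i := Int.natCast_nonneg i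
            linarith
  · positivity

/-- membership facts for the partner -/
lemma tau_facts (n l : ℕ) (hl : l ∈ poles n) (hs : selfP n l p) (hpl : p ≤ l - 25 * n) :
    tau n p l ∈ poles n ∧ p ≤ tau n p l - 25 * n ∧ selfP n (tau n p l) p ∧
      tau n p (tau n p l) = l := by
  have P := pair_tau (p := p) n l hl hs
  have hpz := pz_pos (p := p)
  have hl28 : l ∈ blk n 28 := by
    unfold poles at hl
    unfold blk
    norm_num at hl ⊢
    exact hl
  have h1 : tau n p l ∈ poles n := by
    have := (P.blk (h := 28) (by decide)).2 hl28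
    unfold poles
    unfold blk at this
    norm_num at this
    rw [Finset.mem_Icc]
    exact this
  have h25 : 25 * n ≤ tau n p l := by
    unfold poles at h1
    rw [Finset.mem_Icc] at h1
    omega
  have h25l : 25 * n ≤ l := by
    unfold poles at hl
    rw [Finset.mem_Icc] at hl
    omega
  have h2 : p ≤ tau n p l - 25 * n := by
    have e1 := sub_div_eq (p := p) n l h25l
    have e2 := sub_div_eq (p := p) n (tau n p l) h25
    rw [P.fA 25 (by decide), ← e1] at e2
    have e3 : (tau n p l - 25 * n) / p = (l - 25 * n) / p := by exact_mod_cast e2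
    have e4 : 1 ≤ (l - 25 * n) / p := (Nat.one_le_div_iff hp.out.pos).2 hpl
    rw [← e3] at e4
    exact (Nat.one_le_div_iff hp.out.pos).1 e4
  have hcc : cc n (tau n p l) p = cc n l p := by
    unfold cc
    rw [P.fA 0 (by decide), P.fB 0 (by decide)]
  have h3 : selfP n (tau n p l) p := by
    intro h hh
    rw [P.fA h hh, P.fB h hh, P.fA 0 (by decide), P.fB 0 (by decide)]
    exact hs h hh
  refine ⟨h1, h2, h3, ?_⟩
  have h4 := tau_cast (p := p) n (tau n p l) h1 h3
  rw [hcc, P.cast] at h4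
  have : ((tau n p (tau n p l) : ℕ) : ℤ) = l := by rw [h4]; ring
  exact_mod_cast this

/-- C1 -/
theorem rho0_le (n p : ℕ) [Fact p.Prime] (hn : 0 < n) (hp2 : p ≠ 2) (hp : 83 * n < p ^ 2) (d : ℤ)
    (hd : ∀ l ∈ poles n, bnd n l p ≤ d) : padicNorm p (rho0 n) ≤ (p : ℚ) ^ d := by
  have hp0 := pq_pos (p := p)
  unfold rho0
  rw [← Finset.sum_filter_add_sum_filter_not (poles n) (fun l => p ≤ l - 25 * n ∧ selfP n l p)]
  refine padicNorm.nonarchimedean.trans (max_le ?_ ?_)
  · set W := (poles n).filter (fun l => p ≤ l - 25 * n ∧ selfP n l p) with hW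
    have hinv : ∑ l ∈ W, T n (tau n p l) = ∑ l ∈ W, T n l := by
      have hmem : ∀ l ∈ W, tau n p l ∈ W := by
        intro l hl
        rw [hW, Finset.mem_filter] at hl ⊢
        have := tau_facts (p := p) n l hl.1 hl.2.2 hl.2.1
        exact ⟨this.1, this.2.1, this.2.2.1⟩
      have hinvo : ∀ l ∈ W, tau n p (tau n p l) = l := by
        intro l hl
        rw [hW, Finset.mem_filter] at hl
        exact (tau_facts (p := p) n l hl.1 hl.2.2 hl.2.1).2.2.2
      exact Finset.sum_bij' (fun l _ => tau n p l) (fun l _ => tau n p l) hmem hmem hinvo hinvo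
        (fun l _ => rfl)
    have h2 : (2 : ℚ) * ∑ l ∈ W, T n l = ∑ l ∈ W, (T n l + T n (tau n p l)) := by
      rw [Finset.sum_add_distrib, hinv]; ring
    have hnorm2 : padicNorm p (2 : ℚ) = 1 := by
      have := (padicNorm.nat_eq_one_iff (p := p) 2).2 (by
        intro h
        have h1 := (Nat.prime_dvd_prime_iff_eq (Fact.out : p.Prime) Nat.prime_two).1 h
        exact hp2 h1)
      exact_mod_cast this
    have h3 : padicNorm p (∑ l ∈ W, T n l) = padicNorm p (2 * ∑ l ∈ W, T n l) := by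
      rw [padicNorm.mul, hnorm2, one_mul]
    rw [h3, h2]
    apply padicNorm.sum_le' _ (by positivity)
    intro l hl
    rw [hW, Finset.mem_filter] at hl
    have hf := tau_facts (p := p) n l hl.1 hl.2.2 hl.2.1
    have hb := hd l hl.1
    unfold bnd at hb
    rw [if_pos hl.2.1, if_pos hl.2.2] at hb
    have h25 : ∀ k ∈ poles n, 25 * n ≤ k := by
      intro k hk
      unfold poles at hk
      rw [Finset.mem_Icc] at hk
      omega
    refine (norm_T_pair (pair_tau (p := p) n l hl.1 hl.2.2) (poles_le n l hl.1)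
      (poles_le n _ hf.1) (h25 l hl.1) (h25 _ hf.1) hp).trans ?_
    apply zpow_mono_p
    linarith
  · apply padicNorm.sum_le' _ (by positivity)
    intro l hl
    rw [Finset.mem_filter] at hl
    have hb := hd l hl.1
    have hl83 := poles_le n l hl.1
    unfold bnd at hb
    by_cases hpl : p ≤ l - 25 * n
    · have hns : ¬ selfP n l p := fun h => hl.2 ⟨hpl, h⟩
      rw [if_pos hpl, if_neg hns] at hb
      refine (norm_T_le_large n l hl83 hp).trans (zpow_mono_p ?_)
      linarith
    · rw [if_neg hpl] at hb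
      push Not at hpl
      by_cases hno : noP n l p
      · rw [if_pos hno] at hb
        rcases le_total (ord n l - V n l p - 1) (-E0 n p) with h | h
        · rw [min_eq_left h] at hb
          exact (norm_T_le_small n l hl83 hp hpl).trans (zpow_mono_p hb)
        · rw [min_eq_right h] at hb
          exact (norm_T_le_noP n l hp hpl hno).trans (zpow_mono_p hb)
      · rw [if_neg hno] at hb
        exact (norm_T_le_small n l hl83 hp hpl).trans (zpow_mono_p hb)

/-- C2 -/
theorem rho_le (n p j : ℕ) [Fact p.Prime] (hn : 0 < n) (hp2 : p ≠ 2) (hp : 83 * n < p ^ 2) (d : ℤ)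
    (hj : 5 ≤ j) (hd : ∀ l ∈ poles n, bnd n l p ≤ d) : padicNorm p (rho n j) ≤ (p : ℚ) ^ d := by
  have hp0 := pq_pos (p := p)
  unfold rho
  apply padicNorm.sum_le' _ (by positivity)
  intro l hl
  have hb := hd l hl
  have hl83 := poles_le n l hl
  have hA := norm_a_le (p := p) n l (j - 2) hl83 hp
  have hj3 : (3 : ℤ) ≤ ((j - 2 : ℕ) : ℤ) := by omega
  have hA' : padicNorm p (a n l (j - 2)) ≤ (p : ℚ) ^ d := by
    unfold bnd at hb
    by_cases hpl : p ≤ l - 25 * n
    · rw [if_pos hpl] at hb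
      refine hA.trans (zpow_mono_p ?_)
      split_ifs at hb <;> linarith
    · rw [if_neg hpl] at hb
      by_cases hno : noP n l p
      · rw [if_pos hno] at hb
        rcases le_total (ord n l - V n l p - 1) (-E0 n p) with h | h
        · rw [min_eq_left h] at hb
          refine hA.trans (zpow_mono_p ?_)
          linarith
        · rw [min_eq_right h] at hb
          exact (norm_a_le_noP n l _ hp hno).trans (zpow_mono_p hb)
      · rw [if_neg hno] at hb
        refine hA.trans (zpow_mono_p ?_)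
        linarith
  rw [padicNorm.mul]
  calc padicNorm p (a n l (j - 2)) * padicNorm p (((j - 1).choose 2 : ℕ) : ℚ)
      ≤ (p : ℚ) ^ d * 1 := mul_le_mul hA' (padicNorm.of_nat _) (padicNorm.nonneg _) (by positivity)
    _ = (p : ℚ) ^ d := mul_one _

end Pool.Agent.OddZeta
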