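import Pool.Agent.OddZeta.SBound
import Pool.Agent.OddZeta.PadicC3
import Pool.Agent.OddZeta.PadicC4
import Pool.Agent.OddZeta.NvFinal

/-!
Final assembly.  The finite table (`hsum`) and `rho0 1 ≠ 0` are hypotheses of `main_of`.
Seat: helper7.
-/

open Finset

namespace Pool.Agent.OddZeta

/-- a rational number which is `p`-integral for every prime `p` is an integer -/
theorem exists_int_of_padicNorm_le_one (x : ℚ)
    (h : ∀ p : ℕ, p.Prime → padicNorm p x ≤ 1) : ∃ z : ℤ, x = z := by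
  by_cases hd : x.den = 1
  · exact ⟨x.num, (Rat.coe_int_num_of_den_eq_one hd).symm⟩
  · exfalso
    obtain ⟨p, hp, hpd⟩ := Nat.exists_prime_and_dvd hd
    have hpf : Fact p.Prime := Fact.mk hp
    have h1 := h p hp
    have hnd : ¬ (p : ℤ) ∣ x.num := by
      intro hh
      have h2 : p ∣ x.num.natAbs := Int.natCast_dvd.1 hh
      have := Nat.dvd_gcd h2 hpd
      rw [x.reduced] at this
      exact hp.one_lt.ne' (Nat.dvd_one.1 this)
    have hx : x * (x.den : ℚ) = x.num := Rat.mul_den_eq_num x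
    have h4 : padicNorm p (x * (x.den : ℚ)) = 1 := by
      rw [hx]
      exact (padicNorm.int_eq_one_iff _).2 hnd
    rw [padicNorm.mul] at h4
    have h5 : padicNorm p (x.den : ℚ) < 1 := (padicNorm.nat_lt_one_iff _).2 hpd
    have h6 : 0 ≤ padicNorm p x := padicNorm.nonneg _
    have h7 : 0 ≤ padicNorm p (x.den : ℚ) := padicNorm.nonneg _
    nlinarith

/-- combination of bounds for the four coefficients -/
theorem padicNorm_comb_le (p : ℕ) [Fact p.Prime] (r0 r5 r7 r9 : ℚ) (m0 m5 m7 m9 : ℤ) (c : ℚ)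
    (h0 : padicNorm p r0 ≤ c) (h5 : padicNorm p r5 ≤ c) (h7 : padicNorm p r7 ≤ c)
    (h9 : padicNorm p r9 ≤ c) :
    padicNorm p (r0 * m0 + r5 * m5 + r7 * m7 + r9 * m9) ≤ c := by
  have hc : 0 ≤ c := le_trans (padicNorm.nonneg _) h0
  have key : ∀ (r : ℚ) (m : ℤ), padicNorm p r ≤ c → padicNorm p (r * m) ≤ c := by
    intro r m hr
    rw [padicNorm.mul]
    have h1 : padicNorm p (m : ℚ) ≤ 1 := padicNorm.of_int m
    have h2 : 0 ≤ padicNorm p r := padicNorm.nonneg _
    have h3 : 0 ≤ padicNorm p (m : ℚ) := padicNorm.nonneg _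
    nlinarith
  refine le_trans padicNorm.nonarchimedean (max_le ?_ (key _ _ h9))
  refine le_trans padicNorm.nonarchimedean (max_le ?_ (key _ _ h7))
  exact le_trans padicNorm.nonarchimedean (max_le (key _ _ h0) (key _ _ h5))

/-- eventually the error terms are small -/
theorem eventually_small (c : ℝ) : ∃ N : ℕ, ∀ n ≥ N,
    c + ((Nat.sqrt (83 * n) : ℝ) + 1) * (120 * Real.log (83 * n)) < (2 / 10 : ℝ) * n := by
  have h1 : (fun n : ℕ => c + ((Real.sqrt (83 * n)) + 1) * (120 * Real.log (83 * n)))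
      =o[Filter.atTop] (fun n : ℕ => (n : ℝ)) := by
    have hA : (fun x : ℝ => c + (Real.sqrt x + 1) * (120 * Real.log x)) =o[Filter.atTop] (fun x : ℝ => x) := by
      have hlog : (fun x : ℝ => Real.log x) =o[Filter.atTop] (fun x : ℝ => x ^ (1/4 : ℝ)) :=
        isLittleO_log_rpow_atTop (by norm_num)
      have hsq : (fun x : ℝ => Real.sqrt x + 1) =O[Filter.atTop] (fun x : ℝ => x ^ (1/2 : ℝ)) := by
        have e1 : (fun x : ℝ => Real.sqrt x) =O[Filter.atTop] (fun x : ℝ => x ^ (1/2 : ℝ)) := by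
          simp only [Real.sqrt_eq_rpow]
          exact Asymptotics.isBigO_refl _ _
        have e2 : (fun _ : ℝ => (1 : ℝ)) =O[Filter.atTop] (fun x : ℝ => x ^ (1/2 : ℝ)) := by
          refine Asymptotics.IsBigO.of_bound 1 ?_
          filter_upwards [Filter.eventually_ge_atTop 1] with x hx
          have := Real.one_le_rpow hx (by norm_num : (0:ℝ) ≤ 1/2)
          rw [norm_one, Real.norm_eq_abs, abs_of_nonneg (by positivity), one_mul]
          exact this
        exact e1.add e2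
      have h3 : (fun x : ℝ => (Real.sqrt x + 1) * Real.log x) =o[Filter.atTop]
          (fun x : ℝ => x ^ (1/2 : ℝ) * x ^ (1/4 : ℝ)) := hsq.mul_isLittleO hlog
      have h4 : (fun x : ℝ => x ^ (1/2 : ℝ) * x ^ (1/4 : ℝ)) =O[Filter.atTop] (fun x : ℝ => x) := by
        refine Asymptotics.IsBigO.of_bound 1 ?_
        filter_upwards [Filter.eventually_ge_atTop 1] with x hx
        rw [← Real.rpow_add (by linarith)]
        have hx' : x = x ^ (1 : ℝ) := (Real.rpow_one x).symm
        rw [Real.norm_eq_abs, Real.norm_eq_abs, abs_of_nonneg (by positivity), abs_of_nonneg (by linarith), one_mul]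
        nth_rewrite 2 [hx']
        exact Real.rpow_le_rpow_of_exponent_le hx (by norm_num)
      have h5 := (h3.trans_isBigO h4).const_mul_left 120
      have h6 : (fun _ : ℝ => c) =o[Filter.atTop] (fun x : ℝ => x) := by
        rw [Asymptotics.isLittleO_const_left]
        right
        exact Filter.tendsto_abs_atTop_atTop
      refine (h6.add h5).congr_left ?_
      intro x; ring
    have hB : Filter.Tendsto (fun n : ℕ => (83 : ℝ) * n) Filter.atTop Filter.atTop :=
      Filter.Tendsto.const_mul_atTop (by norm_num) tendsto_natCast_atTop_atTop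
    have hC := hA.comp_tendsto hB
    refine hC.trans_isBigO ?_
    refine Asymptotics.IsBigO.of_bound 83 ?_
    filter_upwards with n
    simp
  have h2 := h1.bound (by norm_num : (0:ℝ) < 1/10)
  rw [Filter.eventually_atTop] at h2
  obtain ⟨N, hN⟩ := h2
  refine ⟨max N 1, fun n hn => ?_⟩
  have hn1 : (1 : ℝ) ≤ n := by exact_mod_cast le_trans (le_max_right _ _) hn
  have h3 := hN n (le_trans (le_max_left _ _) hn)
  rw [Real.norm_eq_abs, Real.norm_eq_abs, abs_of_nonneg (by linarith : (0:ℝ) ≤ (n:ℝ))] at h3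
  have h4 := (abs_le.1 h3).2
  have h5 : (Nat.sqrt (83 * n) : ℝ) ≤ Real.sqrt (83 * n) := by
    have := Real.nat_sqrt_le_real_sqrt (a := 83 * n)
    push_cast at this
    exact this
  have h6 : 0 ≤ Real.log (83 * n) := Real.log_nonneg (by linarith)
  have h7 : ((Nat.sqrt (83 * n) : ℝ) + 1) * (120 * Real.log (83 * n)) ≤
      (Real.sqrt (83 * n) + 1) * (120 * Real.log (83 * n)) := by
    apply mul_le_mul_of_nonneg_right (by linarith) (by positivity)
  linarith

/-- exponent used for the few small primes and for `p = n` -/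
def kexp (n p : ℕ) : ℕ := 60 * (Nat.log p (83 * n) + 1)

theorem crude_exp (n p : ℕ) (hp : 1 < p) : ((83 : ℚ) * n) ^ 60 ≤ (p : ℚ) ^ kexp n p := by
  have h1 : 83 * n < p ^ (Nat.log p (83 * n) + 1) := Nat.lt_pow_succ_log_self hp _
  have h2 : (83 : ℚ) * n ≤ (p : ℚ) ^ (Nat.log p (83 * n) + 1) := by exact_mod_cast h1.le
  unfold kexp
  rw [mul_comm 60, pow_mul]
  exact pow_le_pow_left₀ (by positivity) h2 60

theorem kexp_log (n p : ℕ) (hn : 0 < n) (hp : 1 < p) (hpn : p ≤ 83 * n) :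
    (kexp n p : ℝ) * Real.log p ≤ 120 * Real.log (83 * n) := by
  have h1 : p ^ Nat.log p (83 * n) ≤ 83 * n := Nat.pow_log_le_self p (by omega)
  have hp0 : (0:ℝ) < p := by exact_mod_cast (by omega : 0 < p)
  have h2 : (Nat.log p (83 * n) : ℝ) * Real.log p ≤ Real.log (83 * n) := by
    rw [← Real.log_pow]
    apply Real.log_le_log (by positivity)
    exact_mod_cast h1
  have h3 : Real.log p ≤ Real.log (83 * n) := by
    apply Real.log_le_log hp0
    exact_mod_cast hpn
  unfold kexp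
  push_cast
  nlinarith

/-- all primes up to `83 n` -/
def Ps (n : ℕ) : Finset ℕ := (Finset.Icc 1 (83 * n)).filter (fun p => p.Prime)

/-- exponent of `p` in the denominator -/
def eexp (d : ℕ → ℕ → ℕ) (n p : ℕ) : ℕ := if 83 * n < p ^ 2 ∧ p ≠ n then d n p else kexp n p

/-- the denominator -/
def Dn (d : ℕ → ℕ → ℕ) (n : ℕ) : ℕ := ∏ p ∈ Ps n, p ^ eexp d n p

theorem Dn_pos (d : ℕ → ℕ → ℕ) (n : ℕ) : 0 < Dn d n := by
  unfold Dn
  apply Finset.prod_pos
  intro p hp
  simp only [Ps, Finset.mem_filter] at hp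
  exact pow_pos hp.2.pos _

theorem padicNorm_Dn (d : ℕ → ℕ → ℕ) (n p : ℕ) [Fact p.Prime] (hp : p ∈ Ps n) :
    padicNorm p (Dn d n : ℚ) ≤ (p : ℚ) ^ (-(eexp d n p : ℤ)) := by
  have h : p ^ eexp d n p ∣ Dn d n := Finset.dvd_prod_of_mem (fun q => q ^ eexp d n q) hp
  have h2 : ((p ^ eexp d n p : ℕ) : ℤ) ∣ (Dn d n : ℤ) := by exact_mod_cast h
  have := (padicNorm.dvd_iff_norm_le (p := p)).1 h2
  exact_mod_cast this

theorem log_Dn_le (d : ℕ → ℕ → ℕ) (n : ℕ) (hn : 0 < n)
    (hd : ∑ p ∈ (Finset.Icc 1 (83 * n)).filter (fun p => p.Prime ∧ 83 * n < p ^ 2 ∧ p ≠ n),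
      (d n p : ℝ) * Real.log p ≤ (3804 / 10 : ℝ) * n) :
    Real.log (Dn d n) ≤ (3804 / 10 : ℝ) * n +
      ((Nat.sqrt (83 * n) : ℝ) + 1) * (120 * Real.log (83 * n)) := by
  have h1 : Real.log (Dn d n) = ∑ p ∈ Ps n, (eexp d n p : ℝ) * Real.log p := by
    unfold Dn
    push_cast
    rw [Real.log_prod]
    · apply Finset.sum_congr rfl
      intro p _
      rw [Real.log_pow]
    · intro p hp
      simp only [Ps, Finset.mem_filter] at hp
      have : (0 : ℝ) < p := by exact_mod_cast hp.2.pos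
      positivity
  rw [h1, ← Finset.sum_filter_add_sum_filter_not (Ps n) (fun p => 83 * n < p ^ 2 ∧ p ≠ n)]
  refine add_le_add ?_ ?_
  · refine le_trans (le_of_eq ?_) hd
    have hset : (Ps n).filter (fun p => 83 * n < p ^ 2 ∧ p ≠ n) =
        (Finset.Icc 1 (83 * n)).filter (fun p => p.Prime ∧ 83 * n < p ^ 2 ∧ p ≠ n) := by
      unfold Ps
      rw [Finset.filter_filter]
    rw [hset]
    apply Finset.sum_congr rfl
    intro p hp
    simp only [Finset.mem_filter] at hp
    rw [eexp, if_pos hp.2.2]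
  · have hlog : 0 ≤ Real.log (83 * n) := by
      apply Real.log_nonneg
      have : (1 : ℝ) ≤ n := by exact_mod_cast hn
      linarith
    calc ∑ p ∈ (Ps n).filter (fun p => ¬(83 * n < p ^ 2 ∧ p ≠ n)), (eexp d n p : ℝ) * Real.log p
        ≤ ∑ p ∈ (Ps n).filter (fun p => ¬(83 * n < p ^ 2 ∧ p ≠ n)), 120 * Real.log (83 * n) := by
          apply Finset.sum_le_sum
          intro p hp
          simp only [Finset.mem_filter, Ps, Finset.mem_Icc] at hp
          rw [eexp, if_neg hp.2]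
          exact kexp_log n p hn hp.1.2.one_lt hp.1.1.2
      _ = (((Ps n).filter (fun p => ¬(83 * n < p ^ 2 ∧ p ≠ n))).card : ℝ) * (120 * Real.log (83 * n)) := by
          rw [Finset.sum_const, nsmul_eq_mul]
      _ ≤ _ := by
          apply mul_le_mul_of_nonneg_right _ (by positivity)
          have hsub : (Ps n).filter (fun p => ¬(83 * n < p ^ 2 ∧ p ≠ n)) ⊆
              insert n (Finset.Icc 1 (Nat.sqrt (83 * n))) := by
            intro p hp
            simp only [Finset.mem_filter, Ps, Finset.mem_Icc, Finset.mem_insert] at hp ⊢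
            by_cases hpn : p = n
            · exact Or.inl hpn
            · right
              refine ⟨hp.1.1.1, ?_⟩
              have h2 : ¬ 83 * n < p ^ 2 := fun h => hp.2 ⟨h, hpn⟩
              rw [Nat.le_sqrt]
              nlinarith
          have hc := Finset.card_le_card hsub
          have hc2 := Finset.card_insert_le n (Finset.Icc 1 (Nat.sqrt (83 * n)))
          rw [Nat.card_Icc] at hc2
          have hc3 : ((Ps n).filter (fun p => ¬(83 * n < p ^ 2 ∧ p ≠ n))).card ≤ Nat.sqrt (83 * n) + 1 := by omega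
          exact_mod_cast hc3

/-- MAIN THEOREM, in terms of `tail s 0 = ζ(s)` -/
theorem main_of
    (hsum : ∃ d : ℕ → ℕ → ℕ, ∃ N : ℕ, ∀ n ≥ N, n.Prime →
      (∀ p : ℕ, p.Prime → p ≠ n → 83 * n < p ^ 2 → p ≤ 83 * n → ∀ l ∈ poles n, bnd n l p ≤ d n p) ∧
      ∑ p ∈ (Finset.Icc 1 (83 * n)).filter (fun p => p.Prime ∧ 83 * n < p ^ 2 ∧ p ≠ n),
        (d n p : ℝ) * Real.log p ≤ (3804 / 10 : ℝ) * n)
    (hne : rho0 1 ≠ 0)
    (q5 q7 q9 : ℚ) (h5 : (tail 5 0 : ℝ) = q5) (h7 : (tail 7 0 : ℝ) = q7)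
    (h9 : (tail 9 0 : ℝ) = q9) : False := by
  obtain ⟨d, N1, hd⟩ := hsum
  obtain ⟨N2, hS⟩ := S_bound
  obtain ⟨N3, hE0⟩ := rho0_nv_of hne
  obtain ⟨N4, hE⟩ := rho_nv
  -- common denominator
  set q : ℕ := q5.den * q7.den * q9.den with hq
  have hq0 : 0 < q := by
    have := q5.den_pos; have := q7.den_pos; have := q9.den_pos
    positivity
  obtain ⟨N5, hsm⟩ := eventually_small (Real.log q)
  obtain ⟨n, hn, hnp⟩ := Nat.exists_infinite_primes (N1 + N2 + N3 + N4 + N5 + q + 100)
  have hn0 : 0 < n := hnp.pos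
  have hnf : Fact n.Prime := ⟨hnp⟩
  have hnodd : Odd n := hnp.odd_of_ne_two (by omega)
  obtain ⟨hd1, hd2⟩ := hd n (by omega) hnp
  -- the integers
  have z5 : ∃ m : ℤ, (q : ℚ) * q5 = m := ⟨q5.num * (q7.den * q9.den), by
    rw [hq]; push_cast
    have := Rat.mul_den_eq_num q5
    linear_combination (q7.den * q9.den : ℚ) * this⟩
  have z7 : ∃ m : ℤ, (q : ℚ) * q7 = m := ⟨q7.num * (q5.den * q9.den), by
    rw [hq]; push_cast
    have := Rat.mul_den_eq_num q7
    linear_combination (q5.den * q9.den : ℚ) * this⟩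
  have z9 : ∃ m : ℤ, (q : ℚ) * q9 = m := ⟨q9.num * (q5.den * q7.den), by
    rw [hq]; push_cast
    have := Rat.mul_den_eq_num q9
    linear_combination (q5.den * q7.den : ℚ) * this⟩
  obtain ⟨m5, hm5⟩ := z5
  obtain ⟨m7, hm7⟩ := z7
  obtain ⟨m9, hm9⟩ := z9
  set x : ℚ := rho0 n * ((q : ℤ) : ℚ) + rho n 5 * (m5 : ℚ) + rho n 7 * (m7 : ℚ) + rho n 9 * (m9 : ℚ) with hx
  have hxS : (x : ℝ) = q * S n := by
    rw [S_eq n hn0, h5, h7, h9, hx]
    push_cast
    have e5 : ((q : ℝ)) * q5 = m5 := by exact_mod_cast hm5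
    have e7 : ((q : ℝ)) * q7 = m7 := by exact_mod_cast hm7
    have e9 : ((q : ℝ)) * q9 = m9 := by exact_mod_cast hm9
    rw [← e5, ← e7, ← e9]
    ring
  -- integrality
  have hint : ∃ z : ℤ, (Dn d n : ℚ) * x = z := by
    apply exists_int_of_padicNorm_le_one
    intro p hp
    have hpf : Fact p.Prime := ⟨hp⟩
    rw [padicNorm.mul]
    have hxn : 0 ≤ padicNorm p x := padicNorm.nonneg _
    by_cases hpl : p ≤ 83 * n
    · have hmem : p ∈ Ps n := by
        simp only [Ps, Finset.mem_filter, Finset.mem_Icc]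
        exact ⟨⟨hp.pos, hpl⟩, hp⟩
      have h1 := padicNorm_Dn d n p hmem
      have h2 : padicNorm p x ≤ (p : ℚ) ^ (eexp d n p : ℤ) := by
        by_cases hc : 83 * n < p ^ 2 ∧ p ≠ n
        · rw [eexp, if_pos hc]
          have hbd : ∀ l ∈ poles n, bnd n l p ≤ ((d n p : ℕ) : ℤ) := fun l hl =>
            hd1 p hp hc.2 hc.1 hpl l hl
          have hp2 : p ≠ 2 := by
            rintro rfl
            have := hc.1
            omega
          exact padicNorm_comb_le p _ _ _ _ _ _ _ _ _ (rho0_le n p hn0 hp2 hc.1 _ hbd)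
            (rho_le n p 5 hn0 hp2 hc.1 _ (by norm_num) hbd)
            (rho_le n p 7 hn0 hp2 hc.1 _ (by norm_num) hbd)
            (rho_le n p 9 hn0 hp2 hc.1 _ (by norm_num) hbd)
        · rw [eexp, if_neg hc, zpow_natCast]
          have hce := crude_exp n p hp.one_lt
          exact padicNorm_comb_le p _ _ _ _ _ _ _ _ _
            ((crude n p 5 hn0 (by norm_num) (by norm_num)).1.trans hce)
            ((crude n p 5 hn0 (by norm_num) (by norm_num)).2.trans hce)
            ((crude n p 7 hn0 (by norm_num) (by norm_num)).2.trans hce)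
            ((crude n p 9 hn0 (by norm_num) (by norm_num)).2.trans hce)
      have hp0 : (0 : ℚ) < p := by exact_mod_cast hp.pos
      calc padicNorm p (Dn d n) * padicNorm p x
          ≤ (p : ℚ) ^ (-(eexp d n p : ℤ)) * (p : ℚ) ^ (eexp d n p : ℤ) :=
            mul_le_mul h1 h2 hxn (by positivity)
        _ = 1 := by rw [← zpow_add₀ hp0.ne']; simp
    · have h1 : padicNorm p (Dn d n : ℚ) ≤ 1 := by
        have := padicNorm.of_nat (p := p) (Dn d n)
        exact this
      have h2 : padicNorm p x ≤ 1 := by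
        have hp' : 83 * n < p := by omega
        exact padicNorm_comb_le p _ _ _ _ _ _ _ _ _ (large n p 5 hn0 hp' (by norm_num)).1
            (large n p 5 hn0 hp' (by norm_num)).2
            (large n p 7 hn0 hp' (by norm_num)).2
            (large n p 9 hn0 hp' (by norm_num)).2
      have h3 : 0 ≤ padicNorm p (Dn d n : ℚ) := padicNorm.nonneg _
      nlinarith
  obtain ⟨z, hz⟩ := hint
  -- size
  have hDpos : (0 : ℝ) < Dn d n := by exact_mod_cast Dn_pos d n
  have hqpos : (0 : ℝ) < q := by exact_mod_cast hq0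
  have hsize : |(z : ℝ)| < 1 := by
    have e1 : (z : ℝ) = Dn d n * (q * S n) := by
      rw [← hxS]
      exact_mod_cast hz.symm
    rw [e1, abs_mul, abs_mul, abs_of_pos hDpos, abs_of_pos hqpos]
    have hSn := hS n (by omega) hnodd
    have hD := log_Dn_le d n hn0 hd2
    have hsm' := hsm n (by omega)
    have hDe : (Dn d n : ℝ) = Real.exp (Real.log (Dn d n)) := (Real.exp_log hDpos).symm
    have hqe : (q : ℝ) = Real.exp (Real.log q) := (Real.exp_log hqpos).symm
    calc (Dn d n : ℝ) * (q * |S n|)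
        ≤ Real.exp (Real.log (Dn d n)) * (Real.exp (Real.log q) * Real.exp (-(3806 / 10 : ℝ) * n)) := by
          rw [← hDe, ← hqe]
          gcongr
      _ = Real.exp (Real.log (Dn d n) + Real.log q + -(3806 / 10 : ℝ) * n) := by
          rw [Real.exp_add, Real.exp_add]; ring
      _ < 1 := by
          rw [Real.exp_lt_one_iff]
          linarith
  have hz0 : z = 0 := by
    have : |z| < 1 := by exact_mod_cast hsize
    exact Int.abs_lt_one_iff.1 this
  have hx0 : x = 0 := by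
    rw [hz0] at hz
    have hD0 : (Dn d n : ℚ) ≠ 0 := by exact_mod_cast (Dn_pos d n).ne'
    simpa [hD0] using hz
  -- nonvanishing
  have hqn : padicNorm n ((q : ℤ) : ℚ) = 1 := by
    rw [padicNorm.int_eq_one_iff]
    intro hdiv
    have : n ∣ q := by exact_mod_cast hdiv
    have := Nat.le_of_dvd hq0 this
    omega
  have e0 : padicNorm n (rho0 n * ((q : ℤ) : ℚ)) = (n : ℚ) ^ 9 := by
    rw [padicNorm.mul, hE0 n (by omega) hnp, hqn, mul_one]
  have ej : ∀ (j : ℕ) (m : ℤ), 5 ≤ j → padicNorm n (rho n j * (m : ℚ)) ≤ (n : ℚ) ^ 8 := by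
    intro j m hj
    rw [padicNorm.mul]
    have h1 := hE n (by omega) hnp j hj
    have h2 : padicNorm n (m : ℚ) ≤ 1 := padicNorm.of_int m
    have h3 : 0 ≤ padicNorm n (rho n j) := padicNorm.nonneg _
    have h4 : 0 ≤ padicNorm n (m : ℚ) := padicNorm.nonneg _
    nlinarith
  have hsum : padicNorm n (rho n 5 * (m5 : ℚ) + rho n 7 * (m7 : ℚ) + rho n 9 * (m9 : ℚ)) ≤ (n : ℚ) ^ 8 := by
    refine le_trans padicNorm.nonarchimedean (max_le ?_ (ej 9 m9 (by norm_num)))
    exact le_trans padicNorm.nonarchimedean (max_le (ej 5 m5 (by norm_num)) (ej 7 m7 (by norm_num)))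
  have hlt : (n : ℚ) ^ 8 < (n : ℚ) ^ 9 := by
    have hn1 : (1 : ℚ) < n := by exact_mod_cast hnp.one_lt
    exact pow_lt_pow_right₀ hn1 (by norm_num)
  have hxeq : x = rho0 n * ((q : ℤ) : ℚ) +
      (rho n 5 * (m5 : ℚ) + rho n 7 * (m7 : ℚ) + rho n 9 * (m9 : ℚ)) := by rw [hx]; ring
  have hne : padicNorm n (rho0 n * ((q : ℤ) : ℚ)) ≠
      padicNorm n (rho n 5 * (m5 : ℚ) + rho n 7 * (m7 : ℚ) + rho n 9 * (m9 : ℚ)) := by
    rw [e0]
    exact (lt_of_le_of_lt hsum hlt).ne'
  have hfin := padicNorm.add_eq_max_of_ne hne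
  rw [← hxeq, hx0, padicNorm.zero, e0] at hfin
  have h9' : (0 : ℚ) < (n : ℚ) ^ 9 := by
    have : (0 : ℚ) < n := by exact_mod_cast hn0
    positivity
  have := le_max_left ((n : ℚ) ^ 9) (padicNorm n (rho n 5 * (m5 : ℚ) + rho n 7 * (m7 : ℚ) + rho n 9 * (m9 : ℚ)))
  linarith

end Pool.Agent.OddZeta
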