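import Mathlib
import Pool.Agent.OddZeta.Defs
import Pool.Agent.OddZeta.PadicBasic
import Pool.Agent.OddZeta.PadicC1
import Pool.Agent.OddZeta.PadicC2

set_option autoImplicit false
set_option linter.unusedSectionVars false

/-!
# `rho0 1 ≠ 0` (Module E, helper8), by the prime `29`
-/

open Finset

namespace Pool.Agent.OddZeta

open PowerSeries

section gen

variable {p : ℕ} [hp : Fact p.Prime]

lemma norm_prod_q {ι : Type*} (s : Finset ι) (f : ι → ℚ) :
    padicNorm p (∏ i ∈ s, f i) = ∏ i ∈ s, padicNorm p (f i) := by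
  classical
  induction s using Finset.induction_on with
  | empty => simp
  | insert a s ha ih => rw [Finset.prod_insert ha, Finset.prod_insert ha, padicNorm.mul, ih]

lemma norm_constB (n l h : ℕ) (hh : h ≤ 41) (hl : l ≤ 83 * n) (hpn : 83 * n < p ^ 2) :
    padicNorm p (constantCoeff (B n h l)) = (p : ℚ) ^ (-cnt n l p h) := by
  rw [← prod_norm_sub n l h hh hl hpn]
  unfold B
  rw [map_prod, norm_prod_q]
  apply Finset.prod_congr rfl
  intro m _
  simp

lemma norm_constF (n l : ℕ) (hl : l ≤ 83 * n) (hpn : 83 * n < p ^ 2) :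
    padicNorm p (constantCoeff (F n l))
      = (p : ℚ) ^ (-V n l p) * padicNorm p (83 * (n : ℚ) - 2 * (l : ℚ)) := by
  have hp0 := pq_pos (p := p)
  have e : (p : ℚ) ^ (-V n l p) = (p : ℚ) ^ (-E0 n p) * (∏ h ∈ Mset, (p : ℚ) ^ (-cnt n l p h))
      * (∏ h ∈ Pset, (p : ℚ) ^ (cnt n l p h)) := by
    rw [prod_zpow_base _ _ _ hp0.ne', prod_zpow_base _ _ _ hp0.ne', ← zpow_add₀ hp0.ne',
      ← zpow_add₀ hp0.ne']
    congr 1
    unfold V E0
    rw [Finset.sum_sub_distrib, Finset.sum_sub_distrib, Finset.sum_neg_distrib]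
    ring
  rw [e]
  unfold F
  simp only [map_mul, PowerSeries.constantCoeff_inv, map_prod, padicNorm.mul, norm_prod_q]
  have hM : ∏ i ∈ Mset, padicNorm p (constantCoeff (B n i l)) = ∏ h ∈ Mset, (p : ℚ) ^ (-cnt n l p h) :=
    Finset.prod_congr rfl (fun h hh => norm_constB n l h (le_41_M h hh) hl hpn)
  have hP : padicNorm p (∏ i ∈ Pset, constantCoeff (B n i l))⁻¹ = ∏ h ∈ Pset, (p : ℚ) ^ (cnt n l p h) := by
    rw [← one_div, padicNorm.div, padicNorm.one, norm_prod_q, one_div, ← Finset.prod_inv_distrib]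
    apply Finset.prod_congr rfl
    intro h hh
    rw [norm_constB n l h (le_41_P h hh) hl hpn, zpow_neg, inv_inv]
  rw [hM, hP]
  simp only [constantCoeff_C, map_add, map_mul, constantCoeff_X, mul_zero, add_zero, norm_K n hpn]
  ring

end gen

lemma fact29 : Fact (Nat.Prime 29) := ⟨by norm_num⟩

lemma Hs_one : padicNorm 29 (Hs 3 30) = 29 ^ 3 := by
  have := fact29
  unfold Hs
  rw [← Finset.add_sum_erase _ _ (show 29 ∈ Finset.Icc 1 30 by decide)]
  have h1 : padicNorm 29 (1 / ((29 : ℕ) : ℚ) ^ 3) = 29 ^ 3 := by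
    rw [padicNorm.div, padicNorm.one, norm_pow_q, padicNorm.padicNorm_p (by norm_num)]
    norm_num
  have h2 : padicNorm 29 (∑ x ∈ (Finset.Icc (1 : ℕ) 30).erase 29, 1 / (x : ℚ) ^ 3) ≤ 1 := by
    apply padicNorm.sum_le' _ (by norm_num)
    intro m hm
    rw [norm_inv_pow_eq]
    revert m
    decide
  have h3 : padicNorm 29 (1 / ((29 : ℕ) : ℚ) ^ 3) ≠
      padicNorm 29 (∑ x ∈ (Finset.Icc (1 : ℕ) 30).erase 29, 1 / (x : ℚ) ^ 3) := by
    rw [h1]; intro hc; rw [← hc] at h2; norm_num at h2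
  rw [padicNorm.add_eq_max_of_ne h3, h1]
  apply max_eq_left
  linarith

lemma norm_T_one : padicNorm 29 (T 1 55) = 29 ^ 5 := by
  have := fact29
  have hord : ord 1 55 = 1 := by decide
  have hV : V 1 55 29 = -2 := by decide
  have ha : ∀ i ∈ Finset.Icc 1 8, i ≠ 1 → a 1 55 i * ((i + 1).choose 2 : ℚ) * Hs (i + 2) (55 - 25 * 1) = 0 := by
    intro i hi h1
    rw [Finset.mem_Icc] at hi
    have : a 1 55 i = 0 := by
      unfold a
      rw [if_neg]
      rw [hord]
      omega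
    rw [this]; ring
  have hs : T 1 55 = - (a 1 55 1 * ((1 + 1).choose 2 : ℚ) * Hs (1 + 2) (55 - 25 * 1)) := by
    unfold T
    rw [Finset.sum_eq_single_of_mem 1 (by decide) ha]
  have ha1 : a 1 55 1 = constantCoeff (F 1 55) := by
    unfold a
    rw [hord]
    simp
  rw [hs, padicNorm.neg, ha1, padicNorm.mul, padicNorm.mul, norm_constF 1 55 (by norm_num) (by norm_num), hV]
  have h27 : padicNorm 29 (83 * ((1 : ℕ) : ℚ) - 2 * ((55 : ℕ) : ℚ)) = 1 := by
    have : (83 * ((1 : ℕ) : ℚ) - 2 * ((55 : ℕ) : ℚ)) = ((-27 : ℤ) : ℚ) := by norm_num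
    rw [this]
    exact norm_unit (p := 29) (-27) (by decide)
  rw [h27, show (1 + 2 : ℕ) = 3 from rfl, show (55 - 25 * 1 : ℕ) = 30 from rfl, Hs_one]
  norm_num

lemma norm_T_rest (l : ℕ) (hl : l ∈ Finset.Icc 28 54) : padicNorm 29 (T 1 l) ≤ 29 ^ 4 := by
  have := fact29
  by_cases h : l - 25 < 29
  · refine (norm_T_le_small (p := 29) 1 l (by simp at hl; omega) (by norm_num) (by simpa using h)).trans ?_
    have : ord 1 l - V 1 l 29 - 1 ≤ 4 := by
      clear h
      revert l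
      decide
    calc (((29 : ℕ) : ℚ)) ^ (ord 1 l - V 1 l 29 - 1) ≤ ((29 : ℕ) : ℚ) ^ (4 : ℤ) :=
          zpow_le_zpow_right₀ (by norm_num) this
      _ = 29 ^ 4 := by norm_num
  · refine (norm_T_le_large (p := 29) 1 l (by simp at hl; omega) (by norm_num)).trans ?_
    have : ord 1 l - V 1 l 29 + 2 ≤ 4 := by
      revert l
      decide
    calc (((29 : ℕ) : ℚ)) ^ (ord 1 l - V 1 l 29 + 2) ≤ ((29 : ℕ) : ℚ) ^ (4 : ℤ) :=
          zpow_le_zpow_right₀ (by norm_num) this
      _ = 29 ^ 4 := by norm_num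

theorem rho0_one_ne : rho0 1 ≠ 0 := by
  have := fact29
  intro h0
  unfold rho0 at h0
  have hp : poles 1 = insert 55 (Finset.Icc 28 54) := by decide
  rw [hp, Finset.sum_insert (by decide)] at h0
  have h1 : padicNorm 29 (∑ l ∈ Finset.Icc 28 54, T 1 l) ≤ 29 ^ 4 :=
    padicNorm.sum_le' norm_T_rest (by norm_num)
  have h2 : T 1 55 = -∑ l ∈ Finset.Icc 28 54, T 1 l := by linarith
  have h3 := norm_T_one
  rw [h2, padicNorm.neg] at h3
  rw [h3] at h1
  norm_num at h1

end Pool.Agent.OddZeta
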