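import Mathlib
import Pool.Agent.PNT.Main

/-!
Sums over primes of a step function of `n / p`, from the prime number theorem.
-/

open Finset Filter Topology

namespace Pool.Agent.OddZeta

/-- value at `x = n / p` of the step function given by the table: sum of the `δ` of the entries
`(x0, x1, δ)` with `x0 ≤ n / p < x1` -/
def tabVal (tab : List (ℚ × ℚ × ℕ)) (n p : ℕ) : ℕ :=
  (tab.map fun e => if e.1 * (p : ℚ) ≤ (n : ℚ) ∧ (n : ℚ) < e.2.1 * (p : ℚ) then e.2.2 else 0).sum

/-- `∑ δ (1 / x0 - 1 / x1)` -/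
def tabInt (tab : List (ℚ × ℚ × ℕ)) : ℚ :=
  (tab.map fun e => (e.2.2 : ℚ) * (1 / e.1 - 1 / e.2.1)).sum

/-- primes in an interval `(n / x1, n / x0]` -/
theorem sum_log_Ioc (x0 x1 : ℚ) (h0 : 0 < x0) (h1 : x0 < x1) (n N : ℕ) :
    ∑ p ∈ (Finset.Icc 1 N).filter (fun p => p.Prime),
      (if x0 * (p : ℚ) ≤ (n : ℚ) ∧ (n : ℚ) < x1 * (p : ℚ) then Real.log p else 0)
      ≤ Chebyshev.theta (n / x0) - Chebyshev.theta (n / x1) := by
  have hx0 : (0 : ℝ) < x0 := by exact_mod_cast h0
  have hx1 : (0 : ℝ) < x1 := by exact_mod_cast (h0.trans h1)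
  have hle : (n : ℝ) / x1 ≤ n / x0 := by
    apply div_le_div_of_nonneg_left (by positivity) hx0
    exact_mod_cast h1.le
  unfold Chebyshev.theta
  rw [← Finset.sum_filter]
  have hsub : (Finset.Ioc 0 ⌊(n : ℝ) / x1⌋₊).filter Nat.Prime ⊆
      (Finset.Ioc 0 ⌊(n : ℝ) / x0⌋₊).filter Nat.Prime := by
    apply Finset.filter_subset_filter
    apply Finset.Ioc_subset_Ioc_right
    exact Nat.floor_le_floor hle
  rw [← Finset.sum_sdiff hsub, add_sub_cancel_right]
  apply Finset.sum_le_sum_of_subset_of_nonneg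
  · intro p hp
    simp only [Finset.mem_filter, Finset.mem_Icc, Finset.mem_sdiff, Finset.mem_Ioc] at hp ⊢
    obtain ⟨⟨hp1, hpp⟩, hp2, hp3⟩ := hp
    have hp2' : (x0 : ℝ) * p ≤ n := by exact_mod_cast hp2
    have hp3' : (n : ℝ) < x1 * p := by exact_mod_cast hp3
    refine ⟨⟨⟨hpp.pos, ?_⟩, hpp⟩, ?_⟩
    · apply Nat.le_floor
      rw [le_div_iff₀ hx0]
      linarith
    · rintro ⟨⟨-, h⟩, -⟩
      have := (Nat.le_floor_iff (by positivity)).1 h
      rw [le_div_iff₀ hx1] at this
      linarith
  · intro p _ _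
    exact Real.log_natCast_nonneg p

/-- primes up to `n / 50` -/
theorem sum_log_small (c n N : ℕ) (hc : 0 < c) :
    ∑ p ∈ (Finset.Icc 1 N).filter (fun p => p.Prime), (if c * p ≤ n then Real.log p else 0)
      ≤ Chebyshev.theta (n / c) := by
  unfold Chebyshev.theta
  rw [← Finset.sum_filter]
  apply Finset.sum_le_sum_of_subset_of_nonneg
  · intro p hp
    simp only [Finset.mem_filter, Finset.mem_Icc, Finset.mem_Ioc] at hp ⊢
    obtain ⟨⟨hp1, hpp⟩, hp2⟩ := hp
    refine ⟨⟨hpp.pos, ?_⟩, hpp⟩
    apply Nat.le_floor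
    rw [le_div_iff₀ (by exact_mod_cast hc)]
    have : ((c * p : ℕ) : ℝ) ≤ n := by exact_mod_cast hp2
    push_cast at this
    linarith
  · intro p _ _
    exact Real.log_natCast_nonneg p

theorem tendsto_theta_scaled (x : ℝ) (hx : 0 < x) :
    Tendsto (fun n : ℕ => Chebyshev.theta (n / x) / n) atTop (𝓝 (1 / x)) := by
  have h1 := Pool.Agent.PNT.tendsto_theta_div
  have h2 : Tendsto (fun n : ℕ => (n : ℝ) / x) atTop atTop :=
    tendsto_natCast_atTop_atTop.atTop_div_const hx
  have h3 := (h1.comp h2).mul_const (1 / x)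
  rw [one_mul] at h3
  refine h3.congr' ?_
  filter_upwards [eventually_gt_atTop 0] with n hn
  have : (n : ℝ) ≠ 0 := by positivity
  simp only [Function.comp]
  field_simp

/-- the main estimate -/
theorem sum_primes_le (tab : List (ℚ × ℚ × ℕ)) (htab : ∀ e ∈ tab, 0 < e.1 ∧ e.1 < e.2.1)
    (c m : ℕ) (hc : 0 < c) (A : ℝ) (hA : (tabInt tab : ℝ) + (m : ℝ) / c < A) :
    ∃ N : ℕ, ∀ n ≥ N, ∀ N' : ℕ,
      ∑ p ∈ (Finset.Icc 1 N').filter (fun p => p.Prime),
        ((tabVal tab n p + (if c * p ≤ n then m else 0) : ℕ) : ℝ) * Real.log p ≤ A * n := by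
  have hlim : Tendsto (fun n : ℕ => ((tab.map fun e => (e.2.2 : ℝ) *
      (Chebyshev.theta (n / (e.1 : ℝ)) - Chebyshev.theta (n / (e.2.1 : ℝ)))).sum
        + m * Chebyshev.theta (n / (c : ℝ))) / n) atTop (𝓝 ((tabInt tab : ℝ) + m / c)) := by
    have h1 : Tendsto (fun n : ℕ => (tab.map fun e => (e.2.2 : ℝ) *
      (Chebyshev.theta (n / (e.1 : ℝ)) - Chebyshev.theta (n / (e.2.1 : ℝ)))).sum / n) atTop
        (𝓝 (tabInt tab : ℝ)) := by
      unfold tabInt
      clear hA
      induction tab with
      | nil => simp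
      | cons e t ih =>
        simp only [List.map_cons, List.sum_cons, add_div]
        push_cast
        refine Tendsto.add ?_ ?_
        · have he := htab e (by simp)
          have e0 : (0 : ℝ) < e.1 := by exact_mod_cast he.1
          have e1 : (0 : ℝ) < e.2.1 := by exact_mod_cast (he.1.trans he.2)
          have t1 := ((tendsto_theta_scaled _ e0).sub (tendsto_theta_scaled _ e1)).const_mul (e.2.2 : ℝ)
          refine t1.congr ?_
          intro n
          ring
        · have := ih (fun e he => htab e (by simp [he]))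
          push_cast at this
          exact this
    have h2 : Tendsto (fun n : ℕ => (m : ℝ) * (Chebyshev.theta (n / (c : ℝ)) / n)) atTop
        (𝓝 (m * (1 / c))) := (tendsto_theta_scaled _ (by exact_mod_cast hc)).const_mul _
    refine (h1.add h2).congr' ?_ |>.trans ?_
    · filter_upwards with n
      ring
    · rw [mul_one_div]
  have hev := hlim.eventually (eventually_lt_nhds hA)
  rw [Filter.eventually_atTop] at hev
  obtain ⟨N, hN⟩ := hev
  refine ⟨max N 1, fun n hn N' => ?_⟩
  have hn0 : (0 : ℝ) < n := by exact_mod_cast (le_trans (le_max_right N 1) hn)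
  have h1 := hN n (le_trans (le_max_left _ _) hn)
  rw [div_lt_iff₀ hn0] at h1
  refine le_trans ?_ h1.le
  have key : ∀ p : ℕ, ((tabVal tab n p + (if c * p ≤ n then m else 0) : ℕ) : ℝ) * Real.log p =
      (tab.map fun e => (e.2.2 : ℝ) * (if e.1 * (p : ℚ) ≤ (n : ℚ) ∧ (n : ℚ) < e.2.1 * (p : ℚ) then Real.log p else 0)).sum
        + m * (if c * p ≤ n then Real.log p else 0) := by
    intro p
    unfold tabVal
    push_cast
    rw [add_mul]
    congr 1
    · clear htab hA hlim hN h1
      induction tab with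
      | nil => simp
      | cons e t ih =>
        simp only [List.map_cons, List.sum_cons]
        push_cast
        rw [add_mul, ih]
        congr 1
        split_ifs <;> simp
    · split_ifs <;> simp
  simp only [key]
  rw [Finset.sum_add_distrib]
  refine add_le_add ?_ ?_
  · clear hA hlim hN h1 key
    induction tab with
    | nil => simp
    | cons e t ih =>
      simp only [List.map_cons, List.sum_cons]
      rw [Finset.sum_add_distrib]
      refine add_le_add ?_ (ih (fun e he => htab e (by simp [he])))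
      rw [← Finset.mul_sum]
      have he := htab e (by simp)
      exact mul_le_mul_of_nonneg_left (sum_log_Ioc _ _ he.1 he.2 n N') (by positivity)
  · rw [← Finset.mul_sum]
    exact mul_le_mul_of_nonneg_left (sum_log_small c n N' hc) (by positivity)

end Pool.Agent.OddZeta
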