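import Pool.Agent.OddZeta.TabSound
import Pool.Agent.OddZeta.TabData

/-! Module D, kernel check of a part of the table.  Seat: helper57. -/

namespace Pool.Agent.OddZeta.Tab

set_option maxRecDepth 100000 in
theorem ok_T1b5 : T1b5.all okCell = true := by decide +kernel

set_option maxRecDepth 100000 in
theorem ok_T1b6 : T1b6.all okCell = true := by decide +kernel

set_option maxRecDepth 100000 in
theorem ok_T1b7 : T1b7.all okCell = true := by decide +kernel

set_option maxRecDepth 100000 in
theorem ok_T1b8 : T1b8.all okCell = true := by decide +kernel

set_option maxRecDepth 100000 in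
theorem ok_T1b9 : T1b9.all okCell = true := by decide +kernel

end Pool.Agent.OddZeta.Tab
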