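import Pool.Agent.OddZeta.TabSound
import Pool.Agent.OddZeta.TabData

/-! Module D, kernel evaluation of the table integral.  Seat: helper57. -/

namespace Pool.Agent.OddZeta.Tab

set_option maxRecDepth 100000 in
theorem num_T0 : Nat.ble (sumUb 0 T0) 193833400000 = true := by decide +kernel

set_option maxRecDepth 100000 in
theorem num_T1b : Nat.ble (sumUb 0 T1b) 177962400000 = true := by decide +kernel

set_option maxRecDepth 100000 in
theorem num_1 : Nat.ble (sumUb 1 (T1a ++ T1b)) 3944800000 = true := by decide +kernel

set_option maxRecDepth 100000 in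
theorem num_2 : Nat.ble (sumUb 2 (T1a ++ T1b)) 1312900000 = true := by decide +kernel

set_option maxRecDepth 100000 in
theorem num_3 : Nat.ble (sumUb 3 (T1a ++ T1b)) 656500000 = true := by decide +kernel

set_option maxRecDepth 100000 in
theorem num_4 : Nat.ble (sumUb 4 (T1a ++ T1b)) 394000000 = true := by decide +kernel

set_option maxRecDepth 100000 in
theorem num_5 : Nat.ble (sumUb 5 (T1a ++ T1b)) 262700000 = true := by decide +kernel

set_option maxRecDepth 100000 in
theorem num_6 : Nat.ble (sumUb 6 (T1a ++ T1b)) 187700000 = true := by decide +kernel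

set_option maxRecDepth 100000 in
theorem num_7 : Nat.ble (sumUb 7 (T1a ++ T1b)) 140800000 = true := by decide +kernel

set_option maxRecDepth 100000 in
theorem num_8 : Nat.ble (sumUb 8 (T1a ++ T1b)) 109500000 = true := by decide +kernel

set_option maxRecDepth 100000 in
theorem num_9 : Nat.ble (sumUb 9 (T1a ++ T1b)) 87600000 = true := by decide +kernel

set_option maxRecDepth 100000 in
theorem pos_T0 : T0.all (fun e => Nat.blt 0 e.1) = true := by decide +kernel

set_option maxRecDepth 100000 in
theorem pos_T1b : T1b.all (fun e => Nat.blt 0 e.1) = true := by decide +kernel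

end Pool.Agent.OddZeta.Tab
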