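import Pool.Agent.OddZeta.TabCheckA
import Pool.Agent.OddZeta.TabCheck0
import Pool.Agent.OddZeta.TabCheck1
import Pool.Agent.OddZeta.TabCheck2
import Pool.Agent.OddZeta.TabCheck3
import Pool.Agent.OddZeta.TabCheck4
import Pool.Agent.OddZeta.TabCheck5
import Pool.Agent.OddZeta.TabNum
import Pool.Agent.OddZeta.PrimeSum

/-! Module D, assembly: the table bounds `bnd`, and the sum over primes.  Seat: helper57. -/

open Finset

namespace Pool.Agent.OddZeta.Tab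

theorem ok_T1b : ∀ e ∈ T1b, okCell e = true := by
  have h : T1b.all okCell = true := by
    unfold T1b
    simp only [List.all_append, ok_T1b0, ok_T1b1, ok_T1b2, ok_T1b3, ok_T1b4, ok_T1b5, ok_T1b6,
      ok_T1b7, ok_T1b8, ok_T1b9, ok_T1b10, ok_T1b11, ok_T1b12, ok_T1b13, ok_T1b14, ok_T1b15,
      ok_T1b16, ok_T1b17, ok_T1b18, ok_T1b19, ok_T1b20, ok_T1b21, ok_T1b22, ok_T1b23, ok_T1b24,
      ok_T1b25, ok_T1b26, ok_T1b27, ok_T1b28, ok_T1b29, Bool.and_self]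
  rwa [List.all_eq_true] at h

theorem ok_T1 : ∀ e ∈ T1a ++ T1b, okCell e = true := by
  intro e he
  rw [List.mem_append] at he
  rcases he with he | he
  · have h := ok_T1a
    rw [List.all_eq_true] at h
    exact h e he
  · exact ok_T1b e he

theorem ok_T0' : ∀ e ∈ T0, okCellF e = true := by
  have h := ok_T0
  rwa [List.all_eq_true] at h

/-- a cell, shifted by `N`, as an entry of the table -/
def toQ (N : ℕ) (e : ℕ × ℕ × ℕ × ℕ × ℕ) : ℚ × ℚ × ℕ :=
  ((N : ℚ) + (e.1 : ℚ) / e.2.1, (N : ℚ) + (e.2.2.1 : ℚ) / e.2.2.2.1, e.2.2.2.2)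

/-- the table -/
def tab : List (ℚ × ℚ × ℕ) :=
  T0.map (toQ 0) ++ (T1b.map (toQ 0) ++ (List.range 9).flatMap fun i => (T1a ++ T1b).map (toQ (i + 1)))

theorem tabVal_ge {t : List (ℚ × ℚ × ℕ)} {e : ℚ × ℚ × ℕ} (he : e ∈ t) {n p : ℕ}
    (h0 : e.1 * (p : ℚ) ≤ (n : ℚ)) (h1 : (n : ℚ) < e.2.1 * (p : ℚ)) : e.2.2 ≤ tabVal t n p := by
  unfold tabVal
  apply List.le_sum_of_mem
  rw [List.mem_map]
  exact ⟨e, he, by rw [if_pos ⟨h0, h1⟩]⟩

theorem sameb_pos {a1 b1 a2 b2 : ℕ} (h : sameb a1 b1 a2 b2 = true) :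
    0 < b1 ∧ 0 < b2 ∧ a1 * b2 < a2 * b1 := by
  unfold sameb at h
  simp only [Bool.and_eq_true, Nat.blt_eq] at h
  exact ⟨h.1.1.1, h.1.1.2, h.1.2⟩

theorem toQ_cond {e : ℕ × ℕ × ℕ × ℕ × ℕ} (hb1 : 0 < e.2.1) (hb2 : 0 < e.2.2.2.1) {n p N : ℕ}
    (hN : n / p = N) (h1 : e.1 * p ≤ (n % p) * e.2.1) (h2 : (n % p) * e.2.2.2.1 < e.2.2.1 * p) :
    (toQ N e).1 * (p : ℚ) ≤ (n : ℚ) ∧ (n : ℚ) < (toQ N e).2.1 * (p : ℚ) := by
  have h0 : (n : ℚ) = p * N + ((n % p : ℕ) : ℚ) := by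
    have := (Nat.div_add_mod n p).symm
    rw [hN] at this
    exact_mod_cast this
  have hb1' : (0 : ℚ) < e.2.1 := by exact_mod_cast hb1
  have hb2' : (0 : ℚ) < e.2.2.2.1 := by exact_mod_cast hb2
  have h1' : (e.1 : ℚ) * p ≤ ((n % p : ℕ) : ℚ) * e.2.1 := by exact_mod_cast h1
  have h2' : ((n % p : ℕ) : ℚ) * e.2.2.2.1 < (e.2.2.1 : ℚ) * p := by exact_mod_cast h2
  unfold toQ
  simp only
  rw [h0]
  constructor
  · have : (e.1 : ℚ) / e.2.1 * p ≤ ((n % p : ℕ) : ℚ) := by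
      rw [div_mul_eq_mul_div, div_le_iff₀ hb1']
      exact h1'
    linarith
  · have : ((n % p : ℕ) : ℚ) < (e.2.2.1 : ℚ) / e.2.2.2.1 * p := by
      rw [div_mul_eq_mul_div, lt_div_iff₀ hb2']
      exact h2'
    linarith

theorem bnd_tab {n p l : ℕ} (hn : n.Prime) (hp : p.Prime) (hne : p ≠ n) (h84 : 84 ≤ n)
    (h1 : 83 * n < p ^ 2) (h2 : p ≤ 83 * n) (hl : l ∈ poles n) :
    bnd n l p ≤ ((tabVal tab n p + (if 10 * p ≤ n then 13 else 0) : ℕ) : ℤ) := by
  have hp0 : 0 < p := hp.pos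
  have hp83 : 83 < p := by nlinarith
  have hnm : ∀ k ∈ Kl, (k * (n % p)) % p ≠ 0 := by
    intro k hk h0
    have hk' := K_le k hk
    have hd : p ∣ k * (n % p) := Nat.dvd_of_mod_eq_zero h0
    rcases (Nat.Prime.dvd_mul hp).1 hd with h3 | h3
    · have := Nat.le_of_dvd hk'.1 h3
      omega
    · have h4 : p ∣ n := by
        rw [Nat.dvd_mod_iff dvd_rfl] at h3
        exact h3
      exact hne ((Nat.prime_dvd_prime_iff_eq hp hn).1 h4)
  by_cases h10 : 10 * p ≤ n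
  · rw [if_pos h10]
    have := bnd_le_13 (n := n) l hp0 hnm
    push_cast
    omega
  rw [if_neg h10, add_zero]
  have hN9 : n / p < 10 := by
    rw [Nat.div_lt_iff_lt_mul hp0]
    omega
  have hmod : n % p < p := Nat.mod_lt _ hp0
  have hcell : ∀ e ∈ T1a ++ T1b, e.1 * p ≤ (n % p) * e.2.1 →
      (n % p) * e.2.2.2.1 < e.2.2.1 * p → toQ (n / p) e ∈ tab →
      bnd n l p ≤ ((tabVal tab n p : ℕ) : ℤ) := by
    intro e he c1 c2 hmem
    have hok := ok_T1 e he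
    unfold okCell at hok
    rw [Bool.and_eq_true] at hok
    obtain ⟨p1, p2, -⟩ := sameb_pos hok.1
    obtain ⟨hS, hb⟩ := same_of hok.1 c1 c2 hnm
    have h5 := bnd_per l hp0 hb hS (e.2.2.2.2 : ℤ) (okPer_spec hok.2)
    obtain ⟨q1, q2⟩ := toQ_cond p1 p2 rfl c1 c2
    have h6 : e.2.2.2.2 ≤ tabVal tab n p := tabVal_ge hmem q1 q2
    have h6' : (e.2.2.2.2 : ℤ) ≤ (tabVal tab n p : ℤ) := by exact_mod_cast h6
    exact h5.trans h6'
  by_cases hN : n / p = 0
  · have hnp : n < p := by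
      rwa [Nat.div_eq_zero_iff_lt hp0] at hN
    have hmn : n % p = n := Nat.mod_eq_of_lt hnp
    by_cases h24 : n * 24 < 1 * p
    · obtain ⟨e, he, c1, c2⟩ := cover T0 1 83 1 24 chain_T0 n p (by omega) h24
      have hok := ok_T0' e he
      unfold okCellF at hok
      rw [Bool.and_eq_true] at hok
      obtain ⟨p1, p2, -⟩ := sameb_pos hok.1
      rw [← hmn] at c1 c2
      obtain ⟨hS, hb⟩ := same_of hok.1 c1 c2 hnm
      have hY : l / p ≤ 2 := by
        have : l ≤ 55 * n := (Finset.mem_Icc.1 hl).2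
        have : l / p < 3 := by
          rw [Nat.div_lt_iff_lt_mul hp0]
          omega
        omega
      have h5 := bnd_full l hp0 hb hnp hS hl hY _ hok.2
      obtain ⟨q1, q2⟩ := toQ_cond p1 p2 hN c1 c2
      have hmem : toQ 0 e ∈ tab := by
        unfold tab
        exact List.mem_append_left _ (List.mem_map_of_mem he)
      have h6 : e.2.2.2.2 ≤ tabVal tab n p := tabVal_ge hmem q1 q2
      have h6' : (e.2.2.2.2 : ℤ) ≤ (tabVal tab n p : ℤ) := by exact_mod_cast h6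
      exact h5.trans h6'
    · obtain ⟨e, he, c1, c2⟩ := cover T1b 1 24 1 1 chain_T1b n p (by omega) (by omega)
      rw [← hmn] at c1 c2
      refine hcell e (List.mem_append_right _ he) c1 c2 ?_
      rw [hN]
      unfold tab
      exact List.mem_append_right _ (List.mem_append_left _ (List.mem_map_of_mem he))
  · obtain ⟨e, he, c1, c2⟩ := cover (T1a ++ T1b) 0 1 1 1 chain_T1 (n % p) p (by omega) (by omega)
    refine hcell e he c1 c2 ?_
    unfold tab
    refine List.mem_append_right _ (List.mem_append_right _ ?_)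
    rw [List.mem_flatMap]
    refine ⟨n / p - 1, List.mem_range.2 (by omega), ?_⟩
    rw [Nat.sub_add_cancel (Nat.one_le_iff_ne_zero.2 hN)]
    exact List.mem_map_of_mem he

/-! ### the integral -/

theorem ub_spec {N : ℕ} {e : ℕ × ℕ × ℕ × ℕ × ℕ} (hb1 : 0 < e.2.1) (hb2 : 0 < e.2.2.2.1)
    (hlt : e.1 * e.2.2.2.1 < e.2.2.1 * e.2.1) (hpos : 0 < N * e.2.1 + e.1) :
    0 < (toQ N e).1 ∧ (toQ N e).1 < (toQ N e).2.1 ∧
    ((toQ N e).2.2 : ℚ) * (1 / (toQ N e).1 - 1 / (toQ N e).2.1) ≤ (ub N e : ℚ) / 1000000000 := by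
  obtain ⟨a1, b1, a2, b2, d⟩ := e
  simp only at hb1 hb2 hlt hpos
  have hb1' : (0 : ℚ) < b1 := by exact_mod_cast hb1
  have hb2' : (0 : ℚ) < b2 := by exact_mod_cast hb2
  have hlt' : (a1 : ℚ) * b2 < a2 * b1 := by exact_mod_cast hlt
  have hpos' : (0 : ℚ) < N * b1 + a1 := by exact_mod_cast hpos
  have ha2 : 0 < a2 := by
    rcases Nat.eq_zero_or_pos a2 with rfl | h
    · simp at hlt
    · exact h
  have hpos2 : (0 : ℚ) < N * b2 + a2 := by
    have : (0 : ℚ) < a2 := by exact_mod_cast ha2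
    positivity
  have hx1 : (N : ℚ) + a1 / b1 = (N * b1 + a1) / b1 := by field_simp
  have hx2 : (N : ℚ) + a2 / b2 = (N * b2 + a2) / b2 := by field_simp
  have hxx : (a1 : ℚ) / b1 < a2 / b2 := by
    rw [div_lt_div_iff₀ hb1' hb2']
    exact hlt'
  refine ⟨?_, ?_, ?_⟩
  · simp only [toQ]
    rw [hx1]
    positivity
  · simp only [toQ]
    linarith
  · simp only [toQ, ub]
    rw [hx1, hx2, one_div_div, one_div_div, Nat.cast_mul, mul_div_assoc]
    apply mul_le_mul_of_nonneg_left _ (Nat.cast_nonneg d)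
    rw [le_div_iff₀ (by norm_num)]
    have g1 : (b1 : ℚ) / (N * b1 + a1) * 1000000000 ≤
        ((1000000000 * b1 / (N * b1 + a1) : ℕ) : ℚ) + 1 := by
      rw [div_mul_eq_mul_div, div_le_iff₀ hpos']
      have := Nat.lt_mul_div_succ (1000000000 * b1) hpos
      have h' : ((1000000000 * b1 : ℕ) : ℚ) <
          ((N * b1 + a1) * (1000000000 * b1 / (N * b1 + a1) + 1) : ℕ) := by exact_mod_cast this
      push_cast at h' ⊢
      linarith
    have g2 : ((1000000000 * b2 / (N * b2 + a2) : ℕ) : ℚ) ≤ (b2 : ℚ) / (N * b2 + a2) * 1000000000 := by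
      have := Nat.cast_div_le (α := ℚ) (m := 1000000000 * b2) (n := N * b2 + a2)
      rw [div_mul_eq_mul_div, mul_comm (b2 : ℚ)]
      push_cast at this ⊢
      exact this
    have g3 : ∀ x y : ℕ, (x : ℚ) + 1 - (y : ℚ) ≤ ((x + 1 - y : ℕ) : ℚ) := by
      intro x y
      have h' : ((x + 1 : ℕ) : ℤ) - (y : ℤ) ≤ ((x + 1 - y : ℕ) : ℤ) := by omega
      have h'' : ((((x + 1 : ℕ) : ℤ) - (y : ℤ) : ℤ) : ℚ) ≤ (((x + 1 - y : ℕ) : ℤ) : ℚ) := by
        exact_mod_cast h'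
      push_cast at h''
      exact h''
    have g3 := g3 (1000000000 * b1 / (N * b1 + a1)) (1000000000 * b2 / (N * b2 + a2))
    rw [sub_mul]
    linarith

theorem list_spec (N : ℕ) (l : List (ℕ × ℕ × ℕ × ℕ × ℕ))
    (hs : ∀ e ∈ l, sameb e.1 e.2.1 e.2.2.1 e.2.2.2.1 = true)
    (hpos : ∀ e ∈ l, 0 < N * e.2.1 + e.1) :
    tabInt (l.map (toQ N)) ≤ (sumUb N l : ℚ) / 1000000000 := by
  unfold tabInt
  induction l with
  | nil => simp [sumUb]
  | cons e l ih =>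
    have h1 : sumUb N (e :: l) = ub N e + sumUb N l := rfl
    rw [h1, List.map_cons, List.map_cons, List.sum_cons]
    obtain ⟨q1, q2, q3⟩ := sameb_pos (hs e (by simp))
    have h2 := (ub_spec (N := N) q1 q2 q3 (hpos e (by simp))).2.2
    have h3 := ih (fun e he => hs e (by simp [he])) (fun e he => hpos e (by simp [he]))
    push_cast
    rw [add_div]
    exact add_le_add h2 h3

theorem sameb_T1 : ∀ e ∈ T1a ++ T1b, sameb e.1 e.2.1 e.2.2.1 e.2.2.2.1 = true := by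
  intro e he
  have := ok_T1 e he
  unfold okCell at this
  rw [Bool.and_eq_true] at this
  exact this.1

theorem sameb_T0 : ∀ e ∈ T0, sameb e.1 e.2.1 e.2.2.1 e.2.2.2.1 = true := by
  intro e he
  have := ok_T0' e he
  unfold okCellF at this
  rw [Bool.and_eq_true] at this
  exact this.1

theorem pos_T0' : ∀ e ∈ T0, 0 < 0 * e.2.1 + e.1 := by
  have h := pos_T0
  rw [List.all_eq_true] at h
  intro e he
  have := h e he
  rw [Nat.blt_eq] at this
  omega

theorem pos_T1b' : ∀ e ∈ T1b, 0 < 0 * e.2.1 + e.1 := by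
  have h := pos_T1b
  rw [List.all_eq_true] at h
  intro e he
  have := h e he
  rw [Nat.blt_eq] at this
  omega

theorem pos_T1' (N : ℕ) : ∀ e ∈ T1a ++ T1b, 0 < (N + 1) * e.2.1 + e.1 := by
  intro e he
  obtain ⟨q1, q2, q3⟩ := sameb_pos (sameb_T1 e he)
  positivity

theorem tab_pos : ∀ e ∈ tab, 0 < e.1 ∧ e.1 < e.2.1 := by
  intro e he
  unfold tab at he
  rw [List.mem_append, List.mem_append, List.mem_flatMap] at he
  rcases he with he | he | ⟨i, -, he⟩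
  · rw [List.mem_map] at he
    obtain ⟨c, hc, rfl⟩ := he
    obtain ⟨q1, q2, q3⟩ := sameb_pos (sameb_T0 c hc)
    have := ub_spec (N := 0) q1 q2 q3 (pos_T0' c hc)
    exact ⟨this.1, this.2.1⟩
  · rw [List.mem_map] at he
    obtain ⟨c, hc, rfl⟩ := he
    obtain ⟨q1, q2, q3⟩ := sameb_pos (sameb_T1 c (List.mem_append_right _ hc))
    have := ub_spec (N := 0) q1 q2 q3 (pos_T1b' c hc)
    exact ⟨this.1, this.2.1⟩
  · rw [List.mem_map] at he
    obtain ⟨c, hc, rfl⟩ := he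
    obtain ⟨q1, q2, q3⟩ := sameb_pos (sameb_T1 c hc)
    have := ub_spec (N := i + 1) q1 q2 q3 (pos_T1' i c hc)
    exact ⟨this.1, this.2.1⟩

theorem tabInt_append (s t : List (ℚ × ℚ × ℕ)) : tabInt (s ++ t) = tabInt s + tabInt t := by
  unfold tabInt
  rw [List.map_append, List.sum_append]

theorem tabInt_nil : tabInt [] = 0 := rfl

theorem ble_rat {x y : ℕ} (h : Nat.ble x y = true) : (x : ℚ) / 1000000000 ≤ (y : ℚ) / 1000000000 := by
  have : (x : ℚ) ≤ y := by exact_mod_cast Nat.le_of_ble_eq_true h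
  gcongr

theorem tabInt_tab : tabInt tab ≤ 378893 / 1000 := by
  unfold tab
  rw [tabInt_append, tabInt_append]
  have e : (List.range 9).flatMap (fun i => (T1a ++ T1b).map (toQ (i + 1))) =
      (T1a ++ T1b).map (toQ 1) ++ ((T1a ++ T1b).map (toQ 2) ++ ((T1a ++ T1b).map (toQ 3) ++
      ((T1a ++ T1b).map (toQ 4) ++ ((T1a ++ T1b).map (toQ 5) ++ ((T1a ++ T1b).map (toQ 6) ++
      ((T1a ++ T1b).map (toQ 7) ++ ((T1a ++ T1b).map (toQ 8) ++ ((T1a ++ T1b).map (toQ 9) ++ [])))))))) := by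
    rw [show List.range 9 = [0, 1, 2, 3, 4, 5, 6, 7, 8] by decide]
    rfl
  rw [e]
  simp only [tabInt_append, tabInt_nil]
  have a0 := (list_spec 0 T0 sameb_T0 pos_T0').trans (ble_rat num_T0)
  have a0' := (list_spec 0 T1b (fun e he => sameb_T1 e (List.mem_append_right _ he)) pos_T1b').trans
    (ble_rat num_T1b)
  have a1 := (list_spec 1 _ sameb_T1 (pos_T1' 0)).trans (ble_rat num_1)
  have a2 := (list_spec 2 _ sameb_T1 (pos_T1' 1)).trans (ble_rat num_2)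
  have a3 := (list_spec 3 _ sameb_T1 (pos_T1' 2)).trans (ble_rat num_3)
  have a4 := (list_spec 4 _ sameb_T1 (pos_T1' 3)).trans (ble_rat num_4)
  have a5 := (list_spec 5 _ sameb_T1 (pos_T1' 4)).trans (ble_rat num_5)
  have a6 := (list_spec 6 _ sameb_T1 (pos_T1' 5)).trans (ble_rat num_6)
  have a7 := (list_spec 7 _ sameb_T1 (pos_T1' 6)).trans (ble_rat num_7)
  have a8 := (list_spec 8 _ sameb_T1 (pos_T1' 7)).trans (ble_rat num_8)
  have a9 := (list_spec 9 _ sameb_T1 (pos_T1' 8)).trans (ble_rat num_9)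
  norm_num at a0 a0' a1 a2 a3 a4 a5 a6 a7 a8 a9 ⊢
  linarith

end Tab

open Tab in
/-- Module D: the finite table and the sum over primes -/
theorem sum_bound : ∃ d : ℕ → ℕ → ℕ, ∃ N : ℕ, ∀ n ≥ N, n.Prime →
    (∀ p : ℕ, p.Prime → p ≠ n → 83 * n < p ^ 2 → p ≤ 83 * n → ∀ l ∈ poles n, bnd n l p ≤ d n p) ∧
    ∑ p ∈ (Finset.Icc 1 (83 * n)).filter (fun p => p.Prime ∧ 83 * n < p ^ 2 ∧ p ≠ n),
      (d n p : ℝ) * Real.log p ≤ (3804 / 10 : ℝ) * n := by
  have hA : (tabInt tab : ℝ) + ((13 : ℕ) : ℝ) / ((10 : ℕ) : ℝ) < (3804 / 10 : ℝ) := by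
    have h : ((tabInt tab : ℚ) : ℝ) ≤ ((378893 / 1000 : ℚ) : ℝ) := by exact_mod_cast tabInt_tab
    push_cast at h ⊢
    linarith
  obtain ⟨N, hN⟩ := sum_primes_le tab tab_pos 10 13 (by norm_num) _ hA
  refine ⟨fun n p => tabVal tab n p + (if 10 * p ≤ n then 13 else 0), max N 84, fun n hn hnp => ⟨?_, ?_⟩⟩
  · intro p hp hne h1 h2 l hl
    exact bnd_tab hnp hp hne (le_trans (le_max_right _ _) hn) h1 h2 hl
  · refine le_trans ?_ (hN n (le_trans (le_max_left _ _) hn) (83 * n))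
    apply Finset.sum_le_sum_of_subset_of_nonneg
    · intro p hp
      rw [Finset.mem_filter] at hp ⊢
      exact ⟨hp.1, hp.2.1⟩
    · intro p _ _
      exact mul_nonneg (Nat.cast_nonneg _) (Real.log_natCast_nonneg p)

end Pool.Agent.OddZeta
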