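import Pool.Agent.OddZeta.Assembly
import Pool.Agent.OddZeta.Table
import Pool.Agent.OddZeta.OneNe
import Pool.Agent.OddZeta.ZetaTail

/-!
# At least one of `ζ(5)`, `ζ(7)`, `ζ(9)` is irrational

The proof uses the very-well-poised rational function with zero blocks of three different lengths,

`R n t = (2 t + 83 n) * ∏_{h ∈ [25, 35]} ((83 - 2 h) n)! / ∏_{m ∈ [h n, (83 - h) n]} (t + m)
       * ∏_{h ∈ {0, 3, 6}} ∏_{m ∈ [h n, (83 - h) n]} (t + m) / ((83 - 2 h) n)!`,

and the linear forms `S n = ∑_{t > - 25 n} R''(t) / 2` in `1, ζ(5), ζ(7), ζ(9)` for prime `n`.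
The size of `S n` comes from a contour integral, the denominators from the exact `p`-adic valuations
(with the prime number theorem), and the nonvanishing of the integer in question from its
`n`-adic valuation.

Seats: helper7 (construction, nonvanishing, assembly), helper57 (table), helper30 (size),
helper88 (contour, PNT), helper91 (linear form), helper75 (p-adic bounds), helper8 (`rho0 1`).
-/

namespace Pool.Agent.OddZeta.FiveSevenNine

open Pool.Agent.OddZeta

/-- At least one of `ζ(5)`, `ζ(7)`, `ζ(9)` is irrational. -/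
theorem zeta_five_seven_nine : ∃ s ∈ ({5, 7, 9} : Finset ℕ), ∃ x : ℝ, riemannZeta (s : ℂ) = (x : ℂ) ∧ Irrational x := by
  by_contra hcon
  push Not at hcon
  have h : ∀ s ∈ ({5, 7, 9} : Finset ℕ), ∃ q : ℚ, tail s 0 = q := by
    intro s hs
    have hs1 : 1 < s := by
      simp only [Finset.mem_insert, Finset.mem_singleton] at hs
      omega
    have h1 := hcon s hs (tail s 0) (riemannZeta_eq_tail s hs1)
    rw [Irrational] at h1
    push Not at h1
    obtain ⟨q, hq⟩ := h1
    exact ⟨q, hq.symm⟩
  obtain ⟨q5, h5⟩ := h 5 (by decide)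
  obtain ⟨q7, h7⟩ := h 7 (by decide)
  obtain ⟨q9, h9⟩ := h 9 (by decide)
  exact main_of sum_bound rho0_one_ne q5 q7 q9 h5 h7 h9

end Pool.Agent.OddZeta.FiveSevenNine
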