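import Mathlib

/-!
Power series over `ℚ` with `p`-integral coefficients, and congruences modulo `p`.
Seat: helper7.
-/

open Finset

namespace Pool.Agent.OddZeta

/-- all coefficients are `p`-integral -/
def PInt (p : ℕ) (f : PowerSeries ℚ) : Prop :=
  ∀ k, padicNorm p (PowerSeries.coeff k f) ≤ 1

/-- congruence modulo `p` -/
def PCong (p : ℕ) (f g : PowerSeries ℚ) : Prop :=
  ∀ k, padicNorm p (PowerSeries.coeff k (f - g)) ≤ (p : ℚ)⁻¹

variable {p : ℕ} [hp : Fact p.Prime]

omit hp in
theorem p_inv_nonneg : (0 : ℚ) ≤ (p : ℚ)⁻¹ := by positivity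

theorem padicNorm_self : padicNorm p (p : ℚ) = (p : ℚ)⁻¹ := padicNorm.padicNorm_p_of_prime

theorem padicNorm_inv (x : ℚ) : padicNorm p x⁻¹ = (padicNorm p x)⁻¹ := by
  rw [inv_eq_one_div, padicNorm.div, padicNorm.one, one_div]

omit hp in
theorem pint_one : PInt p 1 := by
  intro k
  rw [PowerSeries.coeff_one]
  split_ifs
  · rw [padicNorm.one]
  · rw [padicNorm.zero]; norm_num

theorem pint_add {f g : PowerSeries ℚ} (hf : PInt p f) (hg : PInt p g) : PInt p (f + g) := by
  intro k
  rw [map_add]
  exact (padicNorm.nonarchimedean).trans (max_le (hf k) (hg k))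

theorem pint_mul {f g : PowerSeries ℚ} (hf : PInt p f) (hg : PInt p g) : PInt p (f * g) := by
  intro k
  rw [PowerSeries.coeff_mul]
  refine padicNorm.sum_le' ?_ zero_le_one
  intro x _
  rw [padicNorm.mul]
  exact mul_le_one₀ (hf _) (padicNorm.nonneg _) (hg _)

omit hp in
theorem pint_C {x : ℚ} (hx : padicNorm p x ≤ 1) : PInt p (PowerSeries.C x) := by
  intro k
  rw [PowerSeries.coeff_C]
  split_ifs
  · exact hx
  · rw [padicNorm.zero]; norm_num

omit hp in
theorem pint_X : PInt p (PowerSeries.X : PowerSeries ℚ) := by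
  intro k
  rw [PowerSeries.coeff_X]
  split_ifs
  · rw [padicNorm.one]
  · rw [padicNorm.zero]; norm_num

theorem pint_prod {ι : Type*} (s : Finset ι) (f : ι → PowerSeries ℚ) (h : ∀ i ∈ s, PInt p (f i)) :
    PInt p (∏ i ∈ s, f i) := by
  classical
  induction s using Finset.induction_on with
  | empty => simpa using pint_one
  | insert i s his ih =>
    rw [Finset.prod_insert his]
    exact pint_mul (h i (Finset.mem_insert_self _ _))
      (ih (fun j hj => h j (Finset.mem_insert_of_mem hj)))

theorem pint_inv {f : PowerSeries ℚ} (hf : PInt p f)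
    (h0 : padicNorm p (PowerSeries.constantCoeff f) = 1) : PInt p f⁻¹ := by
  intro k
  induction k using Nat.strong_induction_on with
  | _ k ih =>
    rw [PowerSeries.coeff_inv]
    split_ifs with hk
    · rw [padicNorm_inv, h0, inv_one]
    · rw [padicNorm.mul, padicNorm.neg, padicNorm_inv, h0, inv_one, one_mul]
      refine padicNorm.sum_le' ?_ zero_le_one
      intro x _
      split_ifs with hx
      · rw [padicNorm.mul]
        exact mul_le_one₀ (hf _) (padicNorm.nonneg _) (ih _ hx)
      · rw [padicNorm.zero]; norm_num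

omit hp in
theorem pcong_refl (f : PowerSeries ℚ) : PCong p f f := by
  intro k
  rw [sub_self, map_zero, padicNorm.zero]
  exact p_inv_nonneg

omit hp in
theorem pcong_symm {f g : PowerSeries ℚ} (h : PCong p f g) : PCong p g f := by
  intro k
  have := h k
  rwa [← neg_sub, map_neg, padicNorm.neg]

theorem pcong_trans {f g k : PowerSeries ℚ} (h : PCong p f g) (h' : PCong p g k) : PCong p f k := by
  intro j
  have e : f - k = (f - g) + (g - k) := by ring
  rw [e, map_add]
  exact (padicNorm.nonarchimedean).trans (max_le (h j) (h' j))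

theorem coeff_mul_le {f g : PowerSeries ℚ} (hf : PInt p f)
    (hg : ∀ k, padicNorm p (PowerSeries.coeff k g) ≤ (p : ℚ)⁻¹) (k : ℕ) :
    padicNorm p (PowerSeries.coeff k (f * g)) ≤ (p : ℚ)⁻¹ := by
  rw [PowerSeries.coeff_mul]
  refine padicNorm.sum_le' ?_ p_inv_nonneg
  intro x _
  rw [padicNorm.mul]
  calc padicNorm p (PowerSeries.coeff x.1 f) * padicNorm p (PowerSeries.coeff x.2 g)
      ≤ 1 * (p : ℚ)⁻¹ := mul_le_mul (hf _) (hg _) (padicNorm.nonneg _) zero_le_one
    _ = _ := one_mul _

theorem pcong_mul {f f' g g' : PowerSeries ℚ} (hf : PInt p f) (hg : PInt p g')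
    (h : PCong p f f') (h' : PCong p g g') : PCong p (f * g) (f' * g') := by
  intro k
  have e : f * g - f' * g' = f * (g - g') + g' * (f - f') := by ring
  rw [e, map_add]
  exact (padicNorm.nonarchimedean).trans (max_le (coeff_mul_le hf h' k) (coeff_mul_le hg h k))

theorem pint_of_pcong_one {f : PowerSeries ℚ} (h : PCong p f 1) : PInt p f := by
  intro k
  have e : f = (f - 1) + 1 := by ring
  rw [e, map_add]
  refine (padicNorm.nonarchimedean).trans (max_le ((h k).trans ?_) (pint_one k))
  rw [← padicNorm_self]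
  exact padicNorm.of_nat _

theorem p_inv_lt_one : (p : ℚ)⁻¹ < 1 := by
  have : (1 : ℚ) < p := by exact_mod_cast hp.out.one_lt
  exact inv_lt_one_of_one_lt₀ this

/-- a rational congruent to a unit is a unit -/
theorem norm_eq_one_of_close {x y : ℚ} (hy : padicNorm p y = 1)
    (h : padicNorm p (x - y) ≤ (p : ℚ)⁻¹) : padicNorm p x = 1 := by
  have e : x = (x - y) + y := by ring
  rw [e]
  have hlt : padicNorm p (x - y) < padicNorm p y := by
    rw [hy]; exact h.trans_lt p_inv_lt_one
  rw [padicNorm.add_eq_max_of_ne hlt.ne, max_eq_right hlt.le, hy]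

theorem constantCoeff_norm_of_pcong_one {f : PowerSeries ℚ} (h : PCong p f 1) :
    padicNorm p (PowerSeries.constantCoeff f) = 1 := by
  have := h 0
  rw [map_sub, PowerSeries.coeff_zero_eq_constantCoeff_apply,
    PowerSeries.coeff_zero_eq_constantCoeff_apply] at this
  refine norm_eq_one_of_close (y := 1) (by rw [padicNorm.one]) ?_
  simpa using this

omit hp in
theorem ne_zero_of_norm_one {x : ℚ} (h : padicNorm p x = 1) : x ≠ 0 := by
  rintro rfl
  rw [padicNorm.zero] at h
  exact zero_ne_one h

theorem pcong_one_prod {ι : Type*} (s : Finset ι) (f : ι → PowerSeries ℚ)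
    (h : ∀ i ∈ s, PCong p (f i) 1) : PCong p (∏ i ∈ s, f i) 1 := by
  classical
  induction s using Finset.induction_on with
  | empty => simpa using pcong_refl (p := p) (1 : PowerSeries ℚ)
  | insert i s his ih =>
    rw [Finset.prod_insert his]
    have h1 := h i (Finset.mem_insert_self _ _)
    have h2 := ih (fun j hj => h j (Finset.mem_insert_of_mem hj))
    have := pcong_mul (pint_of_pcong_one h1) pint_one h1 h2
    simpa using this

theorem pcong_one_inv {f : PowerSeries ℚ} (h : PCong p f 1) : PCong p f⁻¹ 1 := by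
  have hc : PowerSeries.constantCoeff f ≠ 0 :=
    ne_zero_of_norm_one (constantCoeff_norm_of_pcong_one h)
  have hi : PInt p f⁻¹ := pint_inv (pint_of_pcong_one h) (constantCoeff_norm_of_pcong_one h)
  intro k
  have e : f⁻¹ - 1 = f⁻¹ * (1 - f) := by
    rw [mul_sub, mul_one, PowerSeries.inv_mul_cancel f hc]
  rw [e]
  exact coeff_mul_le hi (pcong_symm h) k

/-- inverse of a product -/
theorem ps_prod_inv {ι : Type*} (s : Finset ι) (f : ι → PowerSeries ℚ) :
    (∏ i ∈ s, f i)⁻¹ = ∏ i ∈ s, (f i)⁻¹ := by
  classical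
  induction s using Finset.induction_on with
  | empty => simp
  | insert i s his ih =>
    rw [Finset.prod_insert his, Finset.prod_insert his, PowerSeries.mul_inv_rev, ih, mul_comm]

/-- rescaling and inverses -/
theorem rescale_inv (c : ℚ) {f : PowerSeries ℚ} (hf : PowerSeries.constantCoeff f ≠ 0) :
    PowerSeries.rescale c f⁻¹ = (PowerSeries.rescale c f)⁻¹ := by
  have h0 : PowerSeries.constantCoeff (PowerSeries.rescale c f) ≠ 0 := by
    rw [← PowerSeries.coeff_zero_eq_constantCoeff_apply, PowerSeries.coeff_rescale,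
      PowerSeries.coeff_zero_eq_constantCoeff_apply, pow_zero, one_mul]
    exact hf
  rw [PowerSeries.eq_inv_iff_mul_eq_one h0, ← map_mul, PowerSeries.inv_mul_cancel f hf, map_one]

theorem rescale_C (c x : ℚ) : PowerSeries.rescale c (PowerSeries.C x) = PowerSeries.C x := by
  ext k
  rw [PowerSeries.coeff_rescale, PowerSeries.coeff_C]
  split_ifs with h
  · subst h; simp
  · simp

theorem rescale_X' (c : ℚ) :
    PowerSeries.rescale c (PowerSeries.X : PowerSeries ℚ) = PowerSeries.C c * PowerSeries.X := by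
  rw [PowerSeries.rescale_X]

end Pool.Agent.OddZeta
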