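import Mathlib

set_option autoImplicit false

/-!
# The one variable inequality for the size of the linear forms

Seat: helper30.  `GG η - 2 π η ≤ -380.75 - η / 100` for `η > 0`.
-/

namespace Pool.Agent.OddZeta

open Real Set

/-- list of pairs `(2 lo, 2 hi) = (2h-15, 151-2h)`, `h ∈ {25,...,35}` -/
def PL : List (ℕ × ℕ) :=
  [(35, 101), (37, 99), (39, 97), (41, 95), (43, 93), (45, 91), (47, 89), (49, 87), (51, 85), (53, 83), (55, 81)]

/-- list of pairs `(-2 lo, 2 hi) = (15-2h, 151-2h)`, `h ∈ {0,3,6}` -/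
def ML : List (ℕ × ℕ) := [(15, 151), (9, 145), (3, 139)]

/-- `w c η = (c/2) log(c^2+η^2) + η arctan(c/η)` -/
noncomputable def w (c η : ℝ) : ℝ := c / 2 * log (c ^ 2 + η ^ 2) + η * arctan (c / η)

theorem hasDerivAt_arctan_div {c η : ℝ} (hη : 0 < η) :
    HasDerivAt (fun x => arctan (c / x)) (-c / (c ^ 2 + η ^ 2)) η := by
  have h1 : HasDerivAt (fun x : ℝ => c / x) (-c / η ^ 2) η := by
    refine ((hasDerivAt_const η c).div (hasDerivAt_id η) hη.ne').congr_deriv ?_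
    simp
  refine h1.arctan.congr_deriv ?_
  have : 0 < η ^ 2 := by positivity
  have h3 : 0 < c ^ 2 + η ^ 2 := by positivity
  field_simp
  ring

theorem hasDerivAt_w {c η : ℝ} (hη : 0 < η) : HasDerivAt (w c) (arctan (c / η)) η := by
  have hpos : 0 < c ^ 2 + η ^ 2 := by positivity
  have h1 : HasDerivAt (fun x : ℝ => c ^ 2 + x ^ 2) (2 * η) η := by
    refine (((hasDerivAt_id η).pow 2).const_add (c ^ 2)).congr_deriv ?_
    simp
  have h2 := (h1.log hpos.ne').const_mul (c / 2)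
  have h3 := (hasDerivAt_id η).mul (hasDerivAt_arctan_div (c := c) hη)
  refine (h2.add h3).congr_deriv ?_
  simp only [id]
  field_simp
  ring

/-- tangent line bound for functions with antitone derivative -/
theorem tangent {f f' : ℝ → ℝ} {A : ℝ} (hf : ∀ x, 0 < x → x ≤ A → HasDerivAt f (f' x) x)
    (hanti : ∀ x y, 0 < x → x ≤ y → y ≤ A → f' y ≤ f' x) {x₀ x : ℝ} (h0 : 0 < x₀) (h0A : x₀ ≤ A) (hx : 0 < x)
    (hxA : x ≤ A) : f x ≤ f x₀ + f' x₀ * (x - x₀) := by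
  rcases lt_trichotomy x x₀ with h | h | h
  · obtain ⟨ξ, hξ, h1⟩ := exists_hasDerivAt_eq_slope f f' h
      (fun y hy => (hf y (hx.trans_le hy.1) (hy.2.trans h0A)).continuousAt.continuousWithinAt)
      (fun y hy => hf y (hx.trans hy.1) (hy.2.le.trans h0A))
    have h2 : f x₀ - f x = f' ξ * (x₀ - x) := by
      rw [h1]; field_simp [sub_ne_zero.2 h.ne']
    have h3 := hanti ξ x₀ (hx.trans hξ.1) hξ.2.le h0A
    nlinarith
  · rw [h]; simp
  · obtain ⟨ξ, hξ, h1⟩ := exists_hasDerivAt_eq_slope f f' h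
      (fun y hy => (hf y (h0.trans_le hy.1) (hy.2.trans hxA)).continuousAt.continuousWithinAt)
      (fun y hy => hf y (h0.trans hy.1) (hy.2.le.trans hxA))
    have h2 : f x - f x₀ = f' ξ * (x - x₀) := by
      rw [h1]; field_simp [sub_ne_zero.2 h.ne']
    have h3 := hanti x₀ ξ h0 hξ.1.le (hξ.2.le.trans hxA)
    nlinarith

theorem w_tangent {c x₀ x : ℝ} (hc : 0 < c) (h0 : 0 < x₀) (hx : 0 < x) :
    w c x ≤ c / 2 * log (c ^ 2 + x₀ ^ 2) + x * arctan (c / x₀) := by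
  have h := tangent (f := w c) (f' := fun η => arctan (c / η)) (A := max x₀ x)
    (fun y hy _ => hasDerivAt_w hy) (fun y z hy hyz _ => arctan_mono (by gcongr)) h0 (le_max_left _ _) hx
    (le_max_right _ _)
  refine h.trans (le_of_eq ?_)
  rw [w]; ring

theorem wdiff_tangent {a b A x₀ x : ℝ} (ha : 0 < a) (hab : a ≤ b) (hA : A ^ 2 ≤ a * b) (h0 : 0 < x₀) (h0A : x₀ ≤ A)
    (hx : 0 < x) (hxA : x ≤ A) :
    w a x - w b x ≤ a / 2 * log (a ^ 2 + x₀ ^ 2) - b / 2 * log (b ^ 2 + x₀ ^ 2) +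
      x * (arctan (a / x₀) - arctan (b / x₀)) := by
  have hApos : 0 < A := h0.trans_le h0A
  have hanti : AntitoneOn (fun η => arctan (a / η) - arctan (b / η)) (Ioc 0 A) := by
    have hd : ∀ y : ℝ, 0 < y → HasDerivAt (fun η => arctan (a / η) - arctan (b / η))
        (-a / (a ^ 2 + y ^ 2) - -b / (b ^ 2 + y ^ 2)) y := fun y hy =>
      (hasDerivAt_arctan_div hy).sub (hasDerivAt_arctan_div hy)
    apply antitoneOn_of_deriv_nonpos (convex_Ioc 0 A)
    · exact fun y hy => (hd y hy.1).continuousAt.continuousWithinAt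
    · intro y hy
      rw [interior_Ioc] at hy
      exact (hd y hy.1).differentiableAt.differentiableWithinAt
    · intro y hy
      rw [interior_Ioc] at hy
      rw [(hd y hy.1).deriv]
      have hb : 0 < b := ha.trans_le hab
      have hy0 := hy.1
      have h1 : 0 < a ^ 2 + y ^ 2 := by positivity
      have h2 : 0 < b ^ 2 + y ^ 2 := by positivity
      have h3 : y ^ 2 ≤ a * b := by
        have : y ^ 2 ≤ A ^ 2 := by
          have := hy.2.le
          gcongr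
        linarith
      rw [div_sub_div _ _ h1.ne' h2.ne']
      apply div_nonpos_of_nonpos_of_nonneg _ (by positivity)
      have h4 : 0 ≤ (b - a) * (a * b - y ^ 2) := mul_nonneg (by linarith) (by linarith)
      nlinarith
  have h := tangent (f := fun η => w a η - w b η) (f' := fun η => arctan (a / η) - arctan (b / η)) (A := A)
    (fun y hy _ => (hasDerivAt_w hy).sub (hasDerivAt_w hy))
    (fun y z hy hyz hz => hanti ⟨hy, hyz.trans hz⟩ ⟨hy.trans_le hyz, hz⟩ hyz) h0 h0A hx hxA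
  refine h.trans (le_of_eq ?_)
  simp only [w]
  ring

/-- the exponent function -/
noncomputable def GG (η : ℝ) : ℝ :=
  (PL.map fun p => ((p.2 : ℝ) / 2 - (p.1 : ℝ) / 2) * log ((p.2 : ℝ) / 2 - (p.1 : ℝ) / 2) + w ((p.1 : ℝ) / 2) η -
    w ((p.2 : ℝ) / 2) η).sum -
    (ML.map fun p => ((p.2 : ℝ) / 2 + (p.1 : ℝ) / 2) * log ((p.2 : ℝ) / 2 + (p.1 : ℝ) / 2) - w ((p.1 : ℝ) / 2) η -
    w ((p.2 : ℝ) / 2) η).sum

theorem arctan_le_self' {x : ℝ} (hx : 0 ≤ x) : arctan x ≤ x := by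
  have hd : ∀ y : ℝ, HasDerivAt (fun y => y - arctan y) (1 - 1 / (1 + y ^ 2)) y := fun y =>
    (hasDerivAt_id y).sub (hasDerivAt_arctan y)
  have hm : Monotone (fun y : ℝ => y - arctan y) := by
    apply monotone_of_deriv_nonneg (fun y => (hd y).differentiableAt)
    intro y
    rw [(hd y).deriv]
    have : 0 < 1 + y ^ 2 := by positivity
    rw [sub_nonneg, div_le_one this]
    nlinarith [sq_nonneg y]
  have := hm hx
  simp only [arctan_zero, sub_zero] at this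
  linarith

theorem arctan_le5 {x : ℝ} (hx : 0 ≤ x) : arctan x ≤ x - x ^ 3 / 3 + x ^ 5 / 5 := by
  have hd : ∀ y : ℝ, HasDerivAt (fun y => (y - y ^ 3 / 3 + y ^ 5 / 5) - arctan y)
      ((1 - 3 * y ^ 2 * 1 / 3 + 5 * y ^ 4 * 1 / 5) - 1 / (1 + y ^ 2)) y := by
    intro y
    exact (((hasDerivAt_id y).sub (((hasDerivAt_id y).pow 3).div_const 3)).add
      (((hasDerivAt_id y).pow 5).div_const 5)).sub (hasDerivAt_arctan y)
  have hm : Monotone (fun y : ℝ => (y - y ^ 3 / 3 + y ^ 5 / 5) - arctan y) := by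
    apply monotone_of_deriv_nonneg (fun y => (hd y).differentiableAt)
    intro y
    rw [(hd y).deriv]
    have h1 : 0 < 1 + y ^ 2 := by positivity
    have h2 : (1 - 3 * y ^ 2 * 1 / 3 + 5 * y ^ 4 * 1 / 5) - 1 / (1 + y ^ 2) = y ^ 6 / (1 + y ^ 2) := by
      field_simp
      ring
    rw [h2]
    positivity
  have := hm hx
  simp only [arctan_zero] at this
  norm_num at this
  linarith

theorem le_arctan7 {x : ℝ} (hx : 0 ≤ x) : x - x ^ 3 / 3 + x ^ 5 / 5 - x ^ 7 / 7 ≤ arctan x := by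
  have hd : ∀ y : ℝ, HasDerivAt (fun y => arctan y - (y - y ^ 3 / 3 + y ^ 5 / 5 - y ^ 7 / 7))
      (1 / (1 + y ^ 2) - (1 - 3 * y ^ 2 * 1 / 3 + 5 * y ^ 4 * 1 / 5 - 7 * y ^ 6 * 1 / 7)) y := by
    intro y
    exact (hasDerivAt_arctan y).sub ((((hasDerivAt_id y).sub (((hasDerivAt_id y).pow 3).div_const 3)).add
      (((hasDerivAt_id y).pow 5).div_const 5)).sub (((hasDerivAt_id y).pow 7).div_const 7))
  have hm : Monotone (fun y : ℝ => arctan y - (y - y ^ 3 / 3 + y ^ 5 / 5 - y ^ 7 / 7)) := by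
    apply monotone_of_deriv_nonneg (fun y => (hd y).differentiableAt)
    intro y
    rw [(hd y).deriv]
    have h1 : 0 < 1 + y ^ 2 := by positivity
    have h2 : 1 / (1 + y ^ 2) - (1 - 3 * y ^ 2 * 1 / 3 + 5 * y ^ 4 * 1 / 5 - 7 * y ^ 6 * 1 / 7) =
        y ^ 8 / (1 + y ^ 2) := by
      field_simp
      ring
    rw [h2]
    positivity
  have := hm hx
  simp only [arctan_zero] at this
  norm_num at this
  linarith

/-- product of powers -/
def lp (l : List (ℕ × ℕ)) : ℕ := (l.map fun q => q.1 ^ q.2).prod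

theorem log_lp (l : List (ℕ × ℕ)) (h : ∀ q ∈ l, 0 < q.1) :
    0 < lp l ∧ log (lp l : ℝ) = (l.map fun q => (q.2 : ℝ) * log (q.1 : ℝ)).sum := by
  induction l with
  | nil => simp [lp]
  | cons q l ih =>
    obtain ⟨h1, h2⟩ := ih fun r hr => h r (List.mem_cons_of_mem _ hr)
    have hq : 0 < q.1 := h q (by simp)
    have e : lp (q :: l) = q.1 ^ q.2 * lp l := by simp [lp]
    refine ⟨by rw [e]; positivity, ?_⟩
    have hq' : (q.1 : ℝ) ≠ 0 := by exact_mod_cast hq.ne'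
    have hl' : (lp l : ℝ) ≠ 0 := by exact_mod_cast h1.ne'
    rw [e, List.map_cons, List.sum_cons, ← h2]
    push_cast
    rw [log_mul (pow_ne_zero _ hq') hl', log_pow]

/-- numerator -/
def NUM : List (ℕ × ℕ) :=
  (PL.map fun p => (10 * (p.2 - p.1), 2 * (p.2 - p.1))) ++ (PL.map fun p => (100 * p.1 ^ 2 + 4489, p.1)) ++
    (ML.map fun p => (100 * p.2 ^ 2 + 4489, p.2)) ++ (ML.map fun p => (100 * p.1 ^ 2 + 4489, p.1))

/-- denominator -/
def DEN : List (ℕ × ℕ) :=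
  (PL.map fun p => (100 * p.2 ^ 2 + 4489, p.2)) ++ (ML.map fun p => (10 * (p.2 + p.1), 2 * (p.2 + p.1)))

theorem big : lp NUM * 27182818286 ^ 1523 ≤ lp DEN * 10000000000 ^ 1523 := by
  decide +kernel

theorem log_ineq : log (lp NUM : ℝ) + 1523 ≤ log (lp DEN : ℝ) := by
  have h1 := (log_lp NUM (by decide)).1
  have h2 := (log_lp DEN (by decide)).1
  have h1' : (0 : ℝ) < lp NUM := by exact_mod_cast h1
  have h2' : (0 : ℝ) < lp DEN := by exact_mod_cast h2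
  have hb : (lp NUM : ℝ) * 27182818286 ^ 1523 ≤ lp DEN * 10000000000 ^ 1523 := by exact_mod_cast big
  have hl := log_le_log (by positivity) hb
  rw [log_mul h1'.ne' (by positivity), log_mul h2'.ne' (by positivity), log_pow, log_pow] at hl
  have he : (1 : ℝ) ≤ log 27182818286 - log 10000000000 := by
    rw [← log_div (by norm_num) (by norm_num), le_log_iff_exp_le (by norm_num)]
    have := exp_one_lt_d9
    linarith
  push_cast at hl
  linarith

/-- logarithmic part of the tangent at `67/20` -/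
noncomputable def LL : ℝ :=
  (PL.map fun p => ((p.2 : ℝ) / 2 - (p.1 : ℝ) / 2) * log ((p.2 : ℝ) / 2 - (p.1 : ℝ) / 2) +
    (p.1 : ℝ) / 2 / 2 * log (((p.1 : ℝ) / 2) ^ 2 + (67 / 20) ^ 2) -
    (p.2 : ℝ) / 2 / 2 * log (((p.2 : ℝ) / 2) ^ 2 + (67 / 20) ^ 2)).sum -
    (ML.map fun p => ((p.2 : ℝ) / 2 + (p.1 : ℝ) / 2) * log ((p.2 : ℝ) / 2 + (p.1 : ℝ) / 2) -
      (p.1 : ℝ) / 2 / 2 * log (((p.1 : ℝ) / 2) ^ 2 + (67 / 20) ^ 2) -
      (p.2 : ℝ) / 2 / 2 * log (((p.2 : ℝ) / 2) ^ 2 + (67 / 20) ^ 2)).sum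

/-- arctan part of the tangent at `67/20` -/
noncomputable def AA : ℝ :=
  (PL.map fun p => arctan ((p.1 : ℝ) / 2 / (67 / 20)) - arctan ((p.2 : ℝ) / 2 / (67 / 20))).sum +
    (ML.map fun p => arctan ((p.1 : ℝ) / 2 / (67 / 20)) + arctan ((p.2 : ℝ) / 2 / (67 / 20))).sum

theorem log_shift (c : ℕ) : log (((c : ℝ) / 2) ^ 2 + (67 / 20) ^ 2) =
    log (((100 * c ^ 2 + 4489 : ℕ) : ℝ)) - 2 * log 20 := by
  have h : ((c : ℝ) / 2) ^ 2 + (67 / 20) ^ 2 = ((100 * c ^ 2 + 4489 : ℕ) : ℝ) / 20 ^ 2 := by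
    push_cast
    ring
  rw [h, log_div (by positivity) (by norm_num), log_pow]
  push_cast
  ring

theorem LL_le : LL ≤ -(1523 / 4) := by
  have h := log_ineq
  rw [(log_lp NUM (by decide)).2, (log_lp DEN (by decide)).2] at h
  have hP : ∀ p ∈ PL, 4 * (((p.2 : ℝ) / 2 - (p.1 : ℝ) / 2) * log ((p.2 : ℝ) / 2 - (p.1 : ℝ) / 2) +
    (p.1 : ℝ) / 2 / 2 * log (((p.1 : ℝ) / 2) ^ 2 + (67 / 20) ^ 2) -
    (p.2 : ℝ) / 2 / 2 * log (((p.2 : ℝ) / 2) ^ 2 + (67 / 20) ^ 2)) =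
      ((2 * (p.2 - p.1) : ℕ) : ℝ) * log ((10 * (p.2 - p.1) : ℕ) : ℝ) +
        (p.1 : ℝ) * log (((100 * p.1 ^ 2 + 4489 : ℕ) : ℝ)) -
        (p.2 : ℝ) * log (((100 * p.2 ^ 2 + 4489 : ℕ) : ℝ)) := by
    intro p hp
    have hlt : p.1 < p.2 := by
      revert p
      decide
    rw [log_shift, log_shift]
    have h1 : (0 : ℝ) < (p.2 : ℝ) / 2 - (p.1 : ℝ) / 2 := by
      have : (p.1 : ℝ) < p.2 := by exact_mod_cast hlt
      linarith
    have h2 : ((10 * (p.2 - p.1) : ℕ) : ℝ) = 20 * ((p.2 : ℝ) / 2 - (p.1 : ℝ) / 2) := by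
      push_cast [Nat.cast_sub hlt.le]
      ring
    have h3 : ((2 * (p.2 - p.1) : ℕ) : ℝ) = 4 * ((p.2 : ℝ) / 2 - (p.1 : ℝ) / 2) := by
      push_cast [Nat.cast_sub hlt.le]
      ring
    rw [h2, h3, log_mul (by norm_num) h1.ne']
    ring
  have hM : ∀ p ∈ ML, 4 * (((p.2 : ℝ) / 2 + (p.1 : ℝ) / 2) * log ((p.2 : ℝ) / 2 + (p.1 : ℝ) / 2) -
      (p.1 : ℝ) / 2 / 2 * log (((p.1 : ℝ) / 2) ^ 2 + (67 / 20) ^ 2) -
      (p.2 : ℝ) / 2 / 2 * log (((p.2 : ℝ) / 2) ^ 2 + (67 / 20) ^ 2)) =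
      ((2 * (p.2 + p.1) : ℕ) : ℝ) * log ((10 * (p.2 + p.1) : ℕ) : ℝ) -
        (p.1 : ℝ) * log (((100 * p.1 ^ 2 + 4489 : ℕ) : ℝ)) -
        (p.2 : ℝ) * log (((100 * p.2 ^ 2 + 4489 : ℕ) : ℝ)) := by
    intro p hp
    have hpos : 0 < p.1 := by
      revert p
      decide
    rw [log_shift, log_shift]
    have h1 : (0 : ℝ) < (p.2 : ℝ) / 2 + (p.1 : ℝ) / 2 := by
      have : (0 : ℝ) < p.1 := by exact_mod_cast hpos
      positivity
    have h2 : ((10 * (p.2 + p.1) : ℕ) : ℝ) = 20 * ((p.2 : ℝ) / 2 + (p.1 : ℝ) / 2) := by push_cast; ring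
    have h3 : ((2 * (p.2 + p.1) : ℕ) : ℝ) = 4 * ((p.2 : ℝ) / 2 + (p.1 : ℝ) / 2) := by push_cast; ring
    rw [h2, h3, log_mul (by norm_num) h1.ne']
    ring
  have e1 : 4 * LL = (PL.map fun p => 4 * (((p.2 : ℝ) / 2 - (p.1 : ℝ) / 2) * log ((p.2 : ℝ) / 2 - (p.1 : ℝ) / 2) +
    (p.1 : ℝ) / 2 / 2 * log (((p.1 : ℝ) / 2) ^ 2 + (67 / 20) ^ 2) -
    (p.2 : ℝ) / 2 / 2 * log (((p.2 : ℝ) / 2) ^ 2 + (67 / 20) ^ 2))).sum -
      (ML.map fun p => 4 * (((p.2 : ℝ) / 2 + (p.1 : ℝ) / 2) * log ((p.2 : ℝ) / 2 + (p.1 : ℝ) / 2) -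
      (p.1 : ℝ) / 2 / 2 * log (((p.1 : ℝ) / 2) ^ 2 + (67 / 20) ^ 2) -
      (p.2 : ℝ) / 2 / 2 * log (((p.2 : ℝ) / 2) ^ 2 + (67 / 20) ^ 2))).sum := by
    rw [LL, List.sum_map_mul_left, List.sum_map_mul_left]
    ring
  rw [List.map_congr_left hP, List.map_congr_left hM] at e1
  have e2 : 4 * LL = (NUM.map fun q => (q.2 : ℝ) * log (q.1 : ℝ)).sum -
      (DEN.map fun q => (q.2 : ℝ) * log (q.1 : ℝ)).sum := by
    rw [e1, NUM, DEN]
    simp only [List.map_append, List.sum_append, List.map_map]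
    simp only [PL, ML, List.map_cons, List.map_nil, List.sum_cons, List.sum_nil, Function.comp_apply]
    ring
  linarith

theorem AA_le : AA ≤ 2 * π - 1 / 100 := by
  have hpi := pi_lt_d4
  have inv : ∀ c : ℝ, 0 < c → arctan (c / 2 / (67 / 20)) = π / 2 - arctan ((67 / 10) / c) := by
    intro c hc
    rw [← arctan_inv_of_pos (by positivity), inv_div]
    congr 1
    field_simp
    norm_num
  have up : ∀ c : ℝ, 0 < c → arctan (c / 2 / (67 / 20)) ≤
      π / 2 - ((67 / 10) / c - ((67 / 10) / c) ^ 3 / 3 + ((67 / 10) / c) ^ 5 / 5 - ((67 / 10) / c) ^ 7 / 7) := by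
    intro c hc
    rw [inv c hc]
    have := le_arctan7 (x := (67 / 10) / c) (by positivity)
    linarith
  have lo : ∀ c : ℝ, 0 < c → π / 2 - (67 / 10) / c ≤ arctan (c / 2 / (67 / 20)) := by
    intro c hc
    rw [inv c hc]
    have := arctan_le_self' (x := (67 / 10) / c) (by positivity)
    linarith
  have hP : ∀ p ∈ PL, arctan ((p.1 : ℝ) / 2 / (67 / 20)) - arctan ((p.2 : ℝ) / 2 / (67 / 20)) ≤
      (67 / 10) / (p.2 : ℝ) - ((67 / 10) / (p.1 : ℝ) - ((67 / 10) / (p.1 : ℝ)) ^ 3 / 3 +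
        ((67 / 10) / (p.1 : ℝ)) ^ 5 / 5 - ((67 / 10) / (p.1 : ℝ)) ^ 7 / 7) := by
    intro p hp
    have hpos : 0 < p.1 ∧ 0 < p.2 := by
      revert p
      decide
    have h1 := up p.1 (by exact_mod_cast hpos.1)
    have h2 := lo p.2 (by exact_mod_cast hpos.2)
    linarith
  have h1 := List.sum_le_sum hP
  have h2 := up 15 (by norm_num)
  have h3 := up 9 (by norm_num)
  have h4 := arctan_le5 (x := 3 / 2 / (67 / 20)) (by norm_num)
  have h5 := up 151 (by norm_num)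
  have h6 := up 145 (by norm_num)
  have h7 := up 139 (by norm_num)
  have e : AA = (PL.map fun p => arctan ((p.1 : ℝ) / 2 / (67 / 20)) - arctan ((p.2 : ℝ) / 2 / (67 / 20))).sum +
      (arctan (15 / 2 / (67 / 20)) + arctan (151 / 2 / (67 / 20)) + (arctan (9 / 2 / (67 / 20)) +
        arctan (145 / 2 / (67 / 20)) +
        (arctan (3 / 2 / (67 / 20)) + arctan (139 / 2 / (67 / 20))))) := by
    rw [AA]
    simp [ML]
  rw [e]
  refine (add_le_add_left h1 _).trans ?_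
  simp only [PL, List.map_cons, List.map_nil, List.sum_cons, List.sum_nil]
  push_cast
  norm_num at h2 h3 h4 h5 h6 h7 ⊢
  linarith

theorem GG_small {η : ℝ} (h0 : 0 < η) (h1 : η ≤ 29) : GG η ≤ LL + η * AA := by
  have hP : ∀ p ∈ PL, ((p.2 : ℝ) / 2 - (p.1 : ℝ) / 2) * log ((p.2 : ℝ) / 2 - (p.1 : ℝ) / 2) + w ((p.1 : ℝ) / 2) η -
      w ((p.2 : ℝ) / 2) η ≤
      (((p.2 : ℝ) / 2 - (p.1 : ℝ) / 2) * log ((p.2 : ℝ) / 2 - (p.1 : ℝ) / 2) +
        (p.1 : ℝ) / 2 / 2 * log (((p.1 : ℝ) / 2) ^ 2 + (67 / 20) ^ 2) -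
        (p.2 : ℝ) / 2 / 2 * log (((p.2 : ℝ) / 2) ^ 2 + (67 / 20) ^ 2)) +
      η * (arctan ((p.1 : ℝ) / 2 / (67 / 20)) - arctan ((p.2 : ℝ) / 2 / (67 / 20))) := by
    intro p hp
    have hh : 0 < p.1 ∧ p.1 ≤ p.2 ∧ 58 ^ 2 ≤ p.1 * p.2 := by
      revert p
      decide
    have g1 : (0 : ℝ) < p.1 := by exact_mod_cast hh.1
    have g2 : (p.1 : ℝ) ≤ p.2 := by exact_mod_cast hh.2.1
    have g3 : (58 : ℝ) ^ 2 ≤ p.1 * p.2 := by exact_mod_cast hh.2.2
    have := wdiff_tangent (a := (p.1 : ℝ) / 2) (b := (p.2 : ℝ) / 2) (A := 29) (x₀ := 67 / 20) (x := η) (by positivity)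
      (by linarith) (by linarith) (by norm_num) (by norm_num) h0 h1
    linarith
  have hM : ∀ p ∈ ML, (((p.2 : ℝ) / 2 + (p.1 : ℝ) / 2) * log ((p.2 : ℝ) / 2 + (p.1 : ℝ) / 2) -
      (p.1 : ℝ) / 2 / 2 * log (((p.1 : ℝ) / 2) ^ 2 + (67 / 20) ^ 2) -
      (p.2 : ℝ) / 2 / 2 * log (((p.2 : ℝ) / 2) ^ 2 + (67 / 20) ^ 2)) +
      -η * (arctan ((p.1 : ℝ) / 2 / (67 / 20)) + arctan ((p.2 : ℝ) / 2 / (67 / 20))) ≤
      ((p.2 : ℝ) / 2 + (p.1 : ℝ) / 2) * log ((p.2 : ℝ) / 2 + (p.1 : ℝ) / 2) - w ((p.1 : ℝ) / 2) η -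
      w ((p.2 : ℝ) / 2) η := by
    intro p hp
    have hh : 0 < p.1 ∧ 0 < p.2 := by
      revert p
      decide
    have g1 : (0 : ℝ) < p.1 := by exact_mod_cast hh.1
    have g2 : (0 : ℝ) < p.2 := by exact_mod_cast hh.2
    have e1 := w_tangent (c := (p.1 : ℝ) / 2) (x₀ := 67 / 20) (x := η) (by positivity) (by norm_num) h0
    have e2 := w_tangent (c := (p.2 : ℝ) / 2) (x₀ := 67 / 20) (x := η) (by positivity) (by norm_num) h0
    linarith
  have s1 := List.sum_le_sum hP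
  have s2 := List.sum_le_sum hM
  rw [List.sum_map_add, List.sum_map_mul_left] at s1
  rw [List.sum_map_add, List.sum_map_mul_left] at s2
  rw [GG, LL, AA]
  linarith

theorem hasDerivAt_GG {η : ℝ} (h0 : 0 < η) : HasDerivAt GG
    ((PL.map fun p => arctan ((p.1 : ℝ) / 2 / η) - arctan ((p.2 : ℝ) / 2 / η)).sum +
      (ML.map fun p => arctan ((p.1 : ℝ) / 2 / η) + arctan ((p.2 : ℝ) / 2 / η)).sum) η := by
  have hP : ∀ l : List (ℕ × ℕ), HasDerivAt
      (fun η => (l.map fun p => ((p.2 : ℝ) / 2 - (p.1 : ℝ) / 2) * log ((p.2 : ℝ) / 2 - (p.1 : ℝ) / 2) +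
        w ((p.1 : ℝ) / 2) η - w ((p.2 : ℝ) / 2) η).sum)
      ((l.map fun p => arctan ((p.1 : ℝ) / 2 / η) - arctan ((p.2 : ℝ) / 2 / η)).sum) η := by
    intro l
    induction l with
    | nil => simpa using hasDerivAt_const η (0 : ℝ)
    | cons p l ih =>
      simp only [List.map_cons, List.sum_cons]
      exact (((hasDerivAt_w h0).const_add _).sub (hasDerivAt_w h0)).add ih
  have hM : ∀ l : List (ℕ × ℕ), HasDerivAt
      (fun η => (l.map fun p => ((p.2 : ℝ) / 2 + (p.1 : ℝ) / 2) * log ((p.2 : ℝ) / 2 + (p.1 : ℝ) / 2) -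
        w ((p.1 : ℝ) / 2) η - w ((p.2 : ℝ) / 2) η).sum)
      (-(l.map fun p => arctan ((p.1 : ℝ) / 2 / η) + arctan ((p.2 : ℝ) / 2 / η)).sum) η := by
    intro l
    induction l with
    | nil => simpa using hasDerivAt_const η (0 : ℝ)
    | cons p l ih =>
      simp only [List.map_cons, List.sum_cons]
      refine ((((hasDerivAt_w h0).const_sub _).sub (hasDerivAt_w h0)).add ih).congr_deriv ?_
      ring
  refine ((hP PL).sub (hM ML)).congr_deriv ?_
  ring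

theorem GG_deriv_le {η : ℝ} (h0 : 29 ≤ η) :
    ((PL.map fun p => arctan ((p.1 : ℝ) / 2 / η) - arctan ((p.2 : ℝ) / 2 / η)).sum +
      (ML.map fun p => arctan ((p.1 : ℝ) / 2 / η) + arctan ((p.2 : ℝ) / 2 / η)).sum) ≤ 2 * π - 1 / 100 := by
  have hη : 0 < η := by linarith
  have hP : ∀ p ∈ PL, arctan ((p.1 : ℝ) / 2 / η) - arctan ((p.2 : ℝ) / 2 / η) ≤ 0 := by
    intro p hp
    have hh : p.1 ≤ p.2 := by
      revert p
      decide
    rw [sub_nonpos]
    apply arctan_mono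
    have : (p.1 : ℝ) ≤ p.2 := by exact_mod_cast hh
    gcongr
  have h1 : (PL.map fun p => arctan ((p.1 : ℝ) / 2 / η) - arctan ((p.2 : ℝ) / 2 / η)).sum ≤ 0 := by
    have := List.sum_le_sum hP
    simpa using this
  have hM : ∀ p ∈ ML, arctan ((p.1 : ℝ) / 2 / η) + arctan ((p.2 : ℝ) / 2 / η) ≤ (p.1 : ℝ) / 2 / 29 + π / 2 := by
    intro p hp
    have e1 := arctan_le_self' (x := (p.1 : ℝ) / 2 / η) (by positivity)
    have e2 := (arctan_lt_pi_div_two ((p.2 : ℝ) / 2 / η)).le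
    have e3 : (p.1 : ℝ) / 2 / η ≤ (p.1 : ℝ) / 2 / 29 := by gcongr
    linarith
  have h2 := List.sum_le_sum hM
  have h3 : (ML.map fun p => (p.1 : ℝ) / 2 / 29 + π / 2).sum = 27 / 58 + 3 * π / 2 := by
    simp only [ML, List.map_cons, List.map_nil, List.sum_cons, List.sum_nil]
    push_cast
    ring
  rw [h3] at h2
  have hpi := pi_gt_d2
  linarith

/-- The one variable inequality. -/
theorem sizeIneq {η : ℝ} (h0 : 0 < η) : GG η - 2 * π * η ≤ -(1523 / 4) - η / 100 := by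
  have small : ∀ η : ℝ, 0 < η → η ≤ 29 → GG η - 2 * π * η ≤ -(1523 / 4) - η / 100 := by
    intro η h0 h1
    have e1 := GG_small h0 h1
    have e2 := LL_le
    have e3 := mul_le_mul_of_nonneg_left AA_le h0.le
    linarith
  rcases le_or_gt η 29 with h1 | h1
  · exact small η h0 h1
  · have hanti : AntitoneOn (fun x => GG x - 2 * π * x + x / 100) (Ici 29) := by
      have hd : ∀ y : ℝ, 29 ≤ y → HasDerivAt (fun x => GG x - 2 * π * x + x / 100)
          (((PL.map fun p => arctan ((p.1 : ℝ) / 2 / y) - arctan ((p.2 : ℝ) / 2 / y)).sum +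
            (ML.map fun p => arctan ((p.1 : ℝ) / 2 / y) + arctan ((p.2 : ℝ) / 2 / y)).sum) - 2 * π * 1 + 1 / 100) y :=
        fun y hy => ((hasDerivAt_GG (by linarith)).sub ((hasDerivAt_id y).const_mul (2 * π))).add
          ((hasDerivAt_id y).div_const 100)
      apply antitoneOn_of_deriv_nonpos (convex_Ici 29)
      · exact fun y hy => (hd y hy).continuousAt.continuousWithinAt
      · intro y hy
        rw [interior_Ici] at hy
        exact (hd y (le_of_lt hy)).differentiableAt.differentiableWithinAt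
      · intro y hy
        rw [interior_Ici] at hy
        rw [(hd y (le_of_lt hy)).deriv]
        have := GG_deriv_le (le_of_lt hy)
        linarith
    have e1 := hanti (show (29 : ℝ) ∈ Ici (29 : ℝ) by simp) (show η ∈ Ici (29 : ℝ) from h1.le) h1.le
    have e2 := small 29 (by norm_num) le_rfl
    simp only at e1
    linarith

end Pool.Agent.OddZeta
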