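import Pool.Agent.OddZeta.Defs
import Pool.Agent.OddZeta.SizeIneq

set_option autoImplicit false

/-!
# Size of `R n` on the line `Re t = -15 n / 2`

Seat: helper30.
-/

namespace Pool.Agent.OddZeta

open Real Set

/-- `log |u + i y|` -/
noncomputable def fl (y u : ℝ) : ℝ := 1 / 2 * log (u ^ 2 + y ^ 2)

/-- antiderivative of `fl y` -/
noncomputable def Ph (y u : ℝ) : ℝ := w u y - u

theorem hasDerivAt_Ph {y : ℝ} (hy : 0 < y) (u : ℝ) : HasDerivAt (Ph y) (fl y u) u := by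
  have hpos : 0 < u ^ 2 + y ^ 2 := by positivity
  have h1 : HasDerivAt (fun x : ℝ => x ^ 2 + y ^ 2) (2 * u) u := by
    refine (((hasDerivAt_id u).pow 2).add_const (y ^ 2)).congr_deriv ?_
    simp
  have h2 := ((hasDerivAt_id u).div_const 2).mul (h1.log hpos.ne')
  have h3 := (((hasDerivAt_id u).div_const y).arctan).const_mul y
  refine ((h2.add h3).sub (hasDerivAt_id u)).congr_deriv ?_
  simp only [id, fl]
  field_simp
  ring

theorem fl_mono {y : ℝ} (hy : 0 < y) {u v : ℝ} (hu : 0 ≤ u) (huv : u ≤ v) : fl y u ≤ fl y v := by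
  unfold fl
  have h1 : 0 < u ^ 2 + y ^ 2 := by positivity
  have h2 : u ^ 2 + y ^ 2 ≤ v ^ 2 + y ^ 2 := by gcongr
  have := log_le_log h1 h2
  linarith

theorem fl_neg (y u : ℝ) : fl y (-u) = fl y u := by
  unfold fl; rw [neg_sq]

theorem Ph_step {y : ℝ} (hy : 0 < y) {u : ℝ} (hu : 0 ≤ u) :
    fl y u ≤ Ph y (u + 1) - Ph y u ∧ Ph y (u + 1) - Ph y u ≤ fl y (u + 1) := by
  obtain ⟨ξ, hξ, h1⟩ := exists_hasDerivAt_eq_slope (Ph y) (fl y) (show u < u + 1 by linarith)
    (fun z _ => (hasDerivAt_Ph hy z).continuousAt.continuousWithinAt) (fun z _ => hasDerivAt_Ph hy z)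
  have h2 : fl y ξ = Ph y (u + 1) - Ph y u := by
    rw [h1]; ring
  rw [← h2]
  exact ⟨fl_mono hy hu hξ.1.le, fl_mono hy (hu.trans hξ.1.le) hξ.2.le⟩

theorem sum_fl_ge {y : ℝ} (hy : 0 < y) {a : ℝ} (ha : 1 ≤ a) (N : ℕ) :
    Ph y (a + N) - Ph y a ≤ ∑ i ∈ Finset.range (N + 1), fl y (a + i) := by
  rw [Finset.sum_range_succ']
  have h0 : 0 ≤ fl y (a + (0 : ℕ)) := by
    rw [Nat.cast_zero, add_zero]
    unfold fl
    have : 0 ≤ log (a ^ 2 + y ^ 2) := log_nonneg (by nlinarith [sq_nonneg y])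
    linarith
  have h1 : Ph y (a + N) - Ph y a ≤ ∑ i ∈ Finset.range N, fl y (a + ((i + 1 : ℕ) : ℝ)) := by
    induction N with
    | zero => simp
    | succ N ih =>
      rw [Finset.sum_range_succ]
      have h2 := (Ph_step hy (u := a + N) (by positivity)).2
      push_cast at ih h2 ⊢
      rw [← add_assoc]
      linarith
  linarith

theorem sum_fl_le_half {y : ℝ} (hy : 0 < y) (k : ℕ) :
    ∑ i ∈ Finset.range (k + 1), fl y (1 / 2 + i) ≤ Ph y (1 / 2 + k) - Ph y (1 / 2) + fl y (1 / 2 + k) := by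
  rw [Finset.sum_range_succ]
  have h1 : ∑ i ∈ Finset.range k, fl y (1 / 2 + i) ≤ Ph y (1 / 2 + k) - Ph y (1 / 2) := by
    induction k with
    | zero => simp
    | succ k ih =>
      rw [Finset.sum_range_succ]
      have h2 := (Ph_step hy (u := 1 / 2 + k) (by positivity)).1
      push_cast
      rw [← add_assoc]
      linarith
  linarith

theorem Ph_half {y : ℝ} (hy : 0 < y) : -1 ≤ Ph y (1 / 2) := by
  unfold Ph w
  have h1 : log ((1 / 2) ^ 2) ≤ log ((1 / 2 : ℝ) ^ 2 + y ^ 2) := log_le_log (by norm_num) (by nlinarith [sq_nonneg y])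
  have h2 : 0 ≤ arctan (1 / 2 / y) := by
    rw [← arctan_zero]
    exact arctan_mono (by positivity)
  have h3 : log ((1 / 2 : ℝ) ^ 2) = -(2 * log 2) := by
    rw [log_pow, one_div, log_inv]; push_cast; ring
  have h4 := log_two_lt_d9
  have h5 : 0 ≤ y * arctan (1 / 2 / y) := by positivity
  rw [h3] at h1
  linarith

theorem sum_fl_le {y : ℝ} (hy : 0 < y) (k j : ℕ) :
    ∑ i ∈ Finset.range ((k + 1) + (j + 1)), fl y (-(1 / 2 + k) + i) ≤
      Ph y (1 / 2 + k) + Ph y (1 / 2 + j) + 2 + fl y (1 / 2 + k) + fl y (1 / 2 + j) := by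
  rw [Finset.sum_range_add]
  have h1 : ∑ i ∈ Finset.range (k + 1), fl y (-(1 / 2 + k) + i) = ∑ i ∈ Finset.range (k + 1), fl y (1 / 2 + i) := by
    rw [← Finset.sum_range_reflect]
    refine Finset.sum_congr rfl fun i hi => ?_
    rw [Finset.mem_range] at hi
    rw [← fl_neg y (1 / 2 + i)]
    congr 1
    have : ((k + 1 - 1 - i : ℕ) : ℝ) = k - i := by
      rw [Nat.add_sub_cancel, Nat.cast_sub (by omega)]
    rw [this]; ring
  have h2 : ∑ i ∈ Finset.range (j + 1), fl y (-(1 / 2 + k) + ((k + 1 + i : ℕ) : ℝ)) =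
      ∑ i ∈ Finset.range (j + 1), fl y (1 / 2 + i) := by
    refine Finset.sum_congr rfl fun i hi => ?_
    congr 1
    push_cast; ring
  rw [h1, h2]
  have e1 := sum_fl_le_half hy k
  have e2 := sum_fl_le_half hy j
  have e3 := Ph_half hy
  linarith

theorem log_fact_le (N : ℕ) (hN : 1 ≤ N) : log (N.factorial : ℝ) ≤ N * log N - N + log N + 1 := by
  induction N, hN using Nat.le_induction with
  | base => simp
  | succ N hN ih =>
    have hN0 : (0 : ℝ) < N := by exact_mod_cast hN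
    have hN1 : (0 : ℝ) < (N : ℝ) + 1 := by positivity
    rw [Nat.factorial_succ]
    push_cast
    rw [log_mul hN1.ne' (by exact_mod_cast (Nat.factorial_pos N).ne')]
    have h1 := one_sub_inv_le_log_of_pos (show (0 : ℝ) < ((N : ℝ) + 1) / N by positivity)
    rw [log_div hN1.ne' hN0.ne', inv_div] at h1
    have h2 : 1 - (N : ℝ) / (N + 1) = 1 / (N + 1) := by field_simp; ring
    rw [h2] at h1
    have h3 : 1 ≤ ((N : ℝ) + 1) * (log (N + 1) - log N) := by
      have := mul_le_mul_of_nonneg_left h1 hN1.le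
      rwa [mul_one_div_cancel hN1.ne'] at this
    linarith

theorem log_fact_ge (N : ℕ) (hN : 1 ≤ N) : N * log N - N ≤ log (N.factorial : ℝ) := by
  have h := Stirling.le_log_factorial_stirling (n := N) (by omega)
  have h1 : 0 ≤ log (N : ℝ) := log_natCast_nonneg N
  have h2 : 0 ≤ log (2 * π) := log_nonneg (by linarith [pi_gt_three])
  linarith

/-- scaling of `w` -/
theorem w_scale {n : ℝ} (hn : 0 < n) (c : ℝ) {η : ℝ} (hη : 0 < η) :
    w (c * n) (η * n) = n * w c η + n * c * log n := by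
  unfold w
  have h1 : (c * n) ^ 2 + (η * n) ^ 2 = n ^ 2 * (c ^ 2 + η ^ 2) := by ring
  have h2 : c * n / (η * n) = c / η := by field_simp
  have h3 : 0 < c ^ 2 + η ^ 2 := by positivity
  rw [h1, h2, log_mul (by positivity) h3.ne', log_pow]
  push_cast
  ring


/-- the point of the line -/
noncomputable def tp (n : ℕ) (y : ℝ) : ℂ := ((-(15 * n / 2) : ℝ) : ℂ) + (y : ℂ) * Complex.I

theorem norm_pt (n : ℕ) {y : ℝ} (hy : 0 < y) (m : ℕ) :
    ‖tp n y + m‖ = exp (fl y ((m : ℝ) - 15 * n / 2)) := by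
  have h1 : tp n y + m = (((m : ℝ) - 15 * n / 2 : ℝ) : ℂ) + (y : ℂ) * Complex.I := by
    unfold tp
    push_cast
    ring
  have hpos : 0 < ((m : ℝ) - 15 * n / 2) ^ 2 + y ^ 2 := by positivity
  rw [h1, Complex.norm_add_mul_I, fl, sqrt_eq_rpow, rpow_def_of_pos hpos]
  congr 1
  ring

theorem norm_prod_blk (n h : ℕ) {y : ℝ} (hy : 0 < y) :
    ‖∏ m ∈ blk n h, (tp n y + m)‖ = exp (∑ m ∈ blk n h, fl y ((m : ℝ) - 15 * n / 2)) := by
  rw [norm_prod, exp_sum]
  exact Finset.prod_congr rfl fun m _ => norm_pt n hy m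

theorem blk_sum (n h : ℕ) (hh : h ≤ 41) (g : ℝ → ℝ) :
    ∑ m ∈ blk n h, g ((m : ℝ) - 15 * n / 2) =
      ∑ i ∈ Finset.range (Nl n h + 1), g (((h : ℝ) - 15 / 2) * n + i) := by
  unfold blk
  rw [← Finset.Ico_succ_right_eq_Icc, Finset.sum_Ico_eq_sum_range]
  have h1 : Order.succ ((83 - h) * n) - h * n = Nl n h + 1 := by
    rw [Nat.succ_eq_succ, Nl]
    have : (83 - h) * n = h * n + (83 - 2 * h) * n := by
      rw [← add_mul]
      congr 1
      omega
    omega
  rw [h1]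
  refine Finset.sum_congr rfl fun i _ => ?_
  congr 1
  push_cast
  ring

theorem Nl_cast (n h : ℕ) (hh : h ≤ 41) : (Nl n h : ℝ) = (83 - 2 * (h : ℝ)) * n := by
  unfold Nl
  rw [Nat.cast_mul, Nat.cast_sub (by omega)]
  push_cast
  ring

/-- exponent of a pole block -/
noncomputable def gP (h : ℕ) (η : ℝ) : ℝ :=
  (83 - 2 * (h : ℝ)) * log (83 - 2 * (h : ℝ)) + w ((h : ℝ) - 15 / 2) η - w (151 / 2 - (h : ℝ)) η

/-- exponent of a zero block -/
noncomputable def gM (h : ℕ) (η : ℝ) : ℝ :=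
  (83 - 2 * (h : ℝ)) * log (83 - 2 * (h : ℝ)) - w (15 / 2 - (h : ℝ)) η - w (151 / 2 - (h : ℝ)) η

theorem blockP (n h : ℕ) (hn : 0 < n) (h1 : 25 ≤ h) (h2 : h ≤ 35) {y : ℝ} (hy : 0 < y) :
    (Nl n h).factorial / ‖∏ m ∈ blk n h, (tp n y + m)‖ ≤ exp (n * gP h (y / n) + (log n + 5)) := by
  have hn0 : (0 : ℝ) < n := by exact_mod_cast hn
  have hh1 : (25 : ℝ) ≤ h := by exact_mod_cast h1
  have hh2 : (h : ℝ) ≤ 35 := by exact_mod_cast h2
  have hn1 : (1 : ℝ) ≤ n := by exact_mod_cast hn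
  have hNl : 1 ≤ Nl n h := Nat.mul_pos (by omega) hn
  have hfac : (0 : ℝ) < (Nl n h).factorial := by exact_mod_cast Nat.factorial_pos _
  rw [norm_prod_blk n h hy, blk_sum n h (by omega) (fl y), ← exp_log hfac, ← exp_sub]
  apply exp_le_exp.2
  have e1 := log_fact_le (Nl n h) hNl
  have e2 := sum_fl_ge hy (a := ((h : ℝ) - 15 / 2) * n) (by nlinarith) (Nl n h)
  have e3 : ((h : ℝ) - 15 / 2) * n + (Nl n h : ℝ) = (151 / 2 - (h : ℝ)) * n := by
    rw [Nl_cast n h (by omega)]; ring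
  rw [e3] at e2
  have hη : 0 < y / n := by positivity
  have hyn : y = y / n * n := by field_simp
  have e4 : Ph y ((151 / 2 - (h : ℝ)) * n) = n * w (151 / 2 - (h : ℝ)) (y / n) +
      n * (151 / 2 - (h : ℝ)) * log n - (151 / 2 - (h : ℝ)) * n := by
    rw [Ph]
    nth_rw 1 [hyn]
    rw [w_scale hn0 _ hη]
  have e5 : Ph y (((h : ℝ) - 15 / 2) * n) = n * w ((h : ℝ) - 15 / 2) (y / n) +
      n * ((h : ℝ) - 15 / 2) * log n - ((h : ℝ) - 15 / 2) * n := by
    rw [Ph]
    nth_rw 1 [hyn]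
    rw [w_scale hn0 _ hη]
  rw [e4, e5] at e2
  have hpos : (0 : ℝ) < 83 - 2 * (h : ℝ) := by linarith
  have e6 : log (Nl n h : ℝ) = log (83 - 2 * (h : ℝ)) + log n := by
    rw [Nl_cast n h (by omega), log_mul hpos.ne' hn0.ne']
  have e7 : log (83 - 2 * (h : ℝ)) ≤ 4 := by
    have : log (83 - 2 * (h : ℝ)) ≤ log 33 := log_le_log hpos (by linarith)
    have h33 : log (33 : ℝ) ≤ 4 := by
      rw [log_le_iff_le_exp (by norm_num)]
      have := exp_one_gt_d9
      calc (33 : ℝ) ≤ 2.7 ^ 4 := by norm_num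
        _ ≤ (exp 1) ^ 4 := by gcongr; linarith
        _ = exp 4 := by rw [← exp_nat_mul]; norm_num
    linarith
  rw [e6, Nl_cast n h (by omega)] at e1
  unfold gP
  linarith


theorem fl_le_log {y : ℝ} (hy : 0 < y) {n : ℝ} (hn : 1 ≤ n) {u : ℝ} (hu : 0 ≤ u) (hu' : u ≤ 76 * n) :
    fl y u ≤ log (76 * (n + y + 1)) := by
  unfold fl
  have h1 : u ^ 2 + y ^ 2 ≤ (76 * (n + y + 1)) ^ 2 := by nlinarith
  have h2 := log_le_log (show 0 < u ^ 2 + y ^ 2 by positivity) h1
  rw [log_pow] at h2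
  push_cast at h2
  linarith

theorem blockM (n h : ℕ) (hn : Odd n) (h2 : h ≤ 6) {y : ℝ} (hy : 0 < y) :
    ‖∏ m ∈ blk n h, (tp n y + m)‖ / (Nl n h).factorial ≤
      exp (-(n * gM h (y / n)) + (2 * log (76 * (n + y + 1)) + 2)) := by
  obtain ⟨r, hr⟩ := hn
  have hnpos : 0 < n := by omega
  have hn0 : (0 : ℝ) < n := by exact_mod_cast hnpos
  have hh2 : (h : ℝ) ≤ 6 := by exact_mod_cast h2
  have hh0 : (0 : ℝ) ≤ h := Nat.cast_nonneg h
  have hn1 : (1 : ℝ) ≤ n := by exact_mod_cast hnpos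
  have hNl : 1 ≤ Nl n h := Nat.mul_pos (by omega) hnpos
  have hfac : (0 : ℝ) < (Nl n h).factorial := by exact_mod_cast Nat.factorial_pos _
  -- k = ((15-2h) n - 1)/2, j = ((151-2h) n - 1)/2
  obtain ⟨k, hk⟩ : ∃ k : ℕ, 2 * k + 1 = (15 - 2 * h) * n := by
    have : Odd ((15 - 2 * h) * n) := by
      refine Odd.mul ?_ ⟨r, hr⟩
      refine ⟨7 - h, by omega⟩
    obtain ⟨k, hk⟩ := this
    exact ⟨k, hk.symm⟩
  obtain ⟨j, hj⟩ : ∃ j : ℕ, 2 * j + 1 = (151 - 2 * h) * n := by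
    have : Odd ((151 - 2 * h) * n) := by
      refine Odd.mul ?_ ⟨r, hr⟩
      refine ⟨75 - h, by omega⟩
    obtain ⟨k, hk⟩ := this
    exact ⟨k, hk.symm⟩
  have hkr : (1 / 2 + (k : ℝ)) = (15 / 2 - (h : ℝ)) * n := by
    have : ((2 * k + 1 : ℕ) : ℝ) = (((15 - 2 * h) * n : ℕ) : ℝ) := by rw [hk]
    rw [Nat.cast_mul, Nat.cast_sub (by omega)] at this
    push_cast at this
    linarith
  have hjr : (1 / 2 + (j : ℝ)) = (151 / 2 - (h : ℝ)) * n := by
    have : ((2 * j + 1 : ℕ) : ℝ) = (((151 - 2 * h) * n : ℕ) : ℝ) := by rw [hj]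
    rw [Nat.cast_mul, Nat.cast_sub (by omega)] at this
    push_cast at this
    linarith
  have hcount : Nl n h + 1 = (k + 1) + (j + 1) := by
    have h3 : (Nl n h : ℝ) = (k : ℝ) + j + 1 := by
      rw [Nl_cast n h (by omega)]
      linarith
    have h4 : Nl n h = k + j + 1 := by exact_mod_cast h3
    omega
  rw [norm_prod_blk n h hy, blk_sum n h (by omega) (fl y), ← exp_log hfac, ← exp_sub]
  apply exp_le_exp.2
  have e1 := log_fact_ge (Nl n h) hNl
  have e2 := sum_fl_le hy k j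
  rw [hcount]
  have e0 : ((h : ℝ) - 15 / 2) * n = -(1 / 2 + (k : ℝ)) := by rw [hkr]; ring
  rw [e0]
  rw [hkr, hjr] at e2
  rw [hkr]
  have hη : 0 < y / n := by positivity
  have hyn : y = y / n * n := by field_simp
  have e4 : Ph y ((151 / 2 - (h : ℝ)) * n) = n * w (151 / 2 - (h : ℝ)) (y / n) +
      n * (151 / 2 - (h : ℝ)) * log n - (151 / 2 - (h : ℝ)) * n := by
    rw [Ph]
    nth_rw 1 [hyn]
    rw [w_scale hn0 _ hη]
  have e5 : Ph y ((15 / 2 - (h : ℝ)) * n) = n * w (15 / 2 - (h : ℝ)) (y / n) +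
      n * (15 / 2 - (h : ℝ)) * log n - (15 / 2 - (h : ℝ)) * n := by
    rw [Ph]
    nth_rw 1 [hyn]
    rw [w_scale hn0 _ hη]
  have e6 : log (Nl n h : ℝ) = log (83 - 2 * (h : ℝ)) + log n := by
    rw [Nl_cast n h (by omega), log_mul (by linarith) hn0.ne']
  have e7 := fl_le_log hy hn1 (u := (15 / 2 - (h : ℝ)) * n) (by nlinarith) (by nlinarith)
  have e8 := fl_le_log hy hn1 (u := (151 / 2 - (h : ℝ)) * n) (by nlinarith) (by nlinarith)
  rw [e4, e5] at e2
  rw [e6, Nl_cast n h (by omega)] at e1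
  unfold gM
  linarith

theorem GG_eq (η : ℝ) : GG η = ∑ h ∈ Pset, gP h η - ∑ h ∈ Mset, gM h η := by
  have hP : ∑ h ∈ Pset, gP h η = ((List.range' 25 11).map fun h => gP h η).sum := rfl
  have hM : ∑ h ∈ Mset, gM h η = gM 0 η + (gM 3 η + gM 6 η) := by
    unfold Mset
    rw [Finset.sum_insert (by decide), Finset.sum_insert (by decide), Finset.sum_singleton]
  rw [hP, hM]
  simp only [GG, PL, ML, gP, gM, List.range', List.map_cons, List.map_nil, List.sum_cons, List.sum_nil]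
  norm_num


theorem norm_R (n : ℕ) (t : ℂ) : ‖R n t‖ = ‖2 * t + 83 * n‖ *
    (∏ h ∈ Pset, ((Nl n h).factorial / ‖∏ m ∈ blk n h, (t + m)‖ : ℝ)) *
    ∏ h ∈ Mset, (‖∏ m ∈ blk n h, (t + m)‖ / (Nl n h).factorial : ℝ) := by
  unfold R K
  rw [norm_div, norm_mul, norm_mul, norm_prod, norm_prod, Finset.prod_div_distrib, Finset.prod_div_distrib]
  have h1 : ‖(((∏ h ∈ Pset, ((Nl n h).factorial : ℚ)) / ∏ h ∈ Mset, ((Nl n h).factorial : ℚ) : ℚ) : ℂ)‖ =
      (∏ h ∈ Pset, ((Nl n h).factorial : ℝ)) / ∏ h ∈ Mset, ((Nl n h).factorial : ℝ) := by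
    rw [Complex.norm_ratCast, abs_of_nonneg]
    · push_cast
      rfl
    · apply Rat.cast_nonneg.2
      positivity
  rw [h1]
  ring

theorem norm_lin (n : ℕ) {y : ℝ} (hy : 0 < y) : ‖2 * tp n y + 83 * n‖ ≤ 68 * (n + y + 1) := by
  have h1 : 2 * tp n y + 83 * n = ((68 * n : ℝ) : ℂ) + ((2 * y : ℝ) : ℂ) * Complex.I := by
    unfold tp
    push_cast
    ring
  rw [h1]
  refine (norm_add_le _ _).trans ?_
  rw [norm_mul, Complex.norm_I, Complex.norm_real, Complex.norm_real, mul_one, norm_of_nonneg (by positivity),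
    norm_of_nonneg (by positivity)]
  linarith

/-- constant -/
noncomputable def CR : ℝ := 68 * 76 ^ 6 * exp 61

theorem CR_pos : 0 < CR := by unfold CR; positivity

theorem R_le_GG (n : ℕ) (hn : Odd n) {y : ℝ} (hy : 0 < y) :
    ‖R n (tp n y)‖ ≤ CR * (n + y + 1) ^ 18 * exp (n * GG (y / n)) := by
  have hnpos : 0 < n := hn.pos
  have hn0 : (0 : ℝ) < n := by exact_mod_cast hnpos
  have hn1 : (1 : ℝ) ≤ n := by exact_mod_cast hnpos
  rw [norm_R]
  have hP : ∏ h ∈ Pset, ((Nl n h).factorial / ‖∏ m ∈ blk n h, (tp n y + m)‖ : ℝ) ≤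
      ∏ h ∈ Pset, exp (n * gP h (y / n) + (log n + 5)) := by
    refine Finset.prod_le_prod (fun h _ => by positivity) fun h hh => ?_
    have := Finset.mem_Icc.1 hh
    exact blockP n h hnpos this.1 this.2 hy
  have hM : ∏ h ∈ Mset, (‖∏ m ∈ blk n h, (tp n y + m)‖ / (Nl n h).factorial : ℝ) ≤
      ∏ h ∈ Mset, exp (-(n * gM h (y / n)) + (2 * log (76 * (n + y + 1)) + 2)) := by
    refine Finset.prod_le_prod (fun h _ => by positivity) fun h hh => ?_
    refine blockM n h hn ?_ hy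
    simp only [Mset, Finset.mem_insert, Finset.mem_singleton] at hh
    omega
  rw [← exp_sum, Finset.sum_add_distrib, Finset.sum_const, ← Finset.mul_sum] at hP
  rw [← exp_sum, Finset.sum_add_distrib, Finset.sum_const, Finset.sum_neg_distrib, ← Finset.mul_sum] at hM
  have cP : Pset.card = 11 := rfl
  have cM : Mset.card = 3 := rfl
  rw [cP] at hP
  rw [cM] at hM
  have hlin := norm_lin n hy
  have hP0 : 0 ≤ ∏ h ∈ Pset, ((Nl n h).factorial / ‖∏ m ∈ blk n h, (tp n y + m)‖ : ℝ) :=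
    Finset.prod_nonneg fun h _ => by positivity
  have hM0 : 0 ≤ ∏ h ∈ Mset, (‖∏ m ∈ blk n h, (tp n y + m)‖ / (Nl n h).factorial : ℝ) :=
    Finset.prod_nonneg fun h _ => by positivity
  have hX : (1 : ℝ) ≤ n + y + 1 := by linarith
  have hX0 : (0 : ℝ) < n + y + 1 := by linarith
  calc _ ≤ (68 * (n + y + 1)) * exp (n * ∑ h ∈ Pset, gP h (y / n) + 11 • (log n + 5)) *
        exp (-(n * ∑ h ∈ Mset, gM h (y / n)) + 3 • (2 * log (76 * (n + y + 1)) + 2)) := by
        gcongr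
    _ = (68 * (n + y + 1)) * exp (11 * log n + 6 * log (76 * (n + y + 1)) + 61) * exp (n * GG (y / n)) := by
        rw [mul_assoc (68 * ((n : ℝ) + y + 1)), mul_assoc (68 * ((n : ℝ) + y + 1)), ← exp_add, ← exp_add, GG_eq]
        congr 2
        simp only [nsmul_eq_mul]
        push_cast
        ring
    _ ≤ (68 * (n + y + 1)) * ((n + y + 1) ^ 11 * (76 * (n + y + 1)) ^ 6 * exp 61) * exp (n * GG (y / n)) := by
        gcongr
        rw [exp_add, exp_add]
        have h1 : exp (11 * log n) ≤ (n + y + 1) ^ 11 := by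
          have : exp (11 * log n) = (n : ℝ) ^ 11 := by
            rw [show (11 : ℝ) * log n = ((11 : ℕ) : ℝ) * log n by norm_num, exp_nat_mul, exp_log hn0]
          rw [this]
          gcongr
          linarith
        have h2 : exp (6 * log (76 * (n + y + 1))) = (76 * (n + y + 1)) ^ 6 := by
          rw [show (6 : ℝ) * log (76 * (n + y + 1)) = ((6 : ℕ) : ℝ) * log (76 * (n + y + 1)) by norm_num, exp_nat_mul,
            exp_log (by positivity)]
        rw [h2]
        gcongr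
    _ = CR * (n + y + 1) ^ 18 * exp (n * GG (y / n)) := by
        unfold CR
        ring

theorem R_le_pos (n : ℕ) (hn : Odd n) {y : ℝ} (hy : 0 < y) :
    ‖R n (tp n y)‖ ≤ CR * (n + y + 1) ^ 18 * exp (-(1523 / 4) * n + 2 * π * y - y / 100) := by
  have hnpos : 0 < n := hn.pos
  have hn0 : (0 : ℝ) < n := by exact_mod_cast hnpos
  refine (R_le_GG n hn hy).trans ?_
  have h1 := sizeIneq (η := y / n) (by positivity)
  have h2 := mul_le_mul_of_nonneg_left h1 hn0.le
  have h3 : n * (GG (y / n) - 2 * π * (y / n)) = n * GG (y / n) - 2 * π * y := by field_simp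
  have h4 : n * (-(1523 / 4) - y / n / 100) = -(1523 / 4) * n - y / 100 := by field_simp
  rw [h3, h4] at h2
  have hC := CR_pos
  gcongr
  linarith

theorem R_denom_ne (n : ℕ) (hn : 0 < n) (y : ℝ) : (∏ h ∈ Pset, ∏ m ∈ blk n h, (tp n y + m)) ≠ 0 := by
  refine Finset.prod_ne_zero_iff.2 fun h hh => Finset.prod_ne_zero_iff.2 fun m hm h0 => ?_
  have h1 := Finset.mem_Icc.1 hh
  have h2 := Finset.mem_Icc.1 hm
  have h3 : (tp n y + m).re = (m : ℝ) - 15 * n / 2 := by
    unfold tp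
    simp
    ring
  rw [h0, Complex.zero_re] at h3
  have h4 : 25 * n ≤ m := (Nat.mul_le_mul_right n h1.1).trans h2.1
  have h5 : (25 : ℝ) * n ≤ m := by exact_mod_cast h4
  have h6 : (0 : ℝ) < n := by exact_mod_cast hn
  linarith

theorem continuous_tp (n : ℕ) : Continuous (tp n) := by
  unfold tp
  fun_prop

theorem continuous_R (n : ℕ) (hn : 0 < n) : Continuous fun y => R n (tp n y) := by
  have htp := continuous_tp n
  unfold R
  refine Continuous.div ?_ ?_ (R_denom_ne n hn)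
  · refine Continuous.mul (by fun_prop) ?_
    exact continuous_finsetProd _ fun h _ => continuous_finsetProd _ fun m _ => by fun_prop
  · exact continuous_finsetProd _ fun h _ => continuous_finsetProd _ fun m _ => by fun_prop

theorem R_conj (n : ℕ) (y : ℝ) : R n (tp n (-y)) = (starRingEnd ℂ) (R n (tp n y)) := by
  have h1 : tp n (-y) = (starRingEnd ℂ) (tp n y) := by
    unfold tp
    rw [map_add, map_mul, Complex.conj_ofReal, Complex.conj_ofReal, Complex.conj_I]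
    push_cast
    ring
  rw [h1]
  unfold R
  simp only [map_div₀, map_mul, map_prod, map_add, map_natCast, map_ofNat]
  congr 3
  rw [← Complex.ofReal_ratCast, Complex.conj_ofReal]

/-- Size of `R n` on the line `Re t = -15 n / 2`. -/
theorem R_bound (n : ℕ) (hn : Odd n) (y : ℝ) :
    ‖R n (((-(15 * n / 2) : ℝ) : ℂ) + (y : ℂ) * Complex.I)‖ ≤
      CR * (n + |y| + 1) ^ 18 * exp (-(1523 / 4) * n + 2 * π * |y| - |y| / 100) := by
  change ‖R n (tp n y)‖ ≤ _
  rcases lt_trichotomy y 0 with h | h | h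
  · have h1 := R_le_pos n hn (y := -y) (by linarith)
    rw [R_conj, RCLike.norm_conj] at h1
    rwa [abs_of_neg h]
  · subst h
    have hc : Continuous fun y : ℝ => ‖R n (tp n y)‖ := (continuous_R n hn.pos).norm
    have hc2 : Continuous fun y : ℝ => CR * (n + y + 1) ^ 18 * exp (-(1523 / 4) * n + 2 * π * y - y / 100) := by
      fun_prop
    have h1 := ContinuousWithinAt.closure_le (s := Ioi (0 : ℝ)) (x := 0) (by rw [closure_Ioi]; simp)
      hc.continuousWithinAt hc2.continuousWithinAt (fun y hy => R_le_pos n hn hy)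
    simpa using h1
  · rw [abs_of_pos h]
    exact R_le_pos n hn h

end Pool.Agent.OddZeta
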