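import Pool.Agent.OddZeta.SBoundOf
import Pool.Agent.OddZeta.SizeR

/-!
# `S_bound` from partial fractions and the shift  (module B3, seats helper88, helper30)
-/

namespace Pool.Agent.OddZeta

open Filter Topology Complex MeasureTheory Pool.Agent.Zeta579

/-- B3 from B0 and B2 -/
theorem S_bound_of'
    (hPF : ∀ n : ℕ, 0 < n → ∀ t : ℂ, (∀ m ∈ Finset.Icc (25 * n) (58 * n), t + (m : ℂ) ≠ 0) →
      R n t = ∑ l ∈ poles n, ∑ i ∈ Finset.Icc 1 8, ((a n l i : ℚ) : ℂ) / (t + l) ^ i)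
    (hshift : ∀ n : ℕ, 0 < n → ∀ M : ℕ, 6 * n ≤ M → M ≤ 25 * n →
      S n = ∑ l ∈ poles n, ∑ i ∈ Finset.Icc 1 8,
        ((a n l i * ((i + 1).choose 2 : ℚ) : ℚ) : ℝ) * tail (i + 2) (l - M)) :
    ∃ N : ℕ, ∀ n ≥ N, Odd n → |S n| ≤ Real.exp (-(3806 / 10 : ℝ) * n) := by
  refine S_bound_of hPF hshift (C := CR) (δ := 1 / 100) (α := 1523 / 4) (A := 18) (N0 := 0)
    (by norm_num) (by norm_num) fun n _ hodd y => ?_
  have h := R_bound n hodd y
  have e1 : (((-(15 * n / 2) : ℝ) : ℂ) + (y : ℂ) * Complex.I) = -(15 * (n : ℂ) / 2) + y * I := by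
    push_cast
    ring
  rw [e1] at h
  refine h.trans (le_of_eq ?_)
  congr 2
  ring

end Pool.Agent.OddZeta
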