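import Pool.Agent.OddZeta.SEq
import Pool.Agent.OddZeta.SBoundSize

/-!
# `S_shift` (B2) and `S_bound` (B3), final forms (seats helper88, helper30, helper91)
-/

namespace Pool.Agent.OddZeta

/-- B2, the sum may be started at any `t0` in the triple zero region -/
theorem S_shift (n : ℕ) (hn : 0 < n) (M : ℕ) (hM : 6 * n ≤ M) (hM' : M ≤ 25 * n) :
    S n = ∑ l ∈ poles n, ∑ i ∈ Finset.Icc 1 8,
      ((a n l i * ((i + 1).choose 2 : ℚ) : ℚ) : ℝ) * tail (i + 2) (l - M) :=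
  S_shift' n hn M hM hM'

/-- B3, size -/
theorem S_bound : ∃ N : ℕ, ∀ n ≥ N, Odd n → |S n| ≤ Real.exp (-(3806 / 10 : ℝ) * n) :=
  S_bound_of' partial_fractions S_shift

end Pool.Agent.OddZeta
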