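import Pool.Agent.OddZeta.Defs
import Pool.Agent.Zeta579.Contour

/-!
# Size of `S n` from the size of `R n` on the line `Re t = - 15 n / 2`   (module B3a/B3b, seat helper88)
-/

namespace Pool.Agent.OddZeta

open Filter Topology Complex MeasureTheory Pool.Agent.Zeta579

/-- the partial fraction sum -/
noncomputable def PF (n : ℕ) (t : ℂ) : ℂ :=
  ∑ l ∈ poles n, ∑ i ∈ Finset.Icc 1 8, ((a n l i : ℚ) : ℂ) / (t + l) ^ i

theorem hasDerivAt_pf (c l : ℂ) (i : ℕ) {t : ℂ} (h : t + l ≠ 0) :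
    HasDerivAt (fun t => c / (t + l) ^ i) ((-(i : ℂ) * c) / (t + l) ^ (i + 1)) t := by
  have h1 : HasDerivAt (fun t : ℂ => t + l) 1 t := (hasDerivAt_id t).add_const l
  have h2 : HasDerivAt (fun t : ℂ => (t + l) ^ i) ((i : ℂ) * (t + l) ^ (i - 1) * 1) t := h1.fun_pow i
  have h3 : HasDerivAt (fun t : ℂ => ((t + l) ^ i)⁻¹)
      (-((i : ℂ) * (t + l) ^ (i - 1) * 1) / ((t + l) ^ i) ^ 2) t := h2.fun_inv (pow_ne_zero i h)
  have h4 := h3.const_mul c
  have e : (fun t : ℂ => c / (t + l) ^ i) = fun t => c * ((t + l) ^ i)⁻¹ := by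
    funext t; rw [div_eq_mul_inv]
  rw [e]
  refine h4.congr_deriv ?_
  rcases i with _ | i
  · simp
  · simp only [Nat.add_sub_cancel, mul_one]
    field_simp
    ring

theorem poles_re {n l : ℕ} (hl : l ∈ poles n) {t : ℂ} (ht : -(28 * (n : ℝ)) < t.re) :
    0 < (t + l).re := by
  unfold poles at hl
  rw [Finset.mem_Icc] at hl
  have : (28 * (n : ℝ)) ≤ l := by exact_mod_cast hl.1
  simp
  linarith

theorem ne_of_re_pos {z : ℂ} (h : 0 < z.re) : z ≠ 0 := by
  rintro rfl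
  simp at h

theorem hasDerivAt_PF {n : ℕ} {t : ℂ} (ht : -(28 * (n : ℝ)) < t.re) :
    HasDerivAt (PF n) (∑ l ∈ poles n, ∑ i ∈ Finset.Icc (1 : ℕ) 8,
      (-(i : ℂ) * ((a n l i : ℚ) : ℂ)) / (t + l) ^ (i + 1)) t := by
  unfold PF
  refine HasDerivAt.fun_sum fun l hl => HasDerivAt.fun_sum fun i _ => ?_
  exact hasDerivAt_pf _ _ _ (ne_of_re_pos (poles_re hl ht))

theorem differentiableOn_PF (n : ℕ) : DifferentiableOn ℂ (PF n) {t | -(28 * (n : ℝ)) < t.re} :=
  fun _ ht => (hasDerivAt_PF ht).differentiableAt.differentiableWithinAt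

theorem iteratedDeriv_PF {n : ℕ} {t : ℂ} (ht : -(28 * (n : ℝ)) < t.re) :
    iteratedDeriv 2 (PF n) t = 2 * ∑ l ∈ poles n, ∑ i ∈ Finset.Icc 1 8,
      (((a n l i * ((i + 1).choose 2 : ℚ) : ℚ) : ℂ)) * (1 / (t + l) ^ (i + 2)) := by
  have hopen : {t : ℂ | -(28 * (n : ℝ)) < t.re} ∈ 𝓝 t :=
    (isOpen_lt continuous_const Complex.continuous_re).mem_nhds ht
  rw [iteratedDeriv_succ, iteratedDeriv_one]
  have h1 : deriv (PF n) =ᶠ[𝓝 t] fun t => ∑ l ∈ poles n, ∑ i ∈ Finset.Icc (1 : ℕ) 8,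
      (-(i : ℂ) * ((a n l i : ℚ) : ℂ)) / (t + l) ^ (i + 1) := by
    filter_upwards [hopen] with s hs
    exact (hasDerivAt_PF hs).deriv
  rw [h1.deriv_eq]
  have h2 : HasDerivAt (fun t : ℂ => ∑ l ∈ poles n, ∑ i ∈ Finset.Icc (1 : ℕ) 8,
      (-(i : ℂ) * ((a n l i : ℚ) : ℂ)) / (t + l) ^ (i + 1))
      (∑ l ∈ poles n, ∑ i ∈ Finset.Icc (1 : ℕ) 8,
        (-((i + 1 : ℕ) : ℂ) * (-(i : ℂ) * ((a n l i : ℚ) : ℂ))) / (t + l) ^ (i + 1 + 1)) t := by
    refine HasDerivAt.fun_sum fun l hl => HasDerivAt.fun_sum fun i _ => ?_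
    exact hasDerivAt_pf _ _ _ (ne_of_re_pos (poles_re hl ht))
  rw [h2.deriv, Finset.mul_sum]
  refine Finset.sum_congr rfl fun l _ => ?_
  rw [Finset.mul_sum]
  refine Finset.sum_congr rfl fun i _ => ?_
  have h3 : (((i + 1).choose 2 : ℕ) : ℂ) * 2 = (i + 1) * i := by
    have : (i + 1).choose 2 * 2 = (i + 1) * i := by
      rw [Nat.choose_two_right, Nat.add_sub_cancel, Nat.div_mul_cancel]
      exact (Nat.even_mul_pred_self (i + 1)).two_dvd
    exact_mod_cast this
  push_cast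
  have e : (i + 1 + 1 : ℕ) = i + 2 := rfl
  rw [e]
  linear_combination (-((a n l i : ℚ) : ℂ) * (1 / (t + l) ^ (i + 2))) * h3

theorem summable_tail {s : ℕ} (hs : 2 ≤ s) (M : ℕ) :
    Summable fun m : ℕ => 1 / ((m : ℝ) + M + 1) ^ s := by
  have h1 := (summable_nat_add_iff (M + 1)).2 (Real.summable_one_div_nat_pow.2 (show 1 < s by omega))
  refine h1.congr fun m => ?_
  push_cast
  rw [add_assoc]

theorem norm_PF_le {n : ℕ} {t : ℂ} {x : ℝ} (hx : 1 ≤ x) (ht : x - 28 * (n : ℝ) ≤ t.re) :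
    ‖PF n t‖ ≤ (∑ l ∈ poles n, ∑ i ∈ Finset.Icc 1 8, ‖((a n l i : ℚ) : ℂ)‖) * (1 / x) := by
  unfold PF
  rw [Finset.sum_mul]
  refine (norm_sum_le _ _).trans (Finset.sum_le_sum fun l hl => ?_)
  rw [Finset.sum_mul]
  refine (norm_sum_le _ _).trans (Finset.sum_le_sum fun i hi => ?_)
  rw [norm_div, div_eq_mul_one_div]
  refine mul_le_mul_of_nonneg_left ?_ (norm_nonneg _)
  have h1 : x ≤ ‖t + l‖ := by
    have h2 := Complex.re_le_norm (t + l)
    unfold poles at hl
    rw [Finset.mem_Icc] at hl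
    have : (28 * (n : ℝ)) ≤ l := by exact_mod_cast hl.1
    simp at h2
    linarith
  rw [norm_pow]
  have hi1 := (Finset.mem_Icc.1 hi).1
  have h3 : x ≤ ‖t + l‖ ^ i := by
    calc x ≤ ‖t + l‖ := h1
      _ = ‖t + l‖ ^ 1 := (pow_one _).symm
      _ ≤ ‖t + l‖ ^ i := pow_le_pow_right₀ (hx.trans h1) hi1
  exact one_div_le_one_div_of_le (by linarith) h3

/-- `S n` as an integral -/
theorem S_eq_IR {n M : ℕ} (hn : 0 < n) (hM' : M ≤ 25 * n)
    (hshift : S n = ∑ l ∈ poles n, ∑ i ∈ Finset.Icc 1 8,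
      ((a n l i * ((i + 1).choose 2 : ℚ) : ℚ) : ℝ) * tail (i + 2) (l - M)) :
    (S n : ℂ) = -(IR (PF n) (-(M : ℤ))) / (2 * Real.pi) := by
  have hn' : (1 : ℝ) ≤ n := by exact_mod_cast hn
  have hMr : (M : ℝ) ≤ 25 * n := by exact_mod_cast hM'
  have h1 := tendsto_sum_iteratedDeriv (R := PF n) (a := -(28 * (n : ℝ)))
    (M := (∑ l ∈ poles n, ∑ i ∈ Finset.Icc 1 8, ‖((a n l i : ℚ) : ℂ)‖) * (1 / 1))
    (k0 := -(M : ℤ)) (by push_cast; linarith) (differentiableOn_PF n) ?_ ?_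
  · have h2 : Tendsto (fun N : ℕ => ∑ j ∈ Finset.range N,
        iteratedDeriv 2 (PF n) (((-(M : ℤ) : ℤ) : ℂ) + 1 + j)) atTop (𝓝 (2 * (S n : ℂ))) := by
      have h3 : ∀ N : ℕ, ∑ j ∈ Finset.range N,
          iteratedDeriv 2 (PF n) (((-(M : ℤ) : ℤ) : ℂ) + 1 + j) =
          2 * ∑ l ∈ poles n, ∑ i ∈ Finset.Icc 1 8,
            (((a n l i * ((i + 1).choose 2 : ℚ) : ℚ) : ℂ)) *
              (((∑ j ∈ Finset.range N, 1 / ((j : ℝ) + (l - M : ℕ) + 1) ^ (i + 2) : ℝ)) : ℂ) := by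
        intro N
        have h4 : ∀ j ∈ Finset.range N,
            iteratedDeriv 2 (PF n) (((-(M : ℤ) : ℤ) : ℂ) + 1 + j) =
            2 * ∑ l ∈ poles n, ∑ i ∈ Finset.Icc 1 8,
              (((a n l i * ((i + 1).choose 2 : ℚ) : ℚ) : ℂ)) *
                (((1 / ((j : ℝ) + (l - M : ℕ) + 1) ^ (i + 2) : ℝ)) : ℂ) := by
          intro j _
          rw [iteratedDeriv_PF]
          · congr 1
            refine Finset.sum_congr rfl fun l hl => Finset.sum_congr rfl fun i _ => ?_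
            have hl' : M ≤ l := by
              unfold poles at hl
              rw [Finset.mem_Icc] at hl
              omega
            push_cast [Nat.cast_sub hl']
            congr 3
            ring
          · have : (0 : ℝ) ≤ j := Nat.cast_nonneg j
            simp
            linarith
        rw [Finset.sum_congr rfl h4, ← Finset.mul_sum, Finset.sum_comm]
        congr 1
        refine Finset.sum_congr rfl fun l _ => ?_
        rw [Finset.sum_comm]
        refine Finset.sum_congr rfl fun i _ => ?_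
        rw [← Finset.mul_sum, Complex.ofReal_sum]
      simp_rw [h3]
      have h5 : (2 * (S n : ℂ)) = 2 * ∑ l ∈ poles n, ∑ i ∈ Finset.Icc 1 8,
            (((a n l i * ((i + 1).choose 2 : ℚ) : ℚ) : ℂ)) * ((tail (i + 2) (l - M) : ℝ) : ℂ) := by
        rw [hshift]
        push_cast
        rfl
      rw [h5]
      refine Tendsto.const_mul _ ?_
      refine tendsto_finsetSum _ fun l _ => tendsto_finsetSum _ fun i _ => ?_
      refine Tendsto.const_mul _ ?_
      refine (Complex.continuous_ofReal.tendsto _).comp ?_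
      exact (summable_tail (by omega) (l - M)).hasSum.tendsto_sum_nat
    have h6 := tendsto_nhds_unique h2 h1
    have hpi : (Real.pi : ℂ) ≠ 0 := by exact_mod_cast Real.pi_ne_zero
    field_simp at h6 ⊢
    linear_combination h6
  · intro t ht
    push_cast at ht
    exact norm_PF_le le_rfl (by linarith)
  · intro ε hε
    set C := ∑ l ∈ poles n, ∑ i ∈ Finset.Icc 1 8, ‖((a n l i : ℚ) : ℂ)‖ with hC
    have hC0 : 0 ≤ C := Finset.sum_nonneg fun _ _ => Finset.sum_nonneg fun _ _ => norm_nonneg _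
    refine ⟨(1 + C / ε) - 28 * n, fun t ht => ?_⟩
    refine (norm_PF_le (x := 1 + C / ε) (by have := div_nonneg hC0 hε.le; linarith) ht).trans ?_
    have h7 : 0 < 1 + C / ε := by have := div_nonneg hC0 hε.le; linarith
    rw [← hC, mul_one_div, div_le_iff₀ h7]
    have h8 : ε * (C / ε) = C := by field_simp
    nlinarith

theorem pow_le_exp {δ : ℝ} (hδ : 0 < δ) (A : ℕ) {x : ℝ} (hx : 0 ≤ x) :
    (x + 1) ^ A ≤ (A.factorial / δ ^ A * Real.exp δ) * Real.exp (δ * x) := by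
  have h1 := Real.pow_div_factorial_le_exp (x := δ * (x + 1)) (by positivity) A
  rw [mul_pow, div_le_iff₀ (by positivity), mul_add, Real.exp_add, mul_one] at h1
  rw [div_mul_eq_mul_div, div_mul_eq_mul_div, le_div_iff₀ (by positivity)]
  linarith

theorem integrable_poly_exp {δ : ℝ} (hδ : 0 < δ) (A : ℕ) :
    Integrable fun y : ℝ => (|y| + 1) ^ A * Real.exp (-(δ * |y|)) := by
  have h1 := (integrable_exp_abs (c := δ / 2) (by positivity)).const_mul
    (A.factorial / (δ / 2) ^ A * Real.exp (δ / 2))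
  refine h1.mono' (by fun_prop) ?_
  filter_upwards with y
  rw [Real.norm_eq_abs, abs_of_nonneg (by positivity)]
  calc (|y| + 1) ^ A * Real.exp (-(δ * |y|))
      ≤ ((A.factorial / (δ / 2) ^ A * Real.exp (δ / 2)) * Real.exp (δ / 2 * |y|)) *
        Real.exp (-(δ * |y|)) := by
        gcongr
        exact pow_le_exp (by positivity) A (abs_nonneg y)
    _ = _ := by
        rw [mul_assoc, ← Real.exp_add]
        congr 2
        ring

/-- B3, from partial fractions (B0), shift (B2) and the size on the line (B3c, B3d) -/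
theorem S_bound_of
    (hPF : ∀ n : ℕ, 0 < n → ∀ t : ℂ, (∀ m ∈ Finset.Icc (25 * n) (58 * n), t + (m : ℂ) ≠ 0) →
      R n t = ∑ l ∈ poles n, ∑ i ∈ Finset.Icc 1 8, ((a n l i : ℚ) : ℂ) / (t + l) ^ i)
    (hshift : ∀ n : ℕ, 0 < n → ∀ M : ℕ, 6 * n ≤ M → M ≤ 25 * n →
      S n = ∑ l ∈ poles n, ∑ i ∈ Finset.Icc 1 8,
        ((a n l i * ((i + 1).choose 2 : ℚ) : ℚ) : ℝ) * tail (i + 2) (l - M))
    {C δ α : ℝ} {A N0 : ℕ} (hδ : 0 < δ) (hα : 3806 / 10 < α)
    (hsize : ∀ n : ℕ, N0 ≤ n → Odd n → ∀ y : ℝ, ‖R n (-(15 * (n : ℂ) / 2) + y * I)‖ ≤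
      C * ((n : ℝ) + |y| + 1) ^ A * Real.exp (-α * n + 2 * Real.pi * |y| - δ * |y|)) :
    ∃ N : ℕ, ∀ n ≥ N, Odd n → |S n| ≤ Real.exp (-(3806 / 10 : ℝ) * n) := by
  set J := ∫ y : ℝ, (|y| + 1) ^ A * Real.exp (-(δ * |y|)) with hJ
  have hJ0 : 0 ≤ J := integral_nonneg fun y => by positivity
  have hmain : ∀ n : ℕ, N0 ≤ n → Odd n →
      |S n| ≤ (2 * Real.pi ^ 2 * (|C| * J)) * (((n : ℝ) + 1) ^ A * Real.exp (-α * n)) := by
    intro n hN0 hodd
    have hn : 0 < n := hodd.pos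
    have hn' : (1 : ℝ) ≤ n := by exact_mod_cast hn
    obtain ⟨k, hk⟩ := hodd
    set M := 15 * k + 8 with hM
    have hM2 : 2 * (M : ℝ) = 15 * n + 1 := by
      rw [hM, hk]; push_cast; ring
    have h1 := S_eq_IR (n := n) (M := M) hn (by omega) (hshift n hn M (by omega) (by omega))
    have hg : Integrable fun y : ℝ => (|C| * (((n : ℝ) + 1) ^ A * Real.exp (-α * n))) *
        ((|y| + 1) ^ A * Real.exp (-(δ * |y|))) := (integrable_poly_exp hδ A).const_mul _
    have h2 : ‖IR (PF n) (-(M : ℤ))‖ ≤ 4 * Real.pi ^ 3 * ∫ y : ℝ,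
        (|C| * (((n : ℝ) + 1) ^ A * Real.exp (-α * n))) *
        ((|y| + 1) ^ A * Real.exp (-(δ * |y|))) := by
      refine norm_IR_le_integral hg fun y => ?_
      have e1 : (((-(M : ℤ) : ℤ)) : ℂ) + 1 / 2 + y * I = -(15 * (n : ℂ) / 2) + y * I := by
        have : 2 * (M : ℂ) = 15 * n + 1 := by exact_mod_cast hM2
        push_cast
        linear_combination (-1 / 2) * this
      rw [e1]
      have e2 : PF n (-(15 * (n : ℂ) / 2) + y * I) = R n (-(15 * (n : ℂ) / 2) + y * I) := by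
        rw [hPF n hn]
        · rfl
        · intro m hm
          have hm' : (25 * (n : ℝ)) ≤ m := by exact_mod_cast (Finset.mem_Icc.1 hm).1
          apply ne_of_re_pos
          have e3 : (-(15 * (n : ℂ) / 2) + y * I + (m : ℂ)).re = -(15 * n / 2) + m := by
            have : (15 * (n : ℂ) / 2) = ((15 * n / 2 : ℝ) : ℂ) := by push_cast; ring
            rw [this]
            simp
          rw [e3]
          linarith
      rw [e2]
      have h3 := hsize n hN0 ⟨k, hk⟩ y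
      have hpow : ((n : ℝ) + |y| + 1) ^ A ≤ ((n : ℝ) + 1) ^ A * (|y| + 1) ^ A := by
        rw [← mul_pow]
        have := abs_nonneg y
        apply pow_le_pow_left₀ (by positivity)
        nlinarith
      calc ‖R n (-(15 * (n : ℂ) / 2) + y * I)‖ * Real.exp (-(2 * Real.pi * |y|))
          ≤ (C * ((n : ℝ) + |y| + 1) ^ A * Real.exp (-α * n + 2 * Real.pi * |y| - δ * |y|)) *
            Real.exp (-(2 * Real.pi * |y|)) := by gcongr
        _ ≤ (|C| * (((n : ℝ) + 1) ^ A * (|y| + 1) ^ A) *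
            Real.exp (-α * n + 2 * Real.pi * |y| - δ * |y|)) *
            Real.exp (-(2 * Real.pi * |y|)) := by
            gcongr
            exact le_abs_self C
        _ = _ := by
            have : Real.exp (-α * n + 2 * Real.pi * |y| - δ * |y|) =
              Real.exp (-α * n) * Real.exp (2 * Real.pi * |y|) * Real.exp (-(δ * |y|)) := by
              rw [← Real.exp_add, ← Real.exp_add]
              congr 1
            rw [this]
            have h4 : Real.exp (2 * Real.pi * |y|) * Real.exp (-(2 * Real.pi * |y|)) = 1 := by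
              rw [← Real.exp_add]; simp
            linear_combination (|C| * (((n : ℝ) + 1) ^ A * (|y| + 1) ^ A) *
              Real.exp (-α * n) * Real.exp (-(δ * |y|))) * h4
    rw [integral_const_mul, ← hJ] at h2
    have h5 : |S n| = ‖(S n : ℂ)‖ := (RCLike.norm_ofReal (K := ℂ) (S n)).symm
    rw [h5, h1, norm_div, norm_neg]
    have h6 : ‖(2 * (Real.pi : ℂ))‖ = 2 * Real.pi := by
      rw [norm_mul, Complex.norm_real, Real.norm_eq_abs, abs_of_pos Real.pi_pos]
      simp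
    rw [h6, div_le_iff₀ (by positivity)]
    refine h2.trans (le_of_eq ?_)
    ring
  -- absorb the polynomial
  set γ := α - 3806 / 10 with hγ
  have hγ0 : 0 < γ := by rw [hγ]; linarith
  obtain ⟨N1, hN1⟩ := exists_nat_ge
    (((2 * Real.pi ^ 2 * (|C| * J)) * (A.factorial / (γ / 2) ^ A * Real.exp (γ / 2))) / (γ / 2))
  refine ⟨max N0 N1, fun n hn hodd => ?_⟩
  refine (hmain n (le_trans (le_max_left _ _) hn) hodd).trans ?_
  have hn1 : (N1 : ℝ) ≤ n := by exact_mod_cast (le_trans (le_max_right _ _) hn)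
  have h7 := pow_le_exp (δ := γ / 2) (by positivity) A (x := (n : ℝ)) (Nat.cast_nonneg n)
  have h8 : ((2 * Real.pi ^ 2 * (|C| * J)) * (A.factorial / (γ / 2) ^ A * Real.exp (γ / 2))) ≤
      Real.exp (γ / 2 * n) := by
    have h9 := hN1.trans hn1
    rw [div_le_iff₀ (by positivity)] at h9
    refine h9.trans ?_
    have := Real.add_one_le_exp (γ / 2 * n)
    linarith
  calc (2 * Real.pi ^ 2 * (|C| * J)) * (((n : ℝ) + 1) ^ A * Real.exp (-α * n))
      ≤ (2 * Real.pi ^ 2 * (|C| * J)) * (((A.factorial / (γ / 2) ^ A * Real.exp (γ / 2)) *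
          Real.exp (γ / 2 * n)) * Real.exp (-α * n)) := by gcongr
    _ = ((2 * Real.pi ^ 2 * (|C| * J)) * (A.factorial / (γ / 2) ^ A * Real.exp (γ / 2))) *
          Real.exp (γ / 2 * n) * Real.exp (-α * n) := by ring
    _ ≤ Real.exp (γ / 2 * n) * Real.exp (γ / 2 * n) * Real.exp (-α * n) := by gcongr
    _ = Real.exp (-(3806 / 10 : ℝ) * n) := by
        rw [← Real.exp_add, ← Real.exp_add]
        congr 1
        rw [hγ]
        ring

end Pool.Agent.OddZeta
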