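import Mathlib
import Pool.Agent.OddZeta.Defs
import Pool.Agent.OddZeta.PartFrac

set_option autoImplicit false

/-!
# Modules B1, B2: parity, the linear form, and the shift
-/

open Finset

namespace Pool.Agent.OddZeta

/-! ### The residue sum -/

lemma sum_oo_pos {n l : ℕ} (hl : l ∈ poles n) :
    ∑ k ∈ (II n).erase l, oo n k + oo n l = ∑ k ∈ II n, oo n k :=
  Finset.sum_erase_add _ _ (poles_subset_II n hl)

theorem sum_a_one (n : ℕ) : ∑ l ∈ poles n, a n l 1 = 0 := by
  have h1 : (Nu n).coeff (∑ k ∈ II n, oo n k - 1) = 0 := by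
    apply Polynomial.coeff_eq_zero_of_natDegree_lt
    have h2 := natDegree_Nu_le n
    have h3 := sum_oo_ww n
    omega
  rw [pf_a, Polynomial.finsetSum_coeff] at h1
  rw [← h1]
  refine Finset.sum_congr rfl (fun l hl => ?_)
  have hD := sum_oo_pos hl
  have hpos := oo_pos hl
  rw [Polynomial.finsetSum_coeff, Finset.sum_eq_single 1]
  · rw [mul_assoc, Polynomial.coeff_C_mul]
    have hm : (gg l ^ (oo n l - 1) * ∏ k ∈ (II n).erase l, gg k ^ oo n k).Monic :=
      ((gg_monic l).pow _).mul (monic_prod_gg _ _)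
    have hd : (gg l ^ (oo n l - 1) * ∏ k ∈ (II n).erase l, gg k ^ oo n k).natDegree
        = ∑ k ∈ II n, oo n k - 1 := by
      rw [((gg_monic l).pow _).natDegree_mul (monic_prod_gg _ _), natDegree_prod_gg,
        (gg_monic l).natDegree_pow, natDegree_gg]
      omega
    have := hm.coeff_natDegree
    rw [hd] at this
    rw [this, mul_one]
  · intro i hi hi1
    rw [mem_Icc] at hi
    by_cases hio : i ≤ oo n l
    · apply Polynomial.coeff_eq_zero_of_natDegree_lt
      rw [mul_assoc]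
      refine lt_of_le_of_lt (Polynomial.natDegree_C_mul_le _ _) ?_
      rw [((gg_monic l).pow _).natDegree_mul (monic_prod_gg _ _), natDegree_prod_gg,
        (gg_monic l).natDegree_pow, natDegree_gg]
      omega
    · rw [a_eq_zero hl (by omega), map_zero, zero_mul, zero_mul, Polynomial.coeff_zero]
  · intro h
    exact absurd (by decide) h

/-! ### Symmetry -/

lemma mem_blk_refl {n h m : ℕ} (hh : h ≤ 83) (hm : m ∈ blk n h) : 83 * n - m ∈ blk n h := by
  rw [mem_blk] at hm ⊢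
  obtain ⟨k, hk⟩ : ∃ k, 83 = h + k := ⟨83 - h, by omega⟩
  have hk' : 83 - h = k := by omega
  rw [hk'] at hm ⊢
  have h1 : 83 * n = h * n + k * n := by rw [hk, Nat.add_mul]
  omega

lemma mem_blk_refl_iff {n h m : ℕ} (hh : h ≤ 83) (hm : m ≤ 83 * n) :
    83 * n - m ∈ blk n h ↔ m ∈ blk n h := by
  constructor
  · intro h1
    have := mem_blk_refl hh h1
    rwa [Nat.sub_sub_self hm] at this
  · exact mem_blk_refl hh

lemma le_of_mem_blk {n h m : ℕ} (hm : m ∈ blk n h) : m ≤ 83 * n := by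
  have := blk_subset_II n h hm
  unfold II at this
  rw [mem_Icc] at this
  exact this.2

lemma B_refl (n h l : ℕ) (hh : h ≤ 83) (hl : l ≤ 83 * n) :
    B n h (83 * n - l) = (-1) ^ ((blk n h).erase l).card * PowerSeries.rescale (-1 : ℚ) (B n h l) := by
  unfold B
  rw [map_prod, ← Finset.prod_const, ← Finset.prod_mul_distrib]
  refine Finset.prod_nbij' (fun m => 83 * n - m) (fun m => 83 * n - m) ?_ ?_ ?_ ?_ ?_
  · intro m hm
    rw [mem_erase] at hm ⊢
    have h1 := le_of_mem_blk hm.2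
    refine ⟨?_, mem_blk_refl hh hm.2⟩
    omega
  · intro m hm
    rw [mem_erase] at hm ⊢
    have h1 := le_of_mem_blk hm.2
    refine ⟨?_, mem_blk_refl hh hm.2⟩
    omega
  · intro m hm
    rw [mem_erase] at hm
    have h1 := le_of_mem_blk hm.2
    omega
  · intro m hm
    rw [mem_erase] at hm
    have h1 := le_of_mem_blk hm.2
    omega
  · intro m hm
    rw [mem_erase] at hm
    have h1 := le_of_mem_blk hm.2
    rw [Nat.cast_sub hl, Nat.cast_sub h1, map_add, PowerSeries.rescale_X]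
    have h2 : PowerSeries.rescale (-1 : ℚ) (PowerSeries.C (((83 * n : ℕ) : ℚ) - m - l))
        = PowerSeries.C (((83 * n : ℕ) : ℚ) - m - l) := by
      ext i
      rw [PowerSeries.coeff_rescale, PowerSeries.coeff_C]
      by_cases hi : i = 0
      · rw [if_pos hi, hi, pow_zero, one_mul]
      · rw [if_neg hi, mul_zero]
    rw [h2]
    simp only [map_sub, map_neg, map_one]
    ring

lemma ord_refl (n l : ℕ) (hl : l ≤ 83 * n) : ord n (83 * n - l) = ord n l := by
  unfold ord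
  have h1 : {h ∈ Pset | 83 * n - l ∈ blk n h} = {h ∈ Pset | l ∈ blk n h} := by
    refine Finset.filter_congr (fun h hh => ?_)
    rw [mem_Pset] at hh
    exact mem_blk_refl_iff (by omega) hl
  have h2 : {h ∈ Mset | 83 * n - l ∈ blk n h} = {h ∈ Mset | l ∈ blk n h} := by
    refine Finset.filter_congr (fun h hh => ?_)
    rw [mem_Mset] at hh
    exact mem_blk_refl_iff (by omega) hl
  rw [h1, h2]

lemma mem_poles_refl {n l : ℕ} (hl : l ∈ poles n) : 83 * n - l ∈ poles n := by
  rw [mem_poles] at hl ⊢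
  exact mem_blk_refl (by norm_num) hl

lemma le_of_mem_poles {n l : ℕ} (hl : l ∈ poles n) : l ≤ 83 * n := by
  rw [mem_poles] at hl
  exact le_of_mem_blk hl

lemma prod_B_refl (n l : ℕ) (hl : l ≤ 83 * n) (H : Finset ℕ) (hH : ∀ h ∈ H, h ≤ 83) :
    ∏ h ∈ H, B n h (83 * n - l) = (-1) ^ (∑ h ∈ H, ((blk n h).erase l).card) *
      PowerSeries.rescale (-1 : ℚ) (∏ h ∈ H, B n h l) := by
  rw [map_prod, ← Finset.prod_pow_eq_pow_sum, ← Finset.prod_mul_distrib]
  exact Finset.prod_congr rfl (fun h hh => B_refl n h l (hH h hh) hl)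

lemma sum_card_erase (n l : ℕ) (H : Finset ℕ) :
    ∑ h ∈ H, ((blk n h).erase l).card + #{h ∈ H | l ∈ blk n h} = ∑ h ∈ H, (blk n h).card := by
  rw [Finset.card_filter, ← Finset.sum_add_distrib]
  refine Finset.sum_congr rfl (fun h _ => ?_)
  by_cases hl : l ∈ blk n h
  · rw [if_pos hl]
    exact Finset.card_erase_add_one hl
  · rw [if_neg hl, Finset.erase_eq_of_notMem hl, add_zero]

lemma sum_card_Pset (n : ℕ) : ∑ h ∈ Pset, (blk n h).card = 253 * n + 11 := by
  rw [← sum_card_filter]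
  exact sum_ee n

lemma sum_card_Mset (n : ℕ) : ∑ h ∈ Mset, (blk n h).card = 231 * n + 3 := by
  rw [← sum_card_filter]
  exact sum_zz n

lemma constCoeff_prod_B (n l : ℕ) (H : Finset ℕ) :
    PowerSeries.constantCoeff (∏ h ∈ H, B n h l) ≠ 0 := by
  rw [prod_B]
  exact constCoeff_prod_ne l _ (Finset.notMem_erase _ _) _

lemma F_mul (n l : ℕ) : F n l * ∏ h ∈ Pset, B n h l = PowerSeries.C (K n) *
    (PowerSeries.C (83 * (n : ℚ) - 2 * (l : ℚ)) + 2 * PowerSeries.X) * ∏ h ∈ Mset, B n h l := by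
  unfold F
  rw [mul_assoc, mul_comm (∏ h ∈ Pset, B n h l)⁻¹ _,
    PowerSeries.mul_inv_cancel _ (constCoeff_prod_B n l Pset), mul_one]

lemma rescale_C' (c : ℚ) : PowerSeries.rescale (-1 : ℚ) (PowerSeries.C c) = PowerSeries.C c := by
  ext i
  rw [PowerSeries.coeff_rescale, PowerSeries.coeff_C]
  by_cases hi : i = 0
  · rw [if_pos hi, hi, pow_zero, one_mul]
  · rw [if_neg hi, mul_zero]

lemma F_refl (n l : ℕ) (hl : l ≤ 83 * n) :
    F n (83 * n - l) = -(-1) ^ (ee n l + zz n l) * PowerSeries.rescale (-1 : ℚ) (F n l) := by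
  have hP : ∀ h ∈ Pset, h ≤ 83 := fun h hh => by
    rw [mem_Pset] at hh
    omega
  have hM : ∀ h ∈ Mset, h ≤ 83 := fun h hh => by
    rw [mem_Mset] at hh
    omega
  have hne : ∏ h ∈ Pset, B n h (83 * n - l) ≠ 0 := by
    intro h0
    have := constCoeff_prod_B n (83 * n - l) Pset
    rw [h0, map_zero] at this
    exact this rfl
  have h1 := F_mul n (83 * n - l)
  have h2 := congrArg (PowerSeries.rescale (-1 : ℚ)) (F_mul n l)
  rw [map_mul, map_mul, map_mul, map_add, map_mul, rescale_C', rescale_C',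
    PowerSeries.rescale_X, map_ofNat] at h2
  apply mul_right_cancel₀ hne
  rw [h1, prod_B_refl n l hl Mset hM, prod_B_refl n l hl Pset hP]
  have h3 : (-1 : PowerSeries ℚ) ^ (∑ h ∈ Mset, ((blk n h).erase l).card)
      = (-1) ^ (ee n l + zz n l) * (-1) ^ (∑ h ∈ Pset, ((blk n h).erase l).card) := by
    have e1 := sum_card_erase n l Mset
    have e2 := sum_card_erase n l Pset
    rw [sum_card_Mset] at e1
    rw [sum_card_Pset] at e2
    change _ + zz n l = _ at e1
    change _ + ee n l = _ at e2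
    rw [← pow_add]
    apply neg_one_pow_congr
    rw [Nat.even_iff, Nat.even_iff]
    omega
  rw [h3, Nat.cast_sub hl]
  have h4 : PowerSeries.C (83 * (n : ℚ) - 2 * (((83 * n : ℕ) : ℚ) - l)) + 2 * PowerSeries.X =
      -(PowerSeries.C (83 * (n : ℚ) - 2 * (l : ℚ)) + 2 * (PowerSeries.C (-1) * PowerSeries.X)) := by
    have : 83 * (n : ℚ) - 2 * (((83 * n : ℕ) : ℚ) - l) = -(83 * (n : ℚ) - 2 * (l : ℚ)) := by
      push_cast
      ring
    rw [this, map_neg, map_neg, map_one]
    ring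
  rw [h4]
  linear_combination ((-1 : PowerSeries ℚ) ^ (ee n l + zz n l) *
    (-1) ^ (∑ h ∈ Pset, ((blk n h).erase l).card)) * h2

theorem a_refl (n l i : ℕ) (hl : l ∈ poles n) :
    a n (83 * n - l) i = (-1) ^ (i + 1) * a n l i := by
  have hl' := le_of_mem_poles hl
  rw [a_eq hl, a_eq (mem_poles_refl hl)]
  have hoo : oo n (83 * n - l) = oo n l := by
    unfold oo
    rw [ord_refl n l hl']
  rw [hoo]
  by_cases hi : i ≤ oo n l
  · rw [if_pos hi, if_pos hi, F_refl n l hl']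
    have h1 : -(-1 : PowerSeries ℚ) ^ (ee n l + zz n l)
        = PowerSeries.C (-(-1 : ℚ) ^ (ee n l + zz n l)) := by
      rw [map_neg, map_pow, map_neg, map_one]
    rw [h1, PowerSeries.coeff_C_mul, PowerSeries.coeff_rescale, ← mul_assoc]
    congr 1
    rw [neg_mul, ← pow_add, pow_succ, mul_neg_one, neg_inj]
    apply neg_one_pow_congr
    rw [Nat.even_iff, Nat.even_iff]
    have h2 := oo_add_zz n l
    rw [ww_eq_zero hl] at h2
    omega
  · rw [if_neg hi, if_neg hi, mul_zero]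

theorem sum_a_even (n i : ℕ) (hi : Even i) : ∑ l ∈ poles n, a n l i = 0 := by
  have h1 : ∑ l ∈ poles n, a n l i = ∑ l ∈ poles n, a n (83 * n - l) i := by
    refine Finset.sum_nbij' (fun m => 83 * n - m) (fun m => 83 * n - m) ?_ ?_ ?_ ?_ ?_
    · intro m hm
      exact mem_poles_refl hm
    · intro m hm
      exact mem_poles_refl hm
    · intro m hm
      have := le_of_mem_poles hm
      omega
    · intro m hm
      have := le_of_mem_poles hm
      omega
    · intro m hm
      have := le_of_mem_poles hm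
      rw [Nat.sub_sub_self this]
  have h2 : ∑ l ∈ poles n, a n (83 * n - l) i = - ∑ l ∈ poles n, a n l i := by
    rw [← Finset.sum_neg_distrib]
    refine Finset.sum_congr rfl (fun l hl => ?_)
    rw [a_refl n l i hl, pow_succ, hi.neg_one_pow]
    ring
  linarith

/-! ### B1 -/

lemma summable_tail' {s : ℕ} (hs : 2 ≤ s) (M : ℕ) :
    Summable (fun m : ℕ => 1 / ((m : ℝ) + M + 1) ^ s) := by
  have h1 : Summable (fun m : ℕ => 1 / (m : ℝ) ^ s) :=
    Real.summable_one_div_nat_pow.mpr (by omega)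
  have h2 := (summable_nat_add_iff (M + 1)).mpr h1
  refine h2.congr (fun m => ?_)
  push_cast
  rw [add_assoc]

lemma tail_eq {s : ℕ} (hs : 2 ≤ s) (M : ℕ) : tail s M = tail s 0 - (Hs s M : ℝ) := by
  have h1 := (summable_tail' hs 0).sum_add_tsum_nat_add M
  have h2 : ∑ i ∈ Finset.range M, 1 / (((i : ℕ) : ℝ) + (0 : ℕ) + 1) ^ s = (Hs s M : ℝ) := by
    unfold Hs
    rw [Rat.cast_sum]
    symm
    refine Finset.sum_nbij' (fun m => m - 1) (fun m => m + 1) ?_ ?_ ?_ ?_ ?_
    · intro m hm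
      rw [mem_Icc] at hm
      rw [mem_range]
      omega
    · intro m hm
      rw [mem_range] at hm
      rw [mem_Icc]
      omega
    · intro m hm
      rw [mem_Icc] at hm
      omega
    · intro m _
      omega
    · intro m hm
      rw [mem_Icc] at hm
      rw [Nat.cast_sub hm.1]
      push_cast
      rw [add_zero, sub_add_cancel]
  have h3 : ∑' i : ℕ, 1 / (((i + M : ℕ) : ℝ) + (0 : ℕ) + 1) ^ s = tail s M := by
    unfold tail
    refine tsum_congr (fun i => ?_)
    push_cast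
    rw [add_zero]
  rw [h2, h3] at h1
  have h4 : tail s 0 = ∑' m : ℕ, 1 / ((m : ℝ) + (0 : ℕ) + 1) ^ s := rfl
  rw [h4]
  linarith

theorem S_eq (n : ℕ) (_hn : 0 < n) :
    S n = (rho0 n : ℝ) + (rho n 5 : ℝ) * tail 5 0 + (rho n 7 : ℝ) * tail 7 0
      + (rho n 9 : ℝ) * tail 9 0 := by
  have h1 : S n = ∑ l ∈ poles n, (∑ i ∈ Finset.Icc 1 8,
      ((a n l i * ((i + 1).choose 2 : ℚ) : ℚ) : ℝ) * tail (i + 2) 0 + (T n l : ℝ)) := by
    unfold S T
    refine Finset.sum_congr rfl (fun l _ => ?_)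
    rw [Rat.cast_neg, Rat.cast_sum, ← sub_eq_add_neg, ← Finset.sum_sub_distrib]
    refine Finset.sum_congr rfl (fun i _ => ?_)
    rw [tail_eq (by omega)]
    push_cast
    ring
  rw [h1, Finset.sum_add_distrib, Finset.sum_comm]
  have h2 : ∀ i ∈ Finset.Icc 1 8, ∑ l ∈ poles n,
      ((a n l i * ((i + 1).choose 2 : ℚ) : ℚ) : ℝ) * tail (i + 2) 0
      = ((∑ l ∈ poles n, a n l i : ℚ) : ℝ) * (((i + 1).choose 2 : ℕ) : ℝ) * tail (i + 2) 0 := by
    intro i _
    rw [Rat.cast_sum, Finset.sum_mul, Finset.sum_mul]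
    refine Finset.sum_congr rfl (fun l _ => ?_)
    push_cast
    ring
  rw [Finset.sum_congr rfl h2]
  have h3 : (Finset.Icc 1 8 : Finset ℕ) = {1, 2, 3, 4, 5, 6, 7, 8} := by decide
  rw [h3]
  simp only [Finset.sum_insert, Finset.mem_insert, Finset.mem_singleton, Finset.sum_singleton,
    OfNat.one_ne_ofNat, Nat.reduceEqDiff, or_self, not_false_eq_true,
    sum_a_one, sum_a_even n 2 (by decide), sum_a_even n 4 (by decide),
    sum_a_even n 6 (by decide), sum_a_even n 8 (by decide), Rat.cast_zero, zero_mul, zero_add,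
    add_zero]
  have h5 : (rho n 5 : ℝ) = ((∑ l ∈ poles n, a n l 3 : ℚ) : ℝ) * (((3 + 1).choose 2 : ℕ) : ℝ) := by
    unfold rho
    rw [← Finset.sum_mul]
    push_cast
    rfl
  have h7 : (rho n 7 : ℝ) = ((∑ l ∈ poles n, a n l 5 : ℚ) : ℝ) * (((5 + 1).choose 2 : ℕ) : ℝ) := by
    unfold rho
    rw [← Finset.sum_mul]
    push_cast
    rfl
  have h9 : (rho n 9 : ℝ) = ((∑ l ∈ poles n, a n l 7 : ℚ) : ℝ) * (((7 + 1).choose 2 : ℕ) : ℝ) := by
    unfold rho
    rw [← Finset.sum_mul]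
    push_cast
    rfl
  have h0 : (rho0 n : ℝ) = ∑ l ∈ poles n, (T n l : ℝ) := by
    unfold rho0
    rw [Rat.cast_sum]
  rw [h0, h5, h7, h9]
  ring

/-! ### B2 -/

lemma coeff_inv_pow (c : ℚ) (hc : c ≠ 0) (i : ℕ) :
    PowerSeries.coeff 0 (((PowerSeries.C c + PowerSeries.X)⁻¹) ^ i) = (c⁻¹) ^ i ∧
    PowerSeries.coeff 1 (((PowerSeries.C c + PowerSeries.X)⁻¹) ^ i) = -(i : ℚ) * (c⁻¹) ^ (i + 1) ∧
    PowerSeries.coeff 2 (((PowerSeries.C c + PowerSeries.X)⁻¹) ^ i)
      = ((i + 1).choose 2 : ℚ) * (c⁻¹) ^ (i + 2) := by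
  have hcc : PowerSeries.constantCoeff (PowerSeries.C c + PowerSeries.X) ≠ 0 := by
    rw [map_add, PowerSeries.constantCoeff_X, add_zero, PowerSeries.constantCoeff_C]
    exact hc
  have hinv : (PowerSeries.C c + PowerSeries.X)⁻¹ * (PowerSeries.C c + PowerSeries.X) = 1 :=
    PowerSeries.inv_mul_cancel _ hcc
  induction i with
  | zero =>
    refine ⟨by simp, ?_, ?_⟩
    · rw [pow_zero, PowerSeries.coeff_one, if_neg (by norm_num)]
      simp
    · rw [pow_zero, PowerSeries.coeff_one, if_neg (by norm_num)]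
      simp
  | succ i ih =>
    obtain ⟨h0, h1, h2⟩ := ih
    set w := (PowerSeries.C c + PowerSeries.X)⁻¹ with hw
    have key : w ^ i = PowerSeries.C c * w ^ (i + 1) + PowerSeries.X * w ^ (i + 1) := by
      rw [← add_mul, pow_succ, mul_comm, mul_assoc, hinv, mul_one]
    have e0 : PowerSeries.coeff 0 (w ^ i) = c * PowerSeries.coeff 0 (w ^ (i + 1)) := by
      conv_lhs => rw [key]
      rw [map_add, PowerSeries.coeff_C_mul, PowerSeries.coeff_zero_X_mul, add_zero]
    have e1 : PowerSeries.coeff 1 (w ^ i) = c * PowerSeries.coeff 1 (w ^ (i + 1))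
        + PowerSeries.coeff 0 (w ^ (i + 1)) := by
      conv_lhs => rw [key]
      rw [map_add, PowerSeries.coeff_C_mul, PowerSeries.coeff_succ_X_mul]
    have e2 : PowerSeries.coeff 2 (w ^ i) = c * PowerSeries.coeff 2 (w ^ (i + 1))
        + PowerSeries.coeff 1 (w ^ (i + 1)) := by
      conv_lhs => rw [key]
      rw [map_add, PowerSeries.coeff_C_mul, PowerSeries.coeff_succ_X_mul]
    have f0 : PowerSeries.coeff 0 (w ^ (i + 1)) = (c⁻¹) ^ (i + 1) := by
      rw [h0] at e0
      rw [pow_succ (c⁻¹) i, e0]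
      field_simp
    have f1 : PowerSeries.coeff 1 (w ^ (i + 1)) = -((i + 1 : ℕ) : ℚ) * (c⁻¹) ^ (i + 1 + 1) := by
      rw [h1, f0] at e1
      have : PowerSeries.coeff 1 (w ^ (i + 1)) = (-(i : ℚ) * c⁻¹ ^ (i + 1) - c⁻¹ ^ (i + 1)) * c⁻¹ := by
        rw [e1]
        field_simp
        ring
      rw [this]
      push_cast
      ring
    refine ⟨f0, f1, ?_⟩
    rw [h2, f1] at e2
    have : PowerSeries.coeff 2 (w ^ (i + 1)) = (((i + 1).choose 2 : ℚ) * c⁻¹ ^ (i + 2)
      + ((i + 1 : ℕ) : ℚ) * c⁻¹ ^ (i + 1 + 1)) * c⁻¹ := by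
      rw [e2]
      field_simp
      ring
    rw [this]
    have hch : (i + 1 + 1).choose 2 = (i + 1).choose 2 + (i + 1) := by
      rw [Nat.choose_succ_succ' (i + 1) 1, Nat.choose_one_right]
      ring
    rw [hch]
    push_cast
    ring

lemma ww_three {n M : ℕ} (hM : 6 * n ≤ M) (hM' : M < 25 * n) : ww n M = 3 ∧ oo n M = 0 := by
  have h1 : M ∈ blk n 6 := by
    rw [mem_blk]
    omega
  have h2 := zz_eq_three h1
  have h3 : ee n M = 0 := by
    by_contra h
    have := ee_pos_mem' h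
    rw [mem_Icc] at this
    omega
  unfold ww oo
  rw [ord_eq, h2, h3]
  decide

lemma second_deriv (n M : ℕ) (hM : 6 * n ≤ M) (hM' : M < 25 * n) :
    ∑ l ∈ poles n, ∑ i ∈ Finset.Icc 1 8,
      a n l i * (((i + 1).choose 2 : ℚ) * (((l : ℚ) - M)⁻¹) ^ (i + 2)) = 0 := by
  obtain ⟨hw3, ho0⟩ := ww_three hM hM'
  have hMII : M ∈ II n := by
    unfold II
    rw [mem_Icc]
    omega
  have h1 := sh_Nu n M hMII
  rw [hw3, pf_a, map_sum] at h1
  set U := sh M (∏ k ∈ (II n).erase M, gg k ^ oo n k) with hU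
  have hU0 : PowerSeries.constantCoeff U ≠ 0 := by
    rw [hU, sh_prod]
    exact constCoeff_prod_ne M _ (Finset.notMem_erase _ _) _
  have hlne : ∀ l ∈ poles n, (l : ℚ) - M ≠ 0 := by
    intro l hl
    unfold poles at hl
    rw [mem_Icc] at hl
    rw [sub_ne_zero]
    have : l ≠ M := by omega
    exact_mod_cast this
  have hinv : ∀ l ∈ poles n, (PowerSeries.C ((l : ℚ) - M) + PowerSeries.X)⁻¹ *
      (PowerSeries.C ((l : ℚ) - M) + PowerSeries.X) = 1 := by
    intro l hl
    apply PowerSeries.inv_mul_cancel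
    rw [map_add, PowerSeries.constantCoeff_X, add_zero, PowerSeries.constantCoeff_C]
    exact hlne l hl
  have hUU : U = sh M (∏ k ∈ II n, gg k ^ oo n k) := by
    rw [← Finset.mul_prod_erase _ _ hMII, ho0, pow_zero, one_mul]
  have h2 : ∀ l ∈ poles n, sh M (∑ i ∈ Finset.Icc 1 8, Polynomial.C (a n l i) *
      gg l ^ (oo n l - i) * ∏ k ∈ (II n).erase l, gg k ^ oo n k)
      = U * ∑ i ∈ Finset.Icc 1 8, PowerSeries.C (a n l i) *
        ((PowerSeries.C ((l : ℚ) - M) + PowerSeries.X)⁻¹) ^ i := by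
    intro l hl
    rw [map_sum, Finset.mul_sum]
    refine Finset.sum_congr rfl (fun i _ => ?_)
    by_cases hi : i ≤ oo n l
    · rw [map_mul, map_mul, map_pow, sh_C, sh_gg, hUU,
        ← Finset.mul_prod_erase _ _ (poles_subset_II n hl), map_mul, map_pow, sh_gg]
      have e1 : (PowerSeries.C ((l : ℚ) - M) + PowerSeries.X) ^ oo n l =
          (PowerSeries.C ((l : ℚ) - M) + PowerSeries.X) ^ (oo n l - i) *
          (PowerSeries.C ((l : ℚ) - M) + PowerSeries.X) ^ i := by
        rw [← pow_add]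
        congr 1
        omega
      have e2 : (PowerSeries.C ((l : ℚ) - M) + PowerSeries.X)⁻¹ ^ i *
          (PowerSeries.C ((l : ℚ) - M) + PowerSeries.X) ^ i = 1 := by
        rw [← mul_pow, hinv l hl, one_pow]
      rw [e1]
      linear_combination (-(PowerSeries.C (a n l i)) *
        (PowerSeries.C ((l : ℚ) - M) + PowerSeries.X) ^ (oo n l - i) *
        sh M (∏ k ∈ (II n).erase l, gg k ^ oo n k)) * e2
    · rw [a_eq_zero hl (by omega), map_zero, zero_mul, zero_mul, map_zero, map_zero, zero_mul,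
        mul_zero]
  rw [Finset.sum_congr rfl h2, ← Finset.mul_sum, mul_assoc] at h1
  have hUne : U ≠ 0 := by
    intro h0
    rw [h0, map_zero] at hU0
    exact hU0 rfl
  have h3 := mul_left_cancel₀ hUne h1
  have h4 := congrArg (PowerSeries.coeff 2) h3
  rw [PowerSeries.coeff_mul_X_pow', if_neg (by norm_num), map_sum] at h4
  rw [← h4]
  refine Finset.sum_congr rfl (fun l hl => ?_)
  rw [map_sum]
  refine Finset.sum_congr rfl (fun i _ => ?_)
  rw [PowerSeries.coeff_C_mul, (coeff_inv_pow _ (hlne l hl) i).2.2]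

lemma tail_succ {s : ℕ} (hs : 2 ≤ s) (M : ℕ) :
    tail s M = 1 / ((M : ℝ) + 1) ^ s + tail s (M + 1) := by
  unfold tail
  rw [(summable_tail' hs M).tsum_eq_zero_add]
  congr 1
  · push_cast
    rw [zero_add]
  · refine tsum_congr (fun m => ?_)
    push_cast
    ring_nf

lemma shift_step (n M : ℕ) (hM : 6 * n ≤ M) (hM' : M < 25 * n) :
    ∑ l ∈ poles n, ∑ i ∈ Finset.Icc 1 8,
      ((a n l i * ((i + 1).choose 2 : ℚ) : ℚ) : ℝ) * tail (i + 2) (l - (M + 1)) =
    ∑ l ∈ poles n, ∑ i ∈ Finset.Icc 1 8,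
      ((a n l i * ((i + 1).choose 2 : ℚ) : ℚ) : ℝ) * tail (i + 2) (l - M) := by
  have h1 := congrArg (fun q : ℚ => (q : ℝ)) (second_deriv n M hM hM')
  simp only [Rat.cast_sum, Rat.cast_zero] at h1
  rw [← sub_eq_zero, ← h1, ← Finset.sum_sub_distrib]
  refine Finset.sum_congr rfl (fun l hl => ?_)
  rw [← Finset.sum_sub_distrib]
  refine Finset.sum_congr rfl (fun i _ => ?_)
  have hl' : M < l := by
    unfold poles at hl
    rw [mem_Icc] at hl
    omega
  rw [tail_succ (s := i + 2) (by omega) (l - (M + 1))]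
  have h2 : l - (M + 1) + 1 = l - M := by omega
  rw [h2]
  have h3 : ((l - (M + 1) : ℕ) : ℝ) + 1 = (l : ℝ) - M := by
    rw [Nat.cast_sub (by omega)]
    push_cast
    ring
  rw [h3]
  push_cast
  rw [one_div, inv_pow]
  ring

theorem S_shift' (n : ℕ) (_hn : 0 < n) (M : ℕ) (hM : 6 * n ≤ M) (hM' : M ≤ 25 * n) :
    S n = ∑ l ∈ poles n, ∑ i ∈ Finset.Icc 1 8,
      ((a n l i * ((i + 1).choose 2 : ℚ) : ℚ) : ℝ) * tail (i + 2) (l - M) := by
  induction hd : 25 * n - M generalizing M with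
  | zero =>
    have : M = 25 * n := by omega
    rw [this]
    rfl
  | succ d ih =>
    rw [ih (M + 1) (by omega) (by omega) (by omega)]
    exact shift_step n M hM (by omega)

end Pool.Agent.OddZeta
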