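import Pool.Agent.OddZeta.TabSound
import Pool.Agent.OddZeta.TabData

/-! Module D, kernel check of the explicit part of the table.  Seat: helper57. -/

namespace Pool.Agent.OddZeta.Tab

set_option maxRecDepth 100000 in
theorem ok_T1a : T1a.all okCell = true := by decide +kernel

set_option maxRecDepth 100000 in
theorem ok_T0 : T0.all okCellF = true := by decide +kernel

set_option maxRecDepth 100000 in
theorem chain_T0 : chain 1 83 T0 1 24 = true := by decide +kernel

set_option maxRecDepth 100000 in
theorem chain_T1b : chain 1 24 T1b 1 1 = true := by decide +kernel

set_option maxRecDepth 100000 in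
theorem chain_T1 : chain 0 1 (T1a ++ T1b) 1 1 = true := by decide +kernel

end Pool.Agent.OddZeta.Tab
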