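import Pool.Agent.OddZeta.Defs

/-!
Module D (finite table), soundness of the cell computation.  Seat: helper57.
-/

open Finset

namespace Pool.Agent.OddZeta.Tab

def HPl : List ℕ := [25, 26, 27, 28, 29, 30, 31, 32, 33, 34, 35]
def HMl : List ℕ := [0, 3, 6]
/-- the thresholds `h` and `83 - h` -/
def Ol : List ℕ := [0, 3, 6, 25, 26, 27, 28, 29, 30, 31, 32, 33, 34, 35,
  48, 49, 50, 51, 52, 53, 54, 55, 56, 57, 58, 77, 80, 83]
/-- the differences of thresholds -/
def Kl : List ℕ := [1, 2, 3, 4, 5, 6, 7, 8, 9, 10, 13, 14, 15, 16, 17, 18, 19, 20, 21, 22, 23, 24,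
  25, 26, 27, 28, 29, 30, 31, 32, 33, 34, 35, 42, 43, 44, 45, 46, 47, 48, 49, 50, 51, 52, 53, 54,
  55, 56, 57, 58, 71, 74, 77, 80, 83]

def HS : Finset ℕ := Pset ∪ Mset

theorem HS_eq : HS = {0, 3, 6, 25, 26, 27, 28, 29, 30, 31, 32, 33, 34, 35} := by decide

theorem mem_HS_O : ∀ h ∈ HS, h ∈ Ol ∧ 83 - h ∈ Ol ∧ h ≤ 41 := by decide

theorem diff_mem : ∀ o ∈ Ol, ∀ o' ∈ Ol, o < o' → o' - o ∈ Kl := by decide

theorem O_mem_K : ∀ o ∈ Ol, 0 < o → o ∈ Kl := by decide

theorem O_le : ∀ o ∈ Ol, o ≤ 83 := by decide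

theorem K_le : ∀ k ∈ Kl, 0 < k ∧ k ≤ 83 := by decide

theorem start_ne_end : ∀ h ∈ HS, ∀ h' ∈ HS, h ≠ 83 - h' := by decide

def al (q p o : ℕ) : ℕ := (o * q) % p
def fl (q p o : ℕ) : ℕ := (o * q) / p
def St (q p t h : ℕ) : ℤ := if al q p h ≤ t then 1 else 0
def En (q p t h : ℕ) : ℤ := if al q p (83 - h) ≤ t then 1 else 0
def ka (q p h : ℕ) : ℤ := if al q p (83 - h) < al q p h then 1 else 0

theorem sub_ediv (x y p : ℕ) (hp : 0 < p) :
    ((x : ℤ) - y) / p = ((x / p : ℕ) : ℤ) - ((y / p : ℕ) : ℤ) - 1 +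
      (if y % p ≤ x % p then 1 else 0) := by
  have hp' : (0 : ℤ) < p := by exact_mod_cast hp
  have hxl : x % p < p := Nat.mod_lt _ hp
  have hyl : y % p < p := Nat.mod_lt _ hp
  have hx : x = p * (x / p) + x % p := (Nat.div_add_mod x p).symm
  have hy : y = p * (y / p) + y % p := (Nat.div_add_mod y p).symm
  have hx' : (x : ℤ) = p * ((x / p : ℕ) : ℤ) + ((x % p : ℕ) : ℤ) := by exact_mod_cast hx
  have hy' : (y : ℤ) = p * ((y / p : ℕ) : ℤ) + ((y % p : ℕ) : ℤ) := by exact_mod_cast hy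
  rw [hx', hy']
  generalize x / p = X
  generalize y / p = Y
  generalize x % p = r at *
  generalize y % p = s at *
  have h1 : ((p : ℤ) * (X : ℤ) + (r : ℤ) - (p * (Y : ℤ) + (s : ℤ))) = (r - s) + p * (X - Y) := by
    ring
  rw [h1, Int.add_mul_ediv_left _ _ hp'.ne']
  split_ifs with h
  · rw [Int.ediv_eq_zero_of_lt (by omega) (by omega)]
    ring
  · have : ((r : ℤ) - s) / p = -1 := by
      rw [Int.ediv_eq_iff_of_pos hp']
      constructor <;> push_cast at * <;> omega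
    rw [this]
    ring

theorem mul_mod_red (o n p : ℕ) : (o * n) % p = al (n % p) p o := by
  unfold al
  rw [Nat.mul_mod_mod]

theorem mul_div_red (o n p : ℕ) (hp : 0 < p) : (o * n) / p = fl (n % p) p o + o * (n / p) := by
  unfold fl
  conv_lhs => rw [← Nat.div_add_mod n p]
  rw [Nat.mul_add, show o * (p * (n / p)) = p * (o * (n / p)) by ring, Nat.add_comm,
    Nat.add_mul_div_left _ _ hp]

theorem fA_eq (n l p h : ℕ) (hp : 0 < p) :
    fA n l p h = ((l / p : ℕ) : ℤ) - fl (n % p) p h - h * ((n / p : ℕ) : ℤ) - 1 +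
      (if al (n % p) p h ≤ l % p then 1 else 0) := by
  unfold fA
  have := sub_ediv l (h * n) p hp
  rw [mul_mod_red, mul_div_red _ _ _ hp] at this
  push_cast at this ⊢
  rw [this]
  ring

theorem fB_eq (n l p h : ℕ) (hp : 0 < p) (hh : h ≤ 41) :
    fB n l p h = (fl (n % p) p (83 - h) : ℤ) + (83 - h) * ((n / p : ℕ) : ℤ) - ((l / p : ℕ) : ℤ) -
      (if al (n % p) p (83 - h) < l % p then 1 else 0) := by
  unfold fB
  have := sub_ediv ((83 - h) * n) l p hp
  rw [mul_mod_red, mul_div_red _ _ _ hp] at this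
  have h1 : (((83 - h) * n : ℕ) : ℤ) = (83 - h : ℤ) * n := by
    rw [Nat.cast_mul, Nat.cast_sub (by omega)]
    norm_num
  rw [h1] at this
  rw [this]
  have h2 : (((83 - h : ℕ)) : ℤ) = (83 - h : ℤ) := by
    rw [Nat.cast_sub (by omega)]
    norm_num
  push_cast
  rw [h2]
  by_cases hc : al (n % p) p (83 - h) < l % p
  · rw [if_pos hc, if_neg (by omega)]
    ring
  · rw [if_neg hc, if_pos (by omega)]
    ring

theorem Nl_eq (n p h : ℕ) (hp : 0 < p) (hh : h ≤ 41) :
    ((Nl n h / p : ℕ) : ℤ) = (fl (n % p) p (83 - h) : ℤ) - fl (n % p) p h +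
      (83 - 2 * h) * ((n / p : ℕ) : ℤ) - ka (n % p) p h := by
  have := sub_ediv ((83 - h) * n) (h * n) p hp
  rw [mul_mod_red, mul_mod_red, mul_div_red _ _ _ hp, mul_div_red _ _ _ hp] at this
  have h0 : (((83 - h) * n : ℕ) : ℤ) - ((h * n : ℕ) : ℤ) = ((Nl n h : ℕ) : ℤ) := by
    unfold Nl
    rw [Nat.cast_mul, Nat.cast_mul, Nat.cast_mul, Nat.cast_sub (by omega), Nat.cast_sub (by omega)]
    push_cast
    ring
  rw [h0] at this
  have h2 : (((83 - h : ℕ)) : ℤ) = (83 - h : ℤ) := by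
    rw [Nat.cast_sub (by omega)]
    norm_num
  rw [Int.natCast_div, this]
  push_cast
  rw [h2]
  unfold ka
  by_cases hc : al (n % p) p (83 - h) < al (n % p) p h
  · rw [if_pos hc, if_neg (by omega)]
    ring
  · rw [if_neg hc, if_pos (by omega)]
    ring

/-- same floors at `q / p` and at the test point `a / b` -/
def Same (q p a b : ℕ) : Prop := ∀ k ∈ Kl, (k * q) / p = (k * a) / b ∧ (k * q) % p ≠ 0 ∧ (k * a) % b ≠ 0

theorem Same.fl_eq {q p a b : ℕ} (h : Same q p a b) {o : ℕ} (ho : o ∈ Ol) :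
    fl q p o = fl a b o := by
  rcases Nat.eq_zero_or_pos o with rfl | h0
  · simp [fl]
  · exact (h o (O_mem_K o ho h0)).1

theorem al_le_iff_of_lt {q p o o' : ℕ} (hp : 0 < p) (h : o < o') :
    al q p o ≤ al q p o' ↔ fl q p o' ≤ ((o' - o) * q) / p + fl q p o := by
  have h1 := Nat.div_add_mod (o * q) p
  have h2 := Nat.div_add_mod (o' * q) p
  have h3 := Nat.div_add_mod ((o' - o) * q) p
  have h4 : (o' - o) * q + o * q = o' * q := by
    rw [← Nat.add_mul, Nat.sub_add_cancel h.le]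
  have l1 := Nat.mod_lt (o * q) hp
  have l2 := Nat.mod_lt (o' * q) hp
  have l3 := Nat.mod_lt ((o' - o) * q) hp
  unfold al fl
  generalize ((o' - o) * q) / p = A at *
  generalize (o * q) / p = B at *
  generalize (o' * q) / p = C at *
  generalize ((o' - o) * q) % p = r3 at *
  generalize (o * q) % p = r1 at *
  generalize (o' * q) % p = r2 at *
  -- p A + r3 + p B + r1 = p C + r2
  have h5 : p * A + r3 + (p * B + r1) = p * C + r2 := by omega
  constructor
  · intro h6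
    by_contra h7
    have h8 : A + B + 1 ≤ C := by omega
    have h9 := Nat.mul_le_mul_left p h8
    have : p * (A + B + 1) = p * A + p * B + p := by ring
    omega
  · intro h6
    by_contra h7
    have h9 := Nat.mul_le_mul_left p h6
    have : p * (A + B) = p * A + p * B := by ring
    omega

theorem al_ne {q p o o' : ℕ} (_hp : 0 < p) (h : o < o') (hk : ((o' - o) * q) % p ≠ 0) :
    al q p o ≠ al q p o' := by
  intro he
  apply hk
  have h4 : (o' - o) * q + o * q = o' * q := by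
    rw [← Nat.add_mul, Nat.sub_add_cancel h.le]
  have h5 : ((o' - o) * q + o * q) ≡ 0 + o * q [MOD p] := by
    unfold Nat.ModEq
    rw [h4, zero_add]
    exact he.symm
  have := Nat.ModEq.add_right_cancel' _ h5
  simpa [Nat.ModEq] using this

theorem Same.ne_left {q p a b : ℕ} (h : Same q p a b) (hp : 0 < p) {o o' : ℕ} (ho : o ∈ Ol)
    (ho' : o' ∈ Ol) (hne : o ≠ o') : al q p o ≠ al q p o' := by
  rcases lt_or_gt_of_ne hne with h1 | h1
  · exact al_ne hp h1 (h _ (diff_mem o ho o' ho' h1)).2.1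
  · exact (al_ne hp h1 (h _ (diff_mem o' ho' o ho h1)).2.1).symm

theorem Same.ne_right {q p a b : ℕ} (h : Same q p a b) (hb : 0 < b) {o o' : ℕ} (ho : o ∈ Ol)
    (ho' : o' ∈ Ol) (hne : o ≠ o') : al a b o ≠ al a b o' := by
  rcases lt_or_gt_of_ne hne with h1 | h1
  · exact al_ne hb h1 (h _ (diff_mem o ho o' ho' h1)).2.2
  · exact (al_ne hb h1 (h _ (diff_mem o' ho' o ho h1)).2.2).symm

theorem Same.al_le_iff {q p a b : ℕ} (h : Same q p a b) (hp : 0 < p) (hb : 0 < b) {o o' : ℕ}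
    (ho : o ∈ Ol) (ho' : o' ∈ Ol) : al q p o ≤ al q p o' ↔ al a b o ≤ al a b o' := by
  rcases lt_trichotomy o o' with h1 | h1 | h1
  · rw [al_le_iff_of_lt hp h1, al_le_iff_of_lt hb h1, h.fl_eq ho, h.fl_eq ho',
      (h _ (diff_mem o ho o' ho' h1)).1]
  · subst h1
    simp
  · have e1 := al_le_iff_of_lt (q := q) hp h1
    have e2 := al_le_iff_of_lt (q := a) hb h1
    rw [h.fl_eq ho, h.fl_eq ho', (h _ (diff_mem o' ho' o ho h1)).1, ← e2] at e1
    have n1 := h.ne_left hp ho ho' h1.ne'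
    have n2 := h.ne_right hb ho ho' h1.ne'
    omega

/-- the threshold below `L` -/
theorem exists_thr {q p a b : ℕ} (h : Same q p a b) (hp : 0 < p) (L : ℕ) :
    ∃ o ∈ Ol, ∀ h ∈ HS, (al q p h ≤ L ↔ al q p h ≤ al q p o) ∧
      (al q p (83 - h) < L ↔ al q p (83 - h) ≤ al q p o) := by
  classical
  let Pa : Finset ℕ := Ol.toFinset.filter fun o => (o ∈ HS ∧ al q p o ≤ L) ∨ al q p o < L
  have hne : Pa.Nonempty := by
    refine ⟨0, ?_⟩
    simp only [Pa, Finset.mem_filter, List.mem_toFinset]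
    refine ⟨by decide, Or.inl ⟨by decide, ?_⟩⟩
    simp [al]
  obtain ⟨o, ho, hmax⟩ := Finset.exists_max_image Pa (al q p) hne
  simp only [Pa, Finset.mem_filter, List.mem_toFinset] at ho hmax
  refine ⟨o, ho.1, fun x hx => ⟨⟨fun h1 => ?_, fun h1 => ?_⟩, ⟨fun h1 => ?_, fun h1 => ?_⟩⟩⟩
  · exact hmax x ⟨(mem_HS_O x hx).1, Or.inl ⟨hx, h1⟩⟩
  · rcases ho.2 with h2 | h2
    · exact h1.trans h2.2
    · exact h1.trans h2.le
  · exact hmax _ ⟨(mem_HS_O x hx).2.1, Or.inr h1⟩
  · rcases ho.2 with h2 | h2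
    · have := h.ne_left hp ho.1 (mem_HS_O x hx).2.1 (start_ne_end o h2.1 x hx)
      omega
    · omega

theorem key {n p a b : ℕ} (l : ℕ) (hp : 0 < p) (hb : 0 < b) (hS : Same (n % p) p a b) :
    ∃ o ∈ Ol, ∀ h ∈ HS,
      fA n l p h = ((l / p : ℕ) : ℤ) - fl a b h - h * ((n / p : ℕ) : ℤ) - 1 + St a b (al a b o) h ∧
      fB n l p h = (fl a b (83 - h) : ℤ) + (83 - h) * ((n / p : ℕ) : ℤ) - ((l / p : ℕ) : ℤ)
        - En a b (al a b o) h ∧
      ((Nl n h / p : ℕ) : ℤ) = (fl a b (83 - h) : ℤ) - fl a b h +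
        (83 - 2 * h) * ((n / p : ℕ) : ℤ) - ka a b h := by
  obtain ⟨o, ho, hO⟩ := exists_thr hS hp (l % p)
  refine ⟨o, ho, fun h hh => ?_⟩
  obtain ⟨m1, m2, m3⟩ := mem_HS_O h hh
  obtain ⟨q1, q2⟩ := hO h hh
  refine ⟨?_, ?_, ?_⟩
  · rw [fA_eq n l p h hp, hS.fl_eq m1]
    have : (al (n % p) p h ≤ l % p) = (al a b h ≤ al a b o) := by
      rw [eq_iff_iff, q1, hS.al_le_iff hp hb m1 ho]
    simp only [this, St]
  · rw [fB_eq n l p h hp m3, hS.fl_eq m2]
    have : (al (n % p) p (83 - h) < l % p) = (al a b (83 - h) ≤ al a b o) := by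
      rw [eq_iff_iff, q2, hS.al_le_iff hp hb m2 ho]
    simp only [this, En]
  · rw [Nl_eq n p h hp m3, hS.fl_eq m2, hS.fl_eq m1]
    have : (al (n % p) p (83 - h) < al (n % p) p h) = (al a b (83 - h) < al a b h) := by
      rw [eq_iff_iff, ← not_le, ← not_le, hS.al_le_iff hp hb m1 m2]
    simp only [this, ka]

/-- the sum over the arcs containing the point just after `t` -/
def arcSum (a b t : ℕ) : ℤ :=
  ∑ h ∈ Pset, (ka a b h + St a b t h - En a b t h) - ∑ h ∈ Mset, (ka a b h + St a b t h - En a b t h)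

def selfA (a b t : ℕ) : Prop :=
  ∀ h ∈ HS, St a b t h + En a b t h - fl a b h - fl a b (83 - h) =
    St a b t 0 + En a b t 0 - fl a b 0 - fl a b (83 - 0)

theorem ord_sub_V (n l p : ℕ) : ord n l - V n l p =
    ∑ h ∈ Pset, (fA n l p h + fB n l p h + 1 - ((Nl n h / p : ℕ) : ℤ)) -
    ∑ h ∈ Mset, (fA n l p h + fB n l p h + 1 - ((Nl n h / p : ℕ) : ℤ)) := by
  have hc : ∀ s : Finset ℕ, (#{h ∈ s | l ∈ blk n h} : ℤ) = ∑ h ∈ s, (if l ∈ blk n h then (1 : ℤ) else 0) := by
    intro s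
    rw [Finset.card_filter]
    push_cast
    rfl
  have hs : ∀ s : Finset ℕ, ∑ h ∈ s, (fA n l p h + fB n l p h + 1 - ((Nl n h / p : ℕ) : ℤ)) =
      ∑ h ∈ s, (if l ∈ blk n h then (1 : ℤ) else 0) - ∑ h ∈ s, (((Nl n h / p : ℕ) : ℤ) - cnt n l p h) := by
    intro s
    rw [← Finset.sum_sub_distrib]
    apply Finset.sum_congr rfl
    intro h _
    unfold cnt
    split_ifs <;> ring
  unfold ord V
  rw [hc, hc, hs, hs]
  ring

theorem ord_sub_V_eq {n p a b : ℕ} {l o : ℕ}
    (H : ∀ h ∈ HS,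
      fA n l p h = ((l / p : ℕ) : ℤ) - fl a b h - h * ((n / p : ℕ) : ℤ) - 1 + St a b (al a b o) h ∧
      fB n l p h = (fl a b (83 - h) : ℤ) + (83 - h) * ((n / p : ℕ) : ℤ) - ((l / p : ℕ) : ℤ)
        - En a b (al a b o) h ∧
      ((Nl n h / p : ℕ) : ℤ) = (fl a b (83 - h) : ℤ) - fl a b h +
        (83 - 2 * h) * ((n / p : ℕ) : ℤ) - ka a b h) :
    ord n l - V n l p = arcSum a b (al a b o) := by
  rw [ord_sub_V]
  unfold arcSum
  have h1 : ∀ h ∈ HS, fA n l p h + fB n l p h + 1 - ((Nl n h / p : ℕ) : ℤ) =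
      ka a b h + St a b (al a b o) h - En a b (al a b o) h := by
    intro h hh
    obtain ⟨e1, e2, e3⟩ := H h hh
    rw [e1, e2, e3]
    ring
  congr 1
  · exact Finset.sum_congr rfl fun h hh => h1 h (Finset.mem_union_left _ hh)
  · exact Finset.sum_congr rfl fun h hh => h1 h (Finset.mem_union_right _ hh)

theorem selfP_of {n p a b : ℕ} {l o : ℕ}
    (H : ∀ h ∈ HS,
      fA n l p h = ((l / p : ℕ) : ℤ) - fl a b h - h * ((n / p : ℕ) : ℤ) - 1 + St a b (al a b o) h ∧
      fB n l p h = (fl a b (83 - h) : ℤ) + (83 - h) * ((n / p : ℕ) : ℤ) - ((l / p : ℕ) : ℤ)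
        - En a b (al a b o) h ∧
      ((Nl n h / p : ℕ) : ℤ) = (fl a b (83 - h) : ℤ) - fl a b h +
        (83 - 2 * h) * ((n / p : ℕ) : ℤ) - ka a b h) (hs : selfA a b (al a b o)) : selfP n l p := by
  intro h hh
  obtain ⟨e1, e2, -⟩ := H h hh
  obtain ⟨z1, z2, -⟩ := H 0 (by decide)
  have := hs h hh
  rw [e1, e2, z1, z2]
  push_cast
  linarith

/-- bound in the periodic range -/
theorem bnd_per {n p a b : ℕ} (l : ℕ) (hp : 0 < p) (hb : 0 < b) (hS : Same (n % p) p a b) (d : ℤ)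
    (hd : ∀ o ∈ Ol, arcSum a b (al a b o) + 2 ≤ d ∨
      (selfA a b (al a b o) ∧ arcSum a b (al a b o) + 1 ≤ d)) : bnd n l p ≤ d := by
  obtain ⟨o, ho, H⟩ := key l hp hb hS
  have h1 := ord_sub_V_eq H
  have h2 : selfA a b (al a b o) → selfP n l p := selfP_of H
  unfold bnd
  rcases hd o ho with h3 | ⟨h3, h4⟩
  · split_ifs <;> omega
  · have := h2 h3
    split_ifs <;> omega

theorem sumP (f : ℕ → ℤ) : ∑ h ∈ Pset, f h = (HPl.map f).sum := rfl

theorem sumM (f : ℕ → ℤ) : ∑ h ∈ Mset, f h = (HMl.map f).sum := rfl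

theorem arc_mem (a b t h : ℕ) : 0 ≤ ka a b h + St a b t h - En a b t h ∧
    ka a b h + St a b t h - En a b t h ≤ 1 := by
  unfold ka St En
  split_ifs <;> omega

theorem arcSum_le (a b t : ℕ) : arcSum a b t ≤ 11 := by
  unfold arcSum
  have h1 : ∑ h ∈ Pset, (ka a b h + St a b t h - En a b t h) ≤ ∑ h ∈ Pset, (1 : ℤ) :=
    Finset.sum_le_sum fun h _ => (arc_mem a b t h).2
  have h2 : 0 ≤ ∑ h ∈ Mset, (ka a b h + St a b t h - En a b t h) :=
    Finset.sum_nonneg fun h _ => (arc_mem a b t h).1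
  have h3 : ∑ h ∈ Pset, (1 : ℤ) = 11 := by decide
  omega

theorem bnd_le_13 {n p : ℕ} (l : ℕ) (hp : 0 < p) (hk : ∀ k ∈ Kl, (k * (n % p)) % p ≠ 0) :
    bnd n l p ≤ 13 := by
  have hS : Same (n % p) p (n % p) p := fun k hk' => ⟨rfl, hk k hk', hk k hk'⟩
  apply bnd_per l hp hp hS
  intro o _
  left
  have := arcSum_le (n % p) p (al (n % p) p o)
  omega

/-! ### Boolean check of one cell -/

def cntb (l : List ℕ) (t : ℕ) : ℕ := l.foldr (fun u s => cond (Nat.ble u t) (s + 1) s) 0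
def kab (a b h : ℕ) : ℕ := cond (Nat.blt (((83 - h) * a) % b) ((h * a) % b)) 1 0
def kabS (a b : ℕ) (l : List ℕ) : ℕ := l.foldr (fun h s => kab a b h + s) 0
def sigb (a b t h : ℕ) : ℕ := cond (Nat.ble ((h * a) % b) t) 1 0 +
  cond (Nat.ble (((83 - h) * a) % b) t) 1 0 + ((83 * a) / b - ((h * a) / b + ((83 - h) * a) / b))
def selfb (a b t : ℕ) : Bool :=
  (HMl.all fun h => Nat.beq (sigb a b t h) (sigb a b t 0)) &&
    (HPl.all fun h => Nat.beq (sigb a b t h) (sigb a b t 0))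
def Ub (a b : ℕ) : List ℕ := (HPl.map fun h => (h * a) % b) ++ (HMl.map fun h => ((83 - h) * a) % b)
def Db (a b : ℕ) : List ℕ := (HPl.map fun h => ((83 - h) * a) % b) ++ (HMl.map fun h => (h * a) % b)
def okt (a b cu cd : ℕ) (u dd : List ℕ) (t : ℕ) : Bool :=
  Nat.ble (cu + cntb u t) (cd + cntb dd t) ||
    (Nat.ble (cu + cntb u t) (cd + cntb dd t + 1) && selfb a b t)
def okPer (a b d : ℕ) : Bool :=
  (Ub a b).all (okt a b (2 + kabS a b HPl) (d + kabS a b HMl) (Ub a b) (Db a b)) &&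
  (Db a b).all (okt a b (2 + kabS a b HPl) (d + kabS a b HMl) (Ub a b) (Db a b))

theorem cntb_eq (l : List ℕ) (t : ℕ) :
    (cntb l t : ℤ) = (l.map fun u => if u ≤ t then (1 : ℤ) else 0).sum := by
  induction l with
  | nil => rfl
  | cons u l ih =>
    have : cntb (u :: l) t = cond (Nat.ble u t) (cntb l t + 1) (cntb l t) := rfl
    rw [this, List.map_cons, List.sum_cons, ← ih]
    by_cases h : u ≤ t
    · rw [if_pos h, Nat.ble_eq_true_of_le h]
      simp [add_comm]
    · rw [if_neg h]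
      have : Nat.ble u t = false := by
        rw [Bool.eq_false_iff]
        exact fun h' => h (Nat.le_of_ble_eq_true h')
      rw [this]
      simp

theorem kab_eq (a b h : ℕ) : (kab a b h : ℤ) = ka a b h := by
  unfold kab ka al
  by_cases hc : ((83 - h) * a) % b < (h * a) % b
  · rw [if_pos hc]
    have : Nat.blt (((83 - h) * a) % b) ((h * a) % b) = true := by
      simpa [Nat.blt_eq] using hc
    rw [this]
    rfl
  · rw [if_neg hc]
    have : Nat.blt (((83 - h) * a) % b) ((h * a) % b) = false := by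
      rw [Bool.eq_false_iff]
      intro h'
      exact hc (by simpa [Nat.blt_eq] using h')
    rw [this]
    rfl

theorem kabS_eq (a b : ℕ) (l : List ℕ) : (kabS a b l : ℤ) = (l.map (ka a b)).sum := by
  induction l with
  | nil => rfl
  | cons u l ih =>
    have : kabS a b (u :: l) = kab a b u + kabS a b l := rfl
    rw [this, List.map_cons, List.sum_cons, ← ih]
    push_cast
    rw [kab_eq]

theorem arcSum_eq (a b t : ℕ) : arcSum a b t = kabS a b HPl + cntb (Ub a b) t - kabS a b HMl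
    - cntb (Db a b) t := by
  rw [kabS_eq, kabS_eq, cntb_eq, cntb_eq]
  unfold arcSum Ub Db
  rw [sumP, sumM]
  simp only [List.map_append, List.sum_append, List.map_map]
  have hP : ∀ l : List ℕ, (l.map fun h => ka a b h + St a b t h - En a b t h).sum =
      (l.map (ka a b)).sum + (l.map (St a b t)).sum - (l.map (En a b t)).sum := by
    intro l
    induction l with
    | nil => rfl
    | cons x l ih =>
      simp only [List.map_cons, List.sum_cons]
      rw [ih]
      ring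
  rw [hP, hP]
  have e1 : ∀ l : List ℕ, (l.map ((fun u => if u ≤ t then (1 : ℤ) else 0) ∘ fun h => h * a % b)).sum =
      (l.map (St a b t)).sum := fun l => rfl
  have e2 : ∀ l : List ℕ, (l.map ((fun u => if u ≤ t then (1 : ℤ) else 0) ∘
      fun h => (83 - h) * a % b)).sum = (l.map (En a b t)).sum := fun l => rfl
  rw [e1, e1, e2, e2]
  ring

theorem cond_ble (x y : ℕ) : cond (Nat.ble x y) 1 0 = if x ≤ y then 1 else 0 := by
  by_cases h : x ≤ y
  · rw [if_pos h, Nat.ble_eq_true_of_le h]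
    rfl
  · rw [if_neg h]
    have : Nat.ble x y = false := by
      rw [Bool.eq_false_iff]
      exact fun h' => h (Nat.le_of_ble_eq_true h')
    rw [this]
    rfl

theorem sigb_eq (a b t h : ℕ) (hh : h ≤ 83) : (sigb a b t h : ℤ) =
    St a b t h + En a b t h - fl a b h - fl a b (83 - h) + fl a b 83 := by
  unfold sigb St En al fl
  rw [cond_ble, cond_ble]
  have h1 : h * a / b + (83 - h) * a / b ≤ 83 * a / b := by
    have := Nat.div_add_div_le_add_div (x := h * a) (y := (83 - h) * a) (z := b)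
    rwa [← Nat.add_mul, Nat.add_sub_cancel' hh] at this
  rw [Nat.cast_add, Nat.cast_sub h1]
  push_cast
  ring

theorem selfA_of {a b t : ℕ} (h : selfb a b t = true) : selfA a b t := by
  unfold selfb at h
  rw [Bool.and_eq_true, List.all_eq_true, List.all_eq_true] at h
  have h0 : ∀ x ∈ HS, sigb a b t x = sigb a b t 0 := by
    intro x hx
    have : x ∈ HMl ∨ x ∈ HPl := by
      revert x
      decide
    rcases this with h1 | h1
    · exact Nat.eq_of_beq_eq_true (h.1 x h1)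
    · exact Nat.eq_of_beq_eq_true (h.2 x h1)
  intro x hx
  have h1 : (sigb a b t x : ℤ) = sigb a b t 0 := by rw [h0 x hx]
  have hx' : x ≤ 83 := (mem_HS_O x hx).2.2.trans (by norm_num)
  rw [sigb_eq a b t x hx', sigb_eq a b t 0 (by norm_num)] at h1
  linarith

theorem okt_spec {a b d t : ℕ}
    (h : okt a b (2 + kabS a b HPl) (d + kabS a b HMl) (Ub a b) (Db a b) t = true) :
    arcSum a b t + 2 ≤ (d : ℤ) ∨ (selfA a b t ∧ arcSum a b t + 1 ≤ (d : ℤ)) := by
  unfold okt at h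
  rw [Bool.or_eq_true, Bool.and_eq_true] at h
  rw [arcSum_eq]
  rcases h with h | ⟨h, h'⟩
  · left
    have := Nat.le_of_ble_eq_true h
    omega
  · right
    refine ⟨selfA_of h', ?_⟩
    have := Nat.le_of_ble_eq_true h
    omega

theorem okPer_spec {a b d : ℕ} (h : okPer a b d = true) : ∀ o ∈ Ol,
    arcSum a b (al a b o) + 2 ≤ (d : ℤ) ∨
      (selfA a b (al a b o) ∧ arcSum a b (al a b o) + 1 ≤ (d : ℤ)) := by
  unfold okPer at h
  rw [Bool.and_eq_true, List.all_eq_true, List.all_eq_true] at h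
  intro o ho
  have : al a b o ∈ Ub a b ∨ al a b o ∈ Db a b := by
    unfold Ub Db al
    simp only [List.mem_append, List.mem_map]
    have h2 : (o ∈ HPl ∨ (83 - o) ∈ HMl) ∨ ((83 - o) ∈ HPl ∨ o ∈ HMl) := by
      revert o
      decide
    have h3 := O_le o ho
    rcases h2 with (h2 | h2) | (h2 | h2)
    · exact Or.inl (Or.inl ⟨o, h2, rfl⟩)
    · exact Or.inl (Or.inr ⟨83 - o, h2, by rw [Nat.sub_sub_self h3]⟩)
    · exact Or.inr (Or.inl ⟨83 - o, h2, by rw [Nat.sub_sub_self h3]⟩)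
    · exact Or.inr (Or.inr ⟨o, h2, rfl⟩)
  rcases this with h1 | h1
  · exact okt_spec (h.1 _ h1)
  · exact okt_spec (h.2 _ h1)

/-! ### the cells -/

def sameb (a1 b1 a2 b2 : ℕ) : Bool :=
  Nat.blt 0 b1 && Nat.blt 0 b2 && Nat.blt (a1 * b2) (a2 * b1) &&
    Kl.all fun k => Nat.beq ((k * a2 - 1) / b2) ((k * a1) / b1)

theorem floor_cell {a1 b1 a2 b2 k Q P : ℕ} (hb1 : 0 < b1) (hb2 : 0 < b2) (hk : 0 < k)
    (h : (k * a2 - 1) / b2 = (k * a1) / b1) (h1 : a1 * P ≤ Q * b1) (h2 : Q * b2 < a2 * P) :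
    (k * Q) / P = (k * a1) / b1 := by
  have hP : 0 < P := by
    rcases Nat.eq_zero_or_pos P with rfl | h
    · simp at h2
    · exact h
  have f1 : (k * a1) / b1 * b1 ≤ k * a1 := Nat.div_mul_le_self _ _
  have f2 : k * a2 ≤ ((k * a1) / b1 + 1) * b2 := by
    rw [← h]
    have := Nat.lt_div_mul_add (a := k * a2 - 1) hb2
    have e : ((k * a2 - 1) / b2 + 1) * b2 = (k * a2 - 1) / b2 * b2 + b2 := by ring
    rw [e]
    omega
  generalize (k * a1) / b1 = f at *
  apply Nat.div_eq_of_lt_le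
  · -- f * P ≤ k * Q
    have : f * P * b1 ≤ k * Q * b1 := by
      calc f * P * b1 = (f * b1) * P := by ring
        _ ≤ (k * a1) * P := Nat.mul_le_mul_right _ f1
        _ = k * (a1 * P) := by ring
        _ ≤ k * (Q * b1) := Nat.mul_le_mul_left _ h1
        _ = k * Q * b1 := by ring
    exact Nat.le_of_mul_le_mul_right this hb1
  · have : k * Q * b2 < (f + 1) * P * b2 := by
      calc k * Q * b2 = k * (Q * b2) := by ring
        _ < k * (a2 * P) := Nat.mul_lt_mul_of_pos_left h2 hk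
        _ = (k * a2) * P := by ring
        _ ≤ ((f + 1) * b2) * P := Nat.mul_le_mul_right _ f2
        _ = (f + 1) * P * b2 := by ring
    have := Nat.lt_of_mul_lt_mul_right this
    simpa [Nat.succ_eq_add_one] using this

theorem same_of {a1 b1 a2 b2 q p : ℕ} (h : sameb a1 b1 a2 b2 = true)
    (h1 : a1 * p ≤ q * b1) (h2 : q * b2 < a2 * p) (hk : ∀ k ∈ Kl, (k * q) % p ≠ 0) :
    Same q p (a1 + a2) (b1 + b2) ∧ 0 < b1 + b2 := by
  unfold sameb at h
  simp only [Bool.and_eq_true, Nat.blt_eq, List.all_eq_true] at h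
  obtain ⟨⟨⟨hb1, hb2⟩, hlt⟩, hall⟩ := h
  refine ⟨fun k hk' => ?_, by omega⟩
  have hk0 := (K_le k hk').1
  have hf := Nat.eq_of_beq_eq_true (hall k hk')
  have m1 : a1 * (b1 + b2) < (a1 + a2) * b1 := by
    have : a1 * (b1 + b2) = a1 * b1 + a1 * b2 := by ring
    have : (a1 + a2) * b1 = a1 * b1 + a2 * b1 := by ring
    omega
  have m2 : (a1 + a2) * b2 < a2 * (b1 + b2) := by
    have : a2 * (b1 + b2) = a2 * b1 + a2 * b2 := by ring
    have : (a1 + a2) * b2 = a1 * b2 + a2 * b2 := by ring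
    omega
  have e1 := floor_cell hb1 hb2 hk0 hf h1 h2
  have e2 := floor_cell hb1 hb2 hk0 hf m1.le m2
  refine ⟨by rw [e1, e2], hk k hk', ?_⟩
  intro h0
  have e3 := Nat.div_add_mod (k * (a1 + a2)) (b1 + b2)
  rw [h0, e2, add_zero] at e3
  have f1 : (k * a1) / b1 * b1 ≤ k * a1 := Nat.div_mul_le_self _ _
  generalize (k * a1) / b1 = f at *
  have c1 : k * (a1 * (b1 + b2)) < k * ((a1 + a2) * b1) := Nat.mul_lt_mul_of_pos_left m1 hk0
  have c2 : f * b1 * (b1 + b2) ≤ k * a1 * (b1 + b2) := Nat.mul_le_mul_right _ f1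
  have c3 : k * ((a1 + a2) * b1) = ((b1 + b2) * f) * b1 := by rw [e3]; ring
  have c4 : ((b1 + b2) * f) * b1 = f * b1 * (b1 + b2) := by ring
  have c5 : k * (a1 * (b1 + b2)) = k * a1 * (b1 + b2) := by ring
  omega

/-! ### the explicit range `n / p < 1 / 24` -/

def stb (a b t h : ℕ) : ℕ := cond (Nat.ble ((h * a) % b) t) 1 0
def enb (a b t h : ℕ) : ℕ := cond (Nat.ble (((83 - h) * a) % b) t) 1 0
def noPb (a b Y t h : ℕ) : Bool :=
  Nat.ble (((83 - h) * a) / b + stb a b t h) ((h * a) / b + enb a b t h) ||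
    (Nat.ble ((h * a) / b + 1) (Y + stb a b t h) && (Nat.ble (Y + enb a b t h) (((83 - h) * a) / b)
      && Nat.ble (((83 - h) * a) / b + stb a b t h) ((h * a) / b + 1 + enb a b t h)))
def sFl (a b : ℕ) (l : List ℕ) : ℕ := l.foldr (fun h s => (h * a) / b + s) 0
def sFl' (a b : ℕ) (l : List ℕ) : ℕ := l.foldr (fun h s => ((83 - h) * a) / b + s) 0
def okF (a b d Y t : ℕ) : Bool :=
  !(Nat.ble ((28 * a) / b + 1) (Y + stb a b t 28) && Nat.ble (Y + enb a b t 28) ((55 * a) / b)) ||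
  (okt a b (2 + kabS a b HPl) (d + kabS a b HMl) (Ub a b) (Db a b) t ||
  (Nat.ble (Y + stb a b t 25) ((25 * a) / b + 1) &&
    (Nat.ble (kabS a b HPl + cntb (Ub a b) t) (d + 1 + kabS a b HMl + cntb (Db a b) t) ||
      (Nat.ble (sFl' a b HMl + sFl a b HPl + kabS a b HPl) (d + sFl' a b HPl + sFl a b HMl + kabS a b HMl)
        && HPl.all (noPb a b Y t)))))
def okFull (a b d : ℕ) : Bool :=
  (List.all [0, 1, 2] fun Y => (Ub a b).all (okF a b d Y) && (Db a b).all (okF a b d Y))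

theorem stb_eq (a b t h : ℕ) : (stb a b t h : ℤ) = St a b t h := by
  unfold stb St al
  rw [cond_ble]
  push_cast
  rfl

theorem enb_eq (a b t h : ℕ) : (enb a b t h : ℤ) = En a b t h := by
  unfold enb En al
  rw [cond_ble]
  push_cast
  rfl

theorem sFl_eq (a b : ℕ) (l : List ℕ) : (sFl a b l : ℤ) = (l.map fun h => (fl a b h : ℤ)).sum := by
  induction l with
  | nil => rfl
  | cons u l ih =>
    have : sFl a b (u :: l) = (u * a) / b + sFl a b l := rfl
    rw [this, List.map_cons, List.sum_cons, ← ih]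
    unfold fl
    push_cast
    ring

theorem sFl'_eq (a b : ℕ) (l : List ℕ) :
    (sFl' a b l : ℤ) = (l.map fun h => (fl a b (83 - h) : ℤ)).sum := by
  induction l with
  | nil => rfl
  | cons u l ih =>
    have : sFl' a b (u :: l) = ((83 - u) * a) / b + sFl' a b l := rfl
    rw [this, List.map_cons, List.sum_cons, ← ih]
    unfold fl
    push_cast
    ring

theorem mem_blk_iff {n l p h : ℕ} (hp : 0 < p) (hh : h ≤ 41) :
    l ∈ blk n h ↔ 0 ≤ fA n l p h ∧ 0 ≤ fB n l p h := by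
  have hp' : (0 : ℤ) < p := by exact_mod_cast hp
  unfold blk fA fB
  rw [Finset.mem_Icc, Int.ediv_nonneg_iff_of_pos hp', Int.ediv_nonneg_iff_of_pos hp']
  have h1 : (((83 - h) * n : ℕ) : ℤ) = (83 - h : ℤ) * n := by
    rw [Nat.cast_mul, Nat.cast_sub (by omega)]
    norm_num
  rw [← h1]
  have h2 : ((h * n : ℕ) : ℤ) = (h : ℤ) * n := by push_cast; ring
  rw [← h2]
  omega

theorem bnd_full {n p a b : ℕ} (l : ℕ) (hp : 0 < p) (hb : 0 < b) (hnp : n < p)
    (hS : Same (n % p) p a b) (hl : l ∈ poles n) (hY : l / p ≤ 2) (d : ℕ)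
    (hd : okFull a b d = true) : bnd n l p ≤ d := by
  have hp' : (0 : ℤ) < p := by exact_mod_cast hp
  obtain ⟨o, ho, H⟩ := key l hp hb hS
  have h1 := ord_sub_V_eq H
  have h2 : selfA a b (al a b o) → selfP n l p := selfP_of H
  have hN : n / p = 0 := Nat.div_eq_of_lt hnp
  rw [hN] at H
  simp only [Nat.cast_zero, mul_zero, sub_zero, add_zero] at H
  -- the check at this `Y`, `o`
  have hok : okF a b d (l / p) (al a b o) = true := by
    unfold okFull at hd
    rw [List.all_eq_true] at hd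
    have hY' : l / p ∈ [0, 1, 2] := by
      generalize l / p = Y at *
      interval_cases Y <;> decide
    have h3 := hd _ hY'
    rw [Bool.and_eq_true, List.all_eq_true, List.all_eq_true] at h3
    have : al a b o ∈ Ub a b ∨ al a b o ∈ Db a b := by
      unfold Ub Db al
      simp only [List.mem_append, List.mem_map]
      have h2 : (o ∈ HPl ∨ (83 - o) ∈ HMl) ∨ ((83 - o) ∈ HPl ∨ o ∈ HMl) := by
        clear H h1 h2 h3
        revert o
        decide
      have h3 := O_le o ho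
      rcases h2 with (h2 | h2) | (h2 | h2)
      · exact Or.inl (Or.inl ⟨o, h2, rfl⟩)
      · exact Or.inl (Or.inr ⟨83 - o, h2, by rw [Nat.sub_sub_self h3]⟩)
      · exact Or.inr (Or.inl ⟨83 - o, h2, by rw [Nat.sub_sub_self h3]⟩)
      · exact Or.inr (Or.inr ⟨o, h2, rfl⟩)
    rcases this with h4 | h4
    · exact h3.1 _ h4
    · exact h3.2 _ h4
  obtain ⟨A28, B28, -⟩ := H 28 (by decide)
  obtain ⟨A25, B25, -⟩ := H 25 (by decide)
  have hl28 : l ∈ blk n 28 := hl
  rw [mem_blk_iff hp (by norm_num)] at hl28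
  unfold okF at hok
  rw [Bool.or_eq_true, Bool.or_eq_true, Bool.and_eq_true, Bool.or_eq_true, Bool.and_eq_true,
    Bool.not_eq_true', Bool.and_eq_false_iff, List.all_eq_true] at hok
  rcases hok with hok | hok | ⟨hok1, hok2⟩
  · -- not in poles
    exfalso
    have e1 := stb_eq a b (al a b o) 28
    have e2 := enb_eq a b (al a b o) 28
    rw [A28, B28, ← e1, ← e2] at hl28
    unfold fl at hl28
    rcases hok with hok | hok
    · have : ¬ ((28 * a) / b + 1 ≤ l / p + stb a b (al a b o) 28) := by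
        intro h3
        rw [Nat.ble_eq_true_of_le h3] at hok
        exact Bool.noConfusion hok
      omega
    · have : ¬ (l / p + enb a b (al a b o) 28 ≤ (55 * a) / b) := by
        intro h3
        rw [Nat.ble_eq_true_of_le h3] at hok
        exact Bool.noConfusion hok
      have : (83 - 28) * a / b = 55 * a / b := by norm_num
      omega
  · -- as in the periodic case
    have h3 := okt_spec hok
    unfold bnd
    rcases h3 with h3 | ⟨h3, h4⟩
    · split_ifs <;> omega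
    · have := h2 h3
      split_ifs <;> omega
  · have e1 := stb_eq a b (al a b o) 25
    have h3 := Nat.le_of_ble_eq_true hok1
    have h4 : fA n l p 25 < 1 := by
      rw [A25, ← e1]
      unfold fl
      omega
    have h5 : ¬ p ≤ l - 25 * n := by
      intro h5
      unfold fA at h4
      have h6 : ((l : ℤ) - (25 : ℕ) * n) / p ≥ 1 := by
        apply Int.le_ediv_of_mul_le hp'
        push_cast
        omega
      omega
    unfold bnd
    rw [if_neg h5]
    rcases hok2 with h6 | ⟨h6, h7⟩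
    · have h8 := Nat.le_of_ble_eq_true h6
      have h9 := arcSum_eq a b (al a b o)
      split_ifs <;> omega
    · have hno : noP n l p := by
        intro h hh
        have hh' : h ∈ HPl := by
          revert h
          decide
        obtain ⟨Ah, Bh, -⟩ := H h (Finset.mem_union_left _ hh)
        have h10 := h7 h hh'
        have hblk := mem_blk_iff (n := n) (l := l) hp (mem_HS_O h (Finset.mem_union_left _ hh)).2.2
        have e1 := stb_eq a b (al a b o) h
        have e2 := enb_eq a b (al a b o) h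
        unfold noPb at h10
        rw [Bool.or_eq_true, Bool.and_eq_true, Bool.and_eq_true] at h10
        unfold cnt
        rw [Ah, Bh] at hblk ⊢
        unfold fl at hblk ⊢
        rcases h10 with h10 | ⟨h10, h11, h12⟩
        · have h13 := Nat.le_of_ble_eq_true h10
          split_ifs with hc
          · rw [hblk] at hc
            omega
          · omega
        · have h10 := Nat.le_of_ble_eq_true h10
          have h11 := Nat.le_of_ble_eq_true h11
          have h12 := Nat.le_of_ble_eq_true h12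
          rw [if_pos (hblk.2 (by omega))]
          omega
      rw [if_pos hno]
      apply le_trans (min_le_right _ _)
      have h8 := Nat.le_of_ble_eq_true h6
      have hE : E0 n p = (kabS a b HMl : ℤ) + sFl' a b HPl + sFl a b HMl - kabS a b HPl
          - sFl' a b HMl - sFl a b HPl := by
        unfold E0
        have g : ∀ s : Finset ℕ, s ⊆ HS → ∑ h ∈ s, ((Nl n h / p : ℕ) : ℤ) =
            ∑ h ∈ s, ((fl a b (83 - h) : ℤ) - fl a b h - ka a b h) := by
          intro s hs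
          apply Finset.sum_congr rfl
          intro h hh
          exact (H h (hs hh)).2.2
        rw [g _ Finset.subset_union_left, g _ Finset.subset_union_right]
        simp only [Finset.sum_sub_distrib]
        rw [sumP, sumP, sumP, sumM, sumM, sumM, sFl'_eq, sFl'_eq, sFl_eq, sFl_eq, kabS_eq, kabS_eq]
        ring
      rw [hE]
      omega

/-- check of one cell, periodic range -/
def okCell (e : ℕ × ℕ × ℕ × ℕ × ℕ) : Bool :=
  sameb e.1 e.2.1 e.2.2.1 e.2.2.2.1 && okPer (e.1 + e.2.2.1) (e.2.1 + e.2.2.2.1) e.2.2.2.2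

/-- check of one cell, explicit range -/
def okCellF (e : ℕ × ℕ × ℕ × ℕ × ℕ) : Bool :=
  sameb e.1 e.2.1 e.2.2.1 e.2.2.2.1 && okFull (e.1 + e.2.2.1) (e.2.1 + e.2.2.2.1) e.2.2.2.2

/-- the cells of a list are consecutive, from `s1 / s2` to `t1 / t2` -/
def chain : ℕ → ℕ → List (ℕ × ℕ × ℕ × ℕ × ℕ) → ℕ → ℕ → Bool
  | s1, s2, [], t1, t2 => Nat.beq s1 t1 && Nat.beq s2 t2
  | s1, s2, e :: l, t1, t2 => Nat.beq e.1 s1 && (Nat.beq e.2.1 s2 && chain e.2.2.1 e.2.2.2.1 l t1 t2)

theorem cover (l : List (ℕ × ℕ × ℕ × ℕ × ℕ)) : ∀ (s1 s2 t1 t2 : ℕ), chain s1 s2 l t1 t2 = true →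
    ∀ q p : ℕ, s1 * p ≤ q * s2 → q * t2 < t1 * p →
      ∃ e ∈ l, e.1 * p ≤ q * e.2.1 ∧ q * e.2.2.2.1 < e.2.2.1 * p := by
  induction l with
  | nil =>
    intro s1 s2 t1 t2 h q p h1 h2
    unfold chain at h
    rw [Bool.and_eq_true] at h
    have e1 := Nat.eq_of_beq_eq_true h.1
    have e2 := Nat.eq_of_beq_eq_true h.2
    subst e1 e2
    omega
  | cons e l ih =>
    intro s1 s2 t1 t2 h q p h1 h2
    unfold chain at h
    rw [Bool.and_eq_true, Bool.and_eq_true] at h
    have e1 := Nat.eq_of_beq_eq_true h.1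
    have e2 := Nat.eq_of_beq_eq_true h.2.1
    by_cases hc : q * e.2.2.2.1 < e.2.2.1 * p
    · exact ⟨e, by simp, by rw [e1, e2]; exact h1, hc⟩
    · obtain ⟨e', he', h3⟩ := ih _ _ _ _ h.2.2 q p (not_lt.1 hc) h2
      exact ⟨e', by simp [he'], h3⟩

/-- scaled upper bound of `d * (1 / x0 - 1 / x1)` -/
def ub (N : ℕ) (e : ℕ × ℕ × ℕ × ℕ × ℕ) : ℕ :=
  e.2.2.2.2 * (1000000000 * e.2.1 / (N * e.2.1 + e.1) + 1 -
    1000000000 * e.2.2.2.1 / (N * e.2.2.2.1 + e.2.2.1))

def sumUb (N : ℕ) (l : List (ℕ × ℕ × ℕ × ℕ × ℕ)) : ℕ := l.foldr (fun e s => ub N e + s) 0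

end Pool.Agent.OddZeta.Tab
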